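import Pool.Agent.Lib_MP_05ae4a_dk.Defs

/-! # Piece D3: the numbers `q`

`q_formula` by induction on `l` (cases `h = 0`, `h + 1`): index `i` for `(l, h+2)` and `i - 1` for `(l, h)`, Pascal; for `i = 0` the path is too short
(`q_far`).  At `h = 0` both binomials agree by symmetry.
`q_parity`, `q_far`: induction.
`q_shift`: `q 0 (l+1) h = q 1 l h` (first step), induction on `l`.
`q_exc`: `q 0 (2j+1) 1 = q 1 (2j) 1 = C(2j, j) - C(2j, j+1) = catalan j`.
`wt_formula`: `q_formula` with `l = a+2x-1`, `h = 1`, `i = x`: `wt a x = C(a+2x-1, x) - C(a+2x-1, x+a)`, `C(a+2x-1, x+a) = C(a+2x-1, x-1)` (`x ≥ 1`), so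
`(a+2x) wt a x = a C(a+2x, x)`.
`wt_ratio`: from `wt_formula` and `C(a+2x+2, x+1) (x+1) (a+x+1) = C(a+2x, x) (a+2x+2) (a+2x+1)`.
`wt_grow`: with `N = a+2x+2 ≤ n` the ratio `(a+2x+1)(a+2x)/((x+1)(a+x+1)) = 4 (N-1)(N-2)/(N^2-a^2)` is `≥ 6` iff `N^2 + 6N ≤ 3a^2 + 4`. -/

namespace Pool.Agent.ProfDK
open Finset Pool.Agent.ProfSR

theorem q_far {a l h : ℕ} (hl : l + h < a) : q a l h = 0 := by
  induction l generalizing h with
  | zero =>
    have : h ≠ a := by omega
    simp [q, this]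
  | succ l ih =>
    cases h with
    | zero => rfl
    | succ h =>
      show q a l h + q a l (h + 2) = 0
      rw [ih (by omega), ih (by omega)]

theorem q_high {a l h : ℕ} (hl : l + a < h) : q a l h = 0 := by
  induction l generalizing h with
  | zero =>
    have : h ≠ a := by omega
    simp [q, this]
  | succ l ih =>
    cases h with
    | zero => rfl
    | succ h =>
      show q a l h + q a l (h + 2) = 0
      rw [ih (by omega), ih (by omega)]

theorem q_parity {a l h : ℕ} (hl : ¬ Even (a + l + h)) : q a l h = 0 := by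
  induction l generalizing h with
  | zero =>
    have : h ≠ a := by
      rintro rfl
      exact hl ⟨h, by omega⟩
    simp [q, this]
  | succ l ih =>
    cases h with
    | zero => rfl
    | succ h =>
      show q a l h + q a l (h + 2) = 0
      rw [ih (fun ⟨r, hr⟩ => hl ⟨r + 1, by omega⟩), ih (fun ⟨r, hr⟩ => hl ⟨r, by omega⟩)]

theorem q_zero_right {a l : ℕ} (hl : 1 ≤ l) : q a l 0 = 0 := by
  cases l with
  | zero => omega
  | succ l => rfl

theorem q_formula {a l h i : ℕ} (ha : 1 ≤ a) (hi : 2 * i + a = l + h) :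
    (q a l h : ℝ) = (l.choose i : ℝ) - (l.choose (i + a) : ℝ) := by
  induction l generalizing h i with
  | zero =>
    rcases Nat.eq_zero_or_pos i with rfl | hpos
    · have h1 : h = a := by omega
      obtain ⟨b, rfl⟩ : ∃ b, a = b + 1 := ⟨a - 1, by omega⟩
      simp [q, h1]
    · have h1 : h ≠ a := by omega
      obtain ⟨j, rfl⟩ : ∃ j, i = j + 1 := ⟨i - 1, by omega⟩
      have h2 : j + 1 + a = (j + a) + 1 := by omega
      simp [q, h1, h2]
  | succ l ih =>
    cases h with
    | zero =>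
      have h1 : (l + 1).choose (i + a) = (l + 1).choose i :=
        (Nat.choose_symm_of_eq_add (by omega : l + 1 = i + (i + a))).symm
      rw [h1, sub_self]
      have : q a (l + 1) 0 = 0 := rfl
      rw [this]; simp
    | succ h =>
      have h0 : q a (l + 1) (h + 1) = q a l h + q a l (h + 2) := rfl
      rw [h0]
      push_cast
      rw [ih (h := h + 2) (i := i) (by omega)]
      rcases Nat.eq_zero_or_pos i with rfl | hpos
      · rw [q_far (by omega : l + h < a)]
        have h1 : l.choose (0 + a) = 0 := Nat.choose_eq_zero_of_lt (by omega)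
        have h2 : (l + 1).choose (0 + a) = 0 := Nat.choose_eq_zero_of_lt (by omega)
        rw [h1, h2]; simp
      · obtain ⟨j, rfl⟩ : ∃ j, i = j + 1 := ⟨i - 1, by omega⟩
        rw [ih (h := h) (i := j) (by omega)]
        have h2 : j + 1 + a = (j + a) + 1 := by omega
        rw [h2, Nat.choose_succ_succ, Nat.choose_succ_succ]
        push_cast
        ring

theorem q_shift (l h : ℕ) : q 0 (l + 1) h = q 1 l h := by
  induction l generalizing h with
  | zero =>
    cases h with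
    | zero => rfl
    | succ h =>
      show q 0 0 h + q 0 0 (h + 2) = q 1 0 (h + 1)
      by_cases hh : h = 0 <;> simp [q, hh]
  | succ l ih =>
    cases h with
    | zero => rfl
    | succ h =>
      show q 0 (l + 1) h + q 0 (l + 1) (h + 2) = q 1 l h + q 1 l (h + 2)
      rw [ih, ih]

theorem q_exc (j : ℕ) : (q 0 (2 * j + 1) 1 : ℝ) = kap (j + 1) := by
  rw [q_shift, q_formula (i := j) le_rfl (by omega)]
  unfold kap
  rw [Nat.add_sub_cancel]
  have h1 := Nat.choose_succ_right_eq (2 * j) j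
  have h2 := succ_mul_catalan_eq_centralBinom j
  rw [Nat.centralBinom_eq_two_mul_choose] at h2
  have h3 : 2 * j - j = j := by omega
  rw [h3] at h1
  have h1' : ((2 * j).choose (j + 1) : ℝ) * ((j : ℝ) + 1) = ((2 * j).choose j : ℝ) * j := by
    exact_mod_cast h1
  have h2' : ((j : ℝ) + 1) * (catalan j : ℝ) = ((2 * j).choose j : ℝ) := by exact_mod_cast h2
  have hj : ((j : ℝ) + 1) ≠ 0 := by positivity
  apply mul_left_cancel₀ hj
  rw [h2', mul_sub, mul_comm _ ((2 * j).choose (j + 1) : ℝ), h1']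
  ring

private theorem wt_formula_NumQ {a : ℕ} (ha : 1 ≤ a) (x : ℕ) :
    ((a : ℝ) + 2 * x) * wt a x = a * ((a + 2 * x).choose x : ℝ) := by
  unfold wt
  rw [q_formula (i := x) ha (by omega)]
  rcases Nat.eq_zero_or_pos x with rfl | hpos
  · have h1 : (a + 2 * 0 - 1).choose (0 + a) = 0 := Nat.choose_eq_zero_of_lt (by omega)
    rw [h1]; simp
  · obtain ⟨y, rfl⟩ : ∃ y, x = y + 1 := ⟨x - 1, by omega⟩
    have e1 : a + 2 * (y + 1) - 1 = a + 2 * y + 1 := by omega
    have e2 : a + 2 * (y + 1) = a + 2 * y + 1 + 1 := by omega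
    rw [e1]
    have h1 : (a + 2 * y + 1).choose (y + 1 + a) = (a + 2 * y + 1).choose y :=
      Nat.choose_symm_of_eq_add (by omega)
    rw [h1, e2, Nat.choose_succ_succ (a + 2 * y + 1) y]
    have h2 := Nat.choose_succ_right_eq (a + 2 * y + 1) y
    have h3 : a + 2 * y + 1 - y = a + y + 1 := by omega
    rw [h3] at h2
    have h2' : ((a + 2 * y + 1).choose (y + 1) : ℝ) * ((y : ℝ) + 1) =
        ((a + 2 * y + 1).choose y : ℝ) * ((a : ℝ) + y + 1) := by exact_mod_cast h2
    simp only [Nat.succ_eq_add_one]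
    push_cast
    linear_combination 2 * h2'

theorem wt_zero {a : ℕ} (ha : 1 ≤ a) : wt a 0 = 1 := by
  have h := wt_formula_NumQ ha 0
  have ha' : (a : ℝ) ≠ 0 := by
    have : (0 : ℝ) < a := by exact_mod_cast ha
    exact this.ne'
  simp only [Nat.cast_zero, mul_zero, add_zero, Nat.choose_zero_right, Nat.cast_one, mul_one] at h
  exact mul_left_cancel₀ ha' (by rw [h, mul_one])

theorem wt_pos {a : ℕ} (ha : 1 ≤ a) (x : ℕ) : 0 < wt a x := by
  have h := wt_formula_NumQ ha x
  have ha' : (0 : ℝ) < a := by exact_mod_cast ha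
  have h1 : (0 : ℝ) < ((a + 2 * x).choose x : ℝ) := by
    exact_mod_cast Nat.choose_pos (by omega)
  have h2 : (0 : ℝ) < (a : ℝ) + 2 * x := by positivity
  have h3 : 0 < ((a : ℝ) + 2 * x) * wt a x := by rw [h]; positivity
  exact (pos_iff_pos_of_mul_pos h3).1 h2

theorem wt_ratio {a : ℕ} (ha : 1 ≤ a) (x : ℕ) :
    wt a (x + 1) * ((x + 1) * (a + x + 1)) = wt a x * ((a + 2 * x + 1) * (a + 2 * x)) := by
  have h0 := wt_formula_NumQ ha x
  have h1 := wt_formula_NumQ ha (x + 1)
  have e2 : a + 2 * (x + 1) = a + 2 * x + 1 + 1 := by omega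
  rw [e2] at h1
  have h2 := Nat.add_one_mul_choose_eq (a + 2 * x + 1) x
  have h3 := Nat.choose_mul_succ_eq (a + 2 * x) x
  have h4 : a + 2 * x + 1 - x = a + x + 1 := by omega
  rw [h4] at h3
  have h2' : ((a : ℝ) + 2 * x + 1 + 1) * ((a + 2 * x + 1).choose x : ℝ) =
      ((a + 2 * x + 1 + 1).choose (x + 1) : ℝ) * ((x : ℝ) + 1) := by exact_mod_cast h2
  have h3' : ((a + 2 * x).choose x : ℝ) * ((a : ℝ) + 2 * x + 1) =
      ((a + 2 * x + 1).choose x : ℝ) * ((a : ℝ) + x + 1) := by exact_mod_cast h3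
  push_cast at h1
  have hne : ((a : ℝ) + 2 * x + 1 + 1) ≠ 0 := by positivity
  apply mul_left_cancel₀ hne
  linear_combination (((x : ℝ) + 1) * (a + x + 1)) * h1 -
    ((a : ℝ) + 2 * x + 1 + 1) * (a + 2 * x + 1) * h0 -
    (a : ℝ) * (a + x + 1) * h2' - (a : ℝ) * ((a : ℝ) + 2 * x + 1 + 1) * h3'

theorem wt_grow {n a : ℕ} (ha : 1 ≤ a) (hn : n * n + 6 * n ≤ 3 * (a * a) + 4) {x : ℕ} (hx : a + 2 * x + 2 ≤ n) :
    6 * wt a x ≤ wt a (x + 1) := by
  have h := wt_ratio ha x
  have h1 := wt_pos ha x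
  have hN : (a + 2 * x + 2) * (a + 2 * x + 2) + 6 * (a + 2 * x + 2) ≤ 3 * (a * a) + 4 :=
    le_trans (Nat.add_le_add (Nat.mul_le_mul hx hx) (Nat.mul_le_mul_left _ hx)) hn
  have hN' : ((a : ℝ) + 2 * x + 2) * (a + 2 * x + 2) + 6 * (a + 2 * x + 2) ≤ 3 * (a * a) + 4 := by
    exact_mod_cast hN
  have h2 : (6 : ℝ) * (((x : ℝ) + 1) * (a + x + 1)) ≤ (a + 2 * x + 1) * (a + 2 * x) := by
    nlinarith [hN']
  have h3 : (0 : ℝ) < ((x : ℝ) + 1) * (a + x + 1) := by positivity
  have h4 : (6 * wt a x) * (((x : ℝ) + 1) * (a + x + 1)) ≤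
      wt a (x + 1) * (((x : ℝ) + 1) * (a + x + 1)) := by
    rw [h]
    nlinarith [mul_le_mul_of_nonneg_left h2 h1.le]
  exact le_of_mul_le_mul_right h4 h3

end Pool.Agent.ProfDK
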