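import Pool.Agent.Lib_MP_05ae4a_dk.Defs

/-! # Piece D4: the walk functional `Bw`, step by step

`Bw_succ`: split `A ⊆ range (l+1)` by `l ∈ A` as in `Lib_MP_05ae4a_co/NRec.lean` (`N_succ`); the height at time `l` is `y - 1` (step up) or `y + 1`
(step down); the statuses of time `l + 1` are those of time `l`, and if `l = a + 1 + 2r` (then `R a l = r`, `R a (l+1) = r+1`) also `r`, iff the height at
time `l` is positive (`upd`).  If `l` is not of this form then `R a (l+1) = R a l`.
`X_eq_Bw`: both are a sum over `A ∈ (range n).powerset`. -/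

namespace Pool.Agent.ProfDK
open Finset Pool.Agent.ProfSR

private theorem ht_insert_WalkRec (x : ℤ) {l : ℕ} {A : Finset ℕ} (i : ℕ) (hi : i ≤ l) :
    ht 0 x (insert l A) i = ht 0 x A i := by
  have h1 : insert l A ∩ Ico 0 i = A ∩ Ico 0 i := by
    ext j
    simp only [mem_inter, mem_Ico, mem_insert]
    constructor
    · rintro ⟨h1 | h1, h2, h3⟩
      · omega
      · exact ⟨h1, h2, h3⟩
    · rintro ⟨h1, h2, h3⟩
      exact ⟨Or.inr h1, h2, h3⟩
  rw [ht, ht, h1]

private theorem st_insert_WalkRec (a : ℕ) (x : ℤ) (l : ℕ) (A : Finset ℕ) :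
    st a l x (insert l A) = st a l x A := by
  unfold st
  refine Finset.filter_congr fun r hr => ?_
  have h1 : r < R a l := mem_range.1 hr
  unfold R at h1
  rw [ht_insert_WalkRec x (l := l) (A := A) _ (by omega)]

open Classical in
private theorem st_succ_WalkRec (a : ℕ) (x : ℤ) (l : ℕ) (A : Finset ℕ) :
    st a (l + 1) x A =
      if (∃ r, l = a + 1 + 2 * r) ∧ 0 < ht 0 x A l then insert (R a l) (st a l x A) else st a l x A := by
  by_cases hr : ∃ r, l = a + 1 + 2 * r
  · obtain ⟨r, hr⟩ := hr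
    have h1 : R a l = r := by unfold R; omega
    have h2 : R a (l + 1) = r + 1 := by unfold R; omega
    have h3 : a + 1 + 2 * r = l := hr.symm
    unfold st
    rw [h2, h1, range_add_one, filter_insert, h3]
    by_cases h4 : 0 < ht 0 x A l
    · rw [if_pos h4, if_pos ⟨⟨r, hr⟩, h4⟩]
    · rw [if_neg h4, if_neg (fun h => h4 h.2)]
  · rw [if_neg (fun h => hr h.1)]
    have h1 : R a (l + 1) = R a l := by
      unfold R
      by_contra hne
      apply hr
      exact ⟨(l - a - 1) / 2, by omega⟩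
    unfold st
    rw [h1]

private theorem upd_st_WalkRec (a : ℕ) (x : ℤ) (l : ℕ) (A : Finset ℕ) (z : ℤ) (hz : ht 0 x A l = z)
    (Φ : Finset ℕ → ℝ) : Φ (st a (l + 1) x A) = upd a l z Φ (st a l x A) := by
  classical
  rw [st_succ_WalkRec, hz]
  unfold upd
  split_ifs <;> rfl

theorem Bw_zero (a : ℕ) (x y : ℤ) (Φ : Finset ℕ → ℝ) : Bw a x 0 y Φ = if y = x then Φ ∅ else 0 := by
  unfold Bw
  rw [range_zero, powerset_empty, sum_singleton, ht_self]
  have h1 : st a 0 x ∅ = ∅ := by
    unfold st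
    have h2 : R a 0 = 0 := by unfold R; omega
    rw [h2]
    rfl
  rw [h1]
  by_cases h : y = x
  · rw [if_pos h, if_pos h.symm]
  · rw [if_neg h, if_neg (fun h' => h h'.symm)]

theorem Bw_succ (a : ℕ) (x : ℤ) (l : ℕ) (y : ℤ) (Φ : Finset ℕ → ℝ) :
    Bw a x (l + 1) y Φ = Bw a x l (y - 1) (upd a l (y - 1) Φ) + Bw a x l (y + 1) (upd a l (y + 1) Φ) := by
  have hl : l ∉ range l := by simp
  have hnot : ∀ A ∈ (range l).powerset, l ∉ A := fun A hA h =>
    hl (mem_powerset.1 hA h)
  unfold Bw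
  rw [range_add_one, Finset.sum_powerset_insert hl, add_comm]
  congr 1
  · refine Finset.sum_congr rfl fun A hA => ?_
    have h2 : ht 0 x (insert l A) (l + 1) = ht 0 x A l + 1 := by
      rw [ht_succ_mem (Nat.zero_le l) (mem_insert_self l A), ht_insert_WalkRec x l le_rfl]
    rw [h2]
    by_cases h3 : ht 0 x A l = y - 1
    · rw [if_pos (by rw [h3]; ring), if_pos h3,
        upd_st_WalkRec a x l (insert l A) (y - 1) (by rw [ht_insert_WalkRec x l le_rfl, h3]) Φ,
        st_insert_WalkRec]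
    · rw [if_neg (fun h => h3 (by linarith)), if_neg h3]
  · refine Finset.sum_congr rfl fun A hA => ?_
    have h2 : ht 0 x A (l + 1) = ht 0 x A l - 1 := ht_succ_not (hnot A hA)
    rw [h2]
    by_cases h3 : ht 0 x A l = y + 1
    · rw [if_pos (by rw [h3]; ring), if_pos h3, upd_st_WalkRec a x l A (y + 1) h3 Φ]
    · rw [if_neg (fun h => h3 (by linarith)), if_neg h3]

theorem X_eq_Bw (n a : ℕ) (x : ℤ) (J : Set (Finset ℕ)) (h : ℤ) : (X n a x J h : ℝ) = Bw a x n h (ind J) := by
  classical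
  unfold X Bw ind
  rw [Finset.card_filter]
  push_cast
  refine Finset.sum_congr rfl fun A _ => ?_
  by_cases h1 : ht 0 x A n = h
  · by_cases h2 : st a n x A ∈ J
    · rw [if_pos ⟨h1, h2⟩, if_pos h1, if_pos h2]
    · rw [if_neg (fun hh => h2 hh.2), if_pos h1, if_neg h2]
  · rw [if_neg (fun hh => h1 hh.1), if_neg h1]

end Pool.Agent.ProfDK
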