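import Pool.Agent.Lib_MP_05ae4a_dk.Model
import Pool.Agent.Lib_MP_05ae4a_dk.NumQ
import Pool.Agent.Lib_MP_05ae4a_dk.WalkRec

/-! # Piece D5: walks by their zeros

`Xg_last`, `Yg_last`: the last block: from `EE_last` (exchange the sums; the first zero `x = m+1` gives the last term, `EE_self`).

`Bw_minus`: start `-a`.  By induction on `l`, for all `h : ℕ` and all `Φ` simultaneously:
 (N) `Bw a (-a) l (-h) Φ = q a l h * Φ ∅ + ∑_{g : a+2g ≤ l} q 0 (l-a-2g) h * Xg a g Φ`
 (P) `Bw a (-a) l h Φ = ∑_{g : a+2g ≤ l} q 0 (l-a-2g) h * Xg a g (fun σ => Φ (σ ∪ Ico g (R a l)))`.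
(For `h = 0` both are the same: `q 0 m 0 = 0` for `m ≥ 1`, `q a l 0 = 0`.)  Step `l → l+1` by `Bw_succ`, `q` recursion:
 height `-(h+1)`: the two terms are `-(h+2)` and `-h`, both `≤ 0`, so `upd` does nothing; `q a (l+1) (h+1) = q a l h + q a l (h+2)`; a new zero
 (`a+2g = l+1`) has coefficient `q 0 0 (h+1) = 0`.
 height `0`: terms `-1` and `+1`.  If `l + 1 = a + 2(m+1)`: `q a l 1 = wt a (m+1)`, `q 0 (l-a-2g) 1 = q 0 (2(m-g)+1) 1 = kap (m+1-g)`, `R a l = m`,
 `upd` inserts `m`, `insert m (σ ∪ Ico g m) = σ ∪ Ico g (m+1)`: this is `Xg_last`.  If `l + 1 = a`: `q a (a-1) 1 = wt a 0`, `Xg a 0 Φ = wt a 0 * Φ ∅`.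
 Otherwise all coefficients vanish (`q_parity`, `q_far`).
 height `h+1`: terms `h` and `h+2`; if `l = a+1+2m` then `h` must be `≥ 1` (for `h = 0` the value `Bw a (-a) l 0` is `0` by parity) and `upd` inserts
 `m = R a l`, `R a (l+1) = m+1`; otherwise `R a (l+1) = R a l`, except that for `l = a+2m` with `l+1`: `R a (l+1) = m = R a l` as well.
`Bw_plus`: start `+a`, the same with `Yg` (statuses before the first zero are positive):
 (N) `Bw a a l (-h) Φ = ∑_{g : a+2g ≤ l} q 0 (l-a-2g) h * Yg a g Φ`
 (P) `Bw a a l h Φ = q a l h * Φ (range (R a l)) + ∑_{g : a+2g ≤ l} q 0 (l-a-2g) h * Yg a g (fun σ => Φ (σ ∪ Ico g (R a l)))`.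
 (for `h = 0`: `q a l 0 = 0`; `a ≥ 1`).
`X_minus`, `X_plus`: `l = n`, `X_eq_Bw`; `a + 2g ≤ n ↔ g < R a n + 1` for `a ≤ n`; `ind J ∅ = 0`. -/

namespace Pool.Agent.ProfDK
open Finset Pool.Agent.ProfSR

theorem sum_exch_interface (m : ℕ) (f : ℕ → ℕ → ℝ) :
    ∑ x ∈ range (m + 1), ∑ g ∈ Icc x m, f x g = ∑ g ∈ range (m + 1), ∑ x ∈ range (g + 1), f x g := by
  apply Finset.sum_comm'
  intro x y
  simp only [mem_range, mem_Icc]
  omega

theorem Xg_last (a m : ℕ) (Φ : Finset ℕ → ℝ) :
    Xg a (m + 1) Φ = wt a (m + 1) * Φ ∅ +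
      ∑ g ∈ range (m + 1), kap (m + 1 - g) * (Xg a g Φ + Xg a g (fun σ => Φ (σ ∪ Ico g (m + 1)))) := by
  have h1 : ∑ x ∈ range (m + 1), wt a x * EE x (m + 1) Φ =
      ∑ x ∈ range (m + 1), ∑ g ∈ Icc x m,
        kap (m + 1 - g) * (wt a x * EE x g Φ + wt a x * EE x g (fun σ => Φ (σ ∪ Ico g (m + 1)))) := by
    apply sum_congr rfl
    intro x hx
    rw [mem_range] at hx
    rw [EE_last (by omega), mul_sum]
    apply sum_congr rfl
    intro g _
    ring
  rw [Xg, sum_range_succ, EE_self, h1, sum_exch_interface m (fun x g =>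
    kap (m + 1 - g) * (wt a x * EE x g Φ + wt a x * EE x g (fun σ => Φ (σ ∪ Ico g (m + 1))))), add_comm]
  congr 1
  apply sum_congr rfl
  intro g _
  rw [Xg, Xg, ← sum_add_distrib, mul_sum]

theorem Yg_last (a m : ℕ) (Φ : Finset ℕ → ℝ) :
    Yg a (m + 1) Φ = wt a (m + 1) * Φ (range (m + 1)) +
      ∑ g ∈ range (m + 1), kap (m + 1 - g) * (Yg a g Φ + Yg a g (fun σ => Φ (σ ∪ Ico g (m + 1)))) := by
  have h1 : ∑ x ∈ range (m + 1), wt a x * EE x (m + 1) (fun σ => Φ (range x ∪ σ)) =
      ∑ x ∈ range (m + 1), ∑ g ∈ Icc x m,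
        kap (m + 1 - g) * (wt a x * EE x g (fun σ => Φ (range x ∪ σ)) +
          wt a x * EE x g (fun σ => Φ (range x ∪ σ ∪ Ico g (m + 1)))) := by
    apply sum_congr rfl
    intro x hx
    rw [mem_range] at hx
    rw [EE_last (by omega), mul_sum]
    apply sum_congr rfl
    intro g _
    simp only [union_assoc]
    ring
  rw [Yg, sum_range_succ, EE_self, union_empty, h1, sum_exch_interface m (fun x g =>
    kap (m + 1 - g) * (wt a x * EE x g (fun σ => Φ (range x ∪ σ)) +
      wt a x * EE x g (fun σ => Φ (range x ∪ σ ∪ Ico g (m + 1))))), add_comm]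
  congr 1
  apply sum_congr rfl
  intro g _
  rw [Yg, Yg, ← sum_add_distrib, mul_sum]

/-- the indices of the possible zeros before time `l` -/
def Fi_interface (a l : ℕ) : Finset ℕ := (range (l + 1)).filter (fun g => a + 2 * g ≤ l)

theorem Fi_of_le_interface {a l : ℕ} (h : a ≤ l) : Fi_interface a l = range (R a l + 1) := by
  ext g
  simp only [Fi_interface, mem_filter, mem_range, R]
  omega

theorem Fi_of_lt_interface {a l : ℕ} (h : l < a) : Fi_interface a l = ∅ := by
  ext g
  simp only [Fi_interface, mem_filter, mem_range, notMem_empty, iff_false]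
  omega

theorem upd_nonpos_interface (a l : ℕ) {z : ℤ} (hz : z ≤ 0) (Φ : Finset ℕ → ℝ) : upd a l z Φ = Φ := by
  funext σ
  rw [upd, if_neg (by intro h; omega)]

theorem upd_off_interface {a l : ℕ} (hl : ¬ ∃ r, l = a + 1 + 2 * r) (z : ℤ) (Φ : Finset ℕ → ℝ) : upd a l z Φ = Φ := by
  funext σ
  rw [upd, if_neg (by intro h; exact hl h.1)]

theorem upd_on_interface {a l m : ℕ} (hl : l = a + 1 + 2 * m) {z : ℤ} (hz : 0 < z) (Φ : Finset ℕ → ℝ) :
    upd a l z Φ = fun σ => Φ (insert m σ) := by
  funext σ
  have hR : R a l = m := by rw [R]; omega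
  rw [upd, if_pos ⟨⟨m, hl⟩, hz⟩, hR]

theorem insert_union_interface (σ : Finset ℕ) {g m : ℕ} (h : g ≤ m) :
    insert m (σ ∪ Ico g m) = σ ∪ Ico g (m + 1) := by
  ext j
  simp only [mem_insert, mem_union, mem_Ico]
  constructor
  · rintro (h1 | h1 | h1)
    · right; omega
    · left; exact h1
    · right; omega
  · rintro (h1 | h1)
    · right; left; exact h1
    · by_cases hj : j = m
      · left; exact hj
      · right; right; omega

/-- the common induction -/
theorem Bw_gen_interface {a : ℕ} (ha : 1 ≤ a) (x : ℤ) (cN cP : ℝ) (Z : ℕ → (Finset ℕ → ℝ) → ℝ)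
    (hb1 : ∀ (h : ℕ) (Φ : Finset ℕ → ℝ), Bw a x 0 (-(h : ℤ)) Φ = cN * (q a 0 h : ℝ) * Φ ∅)
    (hb2 : ∀ (h : ℕ) (Φ : Finset ℕ → ℝ), Bw a x 0 (h : ℤ) Φ = cP * (q a 0 h : ℝ) * Φ ∅)
    (hZ0 : ∀ Φ : Finset ℕ → ℝ, Z 0 Φ = wt a 0 * (cN * Φ ∅ + cP * Φ ∅))
    (hZ : ∀ (m : ℕ) (Φ : Finset ℕ → ℝ), Z (m + 1) Φ = wt a (m + 1) * (cN * Φ ∅ + cP * Φ (range (m + 1))) +
      ∑ g ∈ range (m + 1), kap (m + 1 - g) * (Z g Φ + Z g (fun σ => Φ (σ ∪ Ico g (m + 1))))) (l : ℕ) :
    ∀ (h : ℕ) (Φ : Finset ℕ → ℝ),
    Bw a x l (-(h : ℤ)) Φ = cN * (q a l h : ℝ) * Φ ∅ +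
      ∑ g ∈ Fi_interface a l, (q 0 (l - a - 2 * g) h : ℝ) * Z g Φ ∧
    Bw a x l h Φ = cP * (q a l h : ℝ) * Φ (range (R a l)) +
      ∑ g ∈ Fi_interface a l, (q 0 (l - a - 2 * g) h : ℝ) * Z g (fun σ => Φ (σ ∪ Ico g (R a l))) := by
  induction l with
  | zero =>
    intro h Φ
    rw [Fi_of_lt_interface (by omega : 0 < a), sum_empty, sum_empty, add_zero, add_zero, hb1, hb2]
    have hR : R a 0 = 0 := by rw [R]; omega
    rw [hR, range_zero]
    exact ⟨rfl, rfl⟩
  | succ l ih =>
    -- the height zero
    have key0 : ∀ Φ : Finset ℕ → ℝ, Bw a x (l + 1) 0 Φ =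
        ∑ g ∈ Fi_interface a (l + 1), (q 0 (l + 1 - a - 2 * g) 0 : ℝ) * Z g Φ := by
      intro Φ
      have e1 : Bw a x l (0 - 1) (upd a l (0 - 1) Φ) = cN * (q a l 1 : ℝ) * Φ ∅ +
          ∑ g ∈ Fi_interface a l, (q 0 (l - a - 2 * g) 1 : ℝ) * Z g Φ := by
        have := (ih 1 Φ).1
        rw [upd_nonpos_interface a l (by norm_num)]
        simpa using this
      have e2 : Bw a x l (0 + 1) (upd a l (0 + 1) Φ) = cP * (q a l 1 : ℝ) * (upd a l 1 Φ) (range (R a l)) +
          ∑ g ∈ Fi_interface a l, (q 0 (l - a - 2 * g) 1 : ℝ) *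
            Z g (fun σ => (upd a l 1 Φ) (σ ∪ Ico g (R a l))) := by
        have := (ih 1 (upd a l 1 Φ)).2
        simpa using this
      rw [Bw_succ, e1, e2]
      rcases lt_trichotomy (l + 1) a with hla | hla | hla
      · -- too early
        rw [Fi_of_lt_interface (by omega : l < a), Fi_of_lt_interface (by omega : l + 1 < a), q_far (by omega)]
        simp
      · -- first possible zero
        have hq : (q a l 1 : ℝ) = wt a 0 := by
          rw [wt]
          congr 2
          omega
        have hR : R a l = 0 := by rw [R]; omega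
        have hR1 : R a (l + 1) = 0 := by rw [R]; omega
        rw [Fi_of_lt_interface (by omega : l < a), Fi_of_le_interface (by omega : a ≤ l + 1), hR1, hq, hR,
          upd_off_interface (by rintro ⟨r, hr⟩; omega), sum_empty, sum_empty, range_zero]
        simp only [zero_add, range_one, sum_singleton, mul_zero, Nat.sub_zero]
        have hq2 : l + 1 - a = 0 := by omega
        rw [hq2, hZ0]
        simp only [q, if_true, Nat.cast_one]
        ring
      · rcases Nat.even_or_odd (l + 1 - a) with hpar | hpar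
        · -- a new zero
          obtain ⟨m, hm⟩ : ∃ m, l = a + 1 + 2 * m := by
            obtain ⟨k, hk⟩ := hpar
            exact ⟨k - 1, by omega⟩
          have hR : R a l = m := by rw [R]; omega
          have hR1 : R a (l + 1) = m + 1 := by rw [R]; omega
          have hq : (q a l 1 : ℝ) = wt a (m + 1) := by
            rw [wt]
            congr 2
            omega
          rw [Fi_of_le_interface (by omega : a ≤ l), Fi_of_le_interface (by omega : a ≤ l + 1), hR, hR1, hq,
            upd_on_interface hm (by norm_num)]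
          have hlast : ∑ g ∈ range (m + 1 + 1), (q 0 (l + 1 - a - 2 * g) 0 : ℝ) * Z g Φ = Z (m + 1) Φ := by
            rw [sum_range_succ, sum_eq_zero]
            · have : l + 1 - a - 2 * (m + 1) = 0 := by omega
              rw [this]
              simp [q]
            · intro g hg
              rw [mem_range] at hg
              rw [q_zero_right (by omega)]
              simp
          rw [hlast, hZ]
          have hins : insert m (range m) = range (m + 1) := by
            rw [range_add_one]
          beta_reduce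
          rw [hins]
          have hs : ∑ g ∈ range (m + 1), kap (m + 1 - g) * (Z g Φ + Z g (fun σ => Φ (σ ∪ Ico g (m + 1)))) =
              ∑ g ∈ range (m + 1), (q 0 (l - a - 2 * g) 1 : ℝ) * Z g Φ +
              ∑ g ∈ range (m + 1), (q 0 (l - a - 2 * g) 1 : ℝ) * Z g (fun σ => Φ (insert m (σ ∪ Ico g m))) := by
            rw [← sum_add_distrib]
            apply sum_congr rfl
            intro g hg
            rw [mem_range] at hg
            have h1 : l - a - 2 * g = 2 * (m - g) + 1 := by omega
            have h2 : m + 1 - g = m - g + 1 := by omega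
            have h3 : (fun σ => Φ (insert m (σ ∪ Ico g m))) = (fun σ => Φ (σ ∪ Ico g (m + 1))) := by
              funext σ
              rw [insert_union_interface σ (by omega)]
            rw [h1, q_exc, h2, h3]
            ring
          rw [hs]
          ring
        · -- wrong parity
          have hnp : ¬ Even (l + 1 - a) := Nat.not_even_iff_odd.mpr hpar
          have h1 : q a l 1 = 0 := by
            apply q_parity
            intro he
            apply hnp
            rw [Nat.even_iff] at he ⊢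
            omega
          have h2 : ∀ g ∈ Fi_interface a l, q 0 (l - a - 2 * g) 1 = 0 := by
            intro g hg
            simp only [Fi_interface, mem_filter, mem_range] at hg
            apply q_parity
            intro he
            apply hnp
            rw [Nat.even_iff] at he ⊢
            omega
          have h3 : ∀ g ∈ Fi_interface a (l + 1), q 0 (l + 1 - a - 2 * g) 0 = 0 := by
            intro g hg
            simp only [Fi_interface, mem_filter, mem_range] at hg
            apply q_zero_right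
            obtain ⟨k, hk⟩ := hpar
            omega
          rw [h1, sum_eq_zero (s := Fi_interface a (l + 1)), sum_eq_zero (s := Fi_interface a l),
            sum_eq_zero (s := Fi_interface a l)]
          · simp
          · intro g hg
            rw [h2 g hg]
            simp
          · intro g hg
            rw [h2 g hg]
            simp
          · intro g hg
            rw [h3 g hg]
            simp
    -- old indices
    have hold : ∀ (h : ℕ) (f : ℕ → ℝ),
        ∑ g ∈ Fi_interface a (l + 1), (q 0 (l + 1 - a - 2 * g) (h + 1) : ℝ) * f g =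
        ∑ g ∈ Fi_interface a l, (q 0 (l - a - 2 * g) h : ℝ) * f g +
          ∑ g ∈ Fi_interface a l, (q 0 (l - a - 2 * g) (h + 2) : ℝ) * f g := by
      intro h f
      have hsub : Fi_interface a l ⊆ Fi_interface a (l + 1) := by
        intro g hg
        simp only [Fi_interface, mem_filter, mem_range] at hg ⊢
        omega
      rw [← sum_subset hsub, ← sum_add_distrib]
      · apply sum_congr rfl
        intro g hg
        simp only [Fi_interface, mem_filter, mem_range] at hg
        have h1 : l + 1 - a - 2 * g = (l - a - 2 * g) + 1 := by omega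
        rw [h1, q]
        push_cast
        ring
      · intro g hg hg'
        simp only [Fi_interface, mem_filter, mem_range] at hg hg'
        have h1 : l + 1 - a - 2 * g = 0 := by omega
        rw [h1, q, if_neg (by omega)]
        simp
    intro h Φ
    rcases h with _ | h
    · have hq0 : q a (l + 1) 0 = 0 := q_zero_right (by omega)
      have hs : ∑ g ∈ Fi_interface a (l + 1), (q 0 (l + 1 - a - 2 * g) 0 : ℝ) *
          Z g (fun σ => Φ (σ ∪ Ico g (R a (l + 1)))) =
          ∑ g ∈ Fi_interface a (l + 1), (q 0 (l + 1 - a - 2 * g) 0 : ℝ) * Z g Φ := by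
        apply sum_congr rfl
        intro g hg
        simp only [Fi_interface, mem_filter, mem_range] at hg
        by_cases hz : l + 1 - a - 2 * g = 0
        · have hR : R a (l + 1) = g := by rw [R]; omega
          rw [hR]
          simp
        · rw [q_zero_right (by omega)]
          simp
      rw [hs, hq0]
      have := key0 Φ
      constructor
      · simpa using this
      · simpa using this
    · constructor
      · have e0 : (-((h + 1 : ℕ) : ℤ)) - 1 = -((h + 2 : ℕ) : ℤ) := by push_cast; ring
        have e0' : (-((h + 1 : ℕ) : ℤ)) + 1 = -((h : ℕ) : ℤ) := by push_cast; ring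
        rw [Bw_succ, e0, e0', upd_nonpos_interface a l (by omega), upd_nonpos_interface a l (by omega),
          (ih (h + 2) Φ).1, (ih h Φ).1, hold, q]
        push_cast
        ring
      · have e0 : (((h + 1 : ℕ) : ℤ)) - 1 = ((h : ℕ) : ℤ) := by push_cast; ring
        have e0' : (((h + 1 : ℕ) : ℤ)) + 1 = ((h + 2 : ℕ) : ℤ) := by push_cast; ring
        rw [Bw_succ, e0, e0', (ih (h + 2) _).2, (ih h _).2, hold, q]
        by_cases hon : ∃ m, l = a + 1 + 2 * m
        · obtain ⟨m, hm⟩ := hon
          have hR : R a l = m := by rw [R]; omega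
          have hR1 : R a (l + 1) = m + 1 := by rw [R]; omega
          have hins : insert m (range m) = range (m + 1) := by
            rw [range_add_one]
          have hz : ∀ g ∈ Fi_interface a l, Z g (fun σ => (fun σ => Φ (insert m σ)) (σ ∪ Ico g m)) =
              Z g (fun σ => Φ (σ ∪ Ico g (m + 1))) := by
            intro g hg
            simp only [Fi_interface, mem_filter, mem_range] at hg
            congr 1
            funext σ
            simp only
            rw [insert_union_interface σ (by omega)]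
          rw [hR, hR1, upd_on_interface hm (by omega : (0 : ℤ) < ((h + 2 : ℕ) : ℤ))]
          have hs2 : ∑ g ∈ Fi_interface a l, (q 0 (l - a - 2 * g) (h + 2) : ℝ) *
              Z g (fun σ => (fun σ => Φ (insert m σ)) (σ ∪ Ico g m)) =
              ∑ g ∈ Fi_interface a l, (q 0 (l - a - 2 * g) (h + 2) : ℝ) *
              Z g (fun σ => Φ (σ ∪ Ico g (m + 1))) := by
            apply sum_congr rfl
            intro g hg
            rw [hz g hg]
          rw [hs2]
          simp only [hins]
          rcases Nat.eq_zero_or_pos h with h0 | h0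
          · subst h0
            have hq0 : q a l 0 = 0 := q_zero_right (by omega)
            have hs1 : ∀ f : ℕ → ℝ, ∑ g ∈ Fi_interface a l, (q 0 (l - a - 2 * g) 0 : ℝ) * f g = 0 := by
              intro f
              apply sum_eq_zero
              intro g hg
              simp only [Fi_interface, mem_filter, mem_range] at hg
              rw [q_zero_right (by omega)]
              simp
            rw [hs1, hs1, hq0]
            push_cast
            ring
          · rw [upd_on_interface hm (by omega : (0 : ℤ) < ((h : ℕ) : ℤ))]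
            have hs1 : ∑ g ∈ Fi_interface a l, (q 0 (l - a - 2 * g) h : ℝ) *
                Z g (fun σ => (fun σ => Φ (insert m σ)) (σ ∪ Ico g m)) =
                ∑ g ∈ Fi_interface a l, (q 0 (l - a - 2 * g) h : ℝ) *
                Z g (fun σ => Φ (σ ∪ Ico g (m + 1))) := by
              apply sum_congr rfl
              intro g hg
              rw [hz g hg]
            rw [hs1]
            simp only [hins]
            push_cast
            ring
        · have hR1 : R a (l + 1) = R a l := by
            rw [R, R]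
            by_contra hne
            apply hon
            exact ⟨(l - a) / 2, by omega⟩
          rw [hR1, upd_off_interface hon, upd_off_interface hon]
          push_cast
          ring

theorem Bw_minus {a : ℕ} (ha : 1 ≤ a) (l h : ℕ) (Φ : Finset ℕ → ℝ) :
    Bw a (-(a : ℤ)) l (-(h : ℤ)) Φ = q a l h * Φ ∅ +
      ∑ g ∈ (range (l + 1)).filter (fun g => a + 2 * g ≤ l), (q 0 (l - a - 2 * g) h : ℝ) * Xg a g Φ ∧
    Bw a (-(a : ℤ)) l h Φ =
      ∑ g ∈ (range (l + 1)).filter (fun g => a + 2 * g ≤ l),
        (q 0 (l - a - 2 * g) h : ℝ) * Xg a g (fun σ => Φ (σ ∪ Ico g (R a l))) := by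
  have := Bw_gen_interface ha (-(a : ℤ)) 1 0 (Xg a) ?_ ?_ ?_ ?_ l h Φ
  · simpa only [Fi_interface, one_mul, zero_mul, zero_add] using this
  · intro h Φ
    rw [Bw_zero, q]
    by_cases hh : h = a
    · subst hh
      simp
    · rw [if_neg (by omega), if_neg hh]
      simp
  · intro h Φ
    rw [Bw_zero, if_neg (by omega)]
    simp
  · intro Φ
    rw [Xg]
    simp [EE_self]
  · intro m Φ
    rw [Xg_last]
    ring

theorem Bw_plus {a : ℕ} (ha : 1 ≤ a) (l h : ℕ) (Φ : Finset ℕ → ℝ) :
    Bw a a l (-(h : ℤ)) Φ =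
      ∑ g ∈ (range (l + 1)).filter (fun g => a + 2 * g ≤ l), (q 0 (l - a - 2 * g) h : ℝ) * Yg a g Φ ∧
    Bw a a l h Φ = q a l h * Φ (range (R a l)) +
      ∑ g ∈ (range (l + 1)).filter (fun g => a + 2 * g ≤ l),
        (q 0 (l - a - 2 * g) h : ℝ) * Yg a g (fun σ => Φ (σ ∪ Ico g (R a l))) := by
  have := Bw_gen_interface ha (a : ℤ) 0 1 (Yg a) ?_ ?_ ?_ ?_ l h Φ
  · simpa only [Fi_interface, one_mul, zero_mul, zero_add] using this
  · intro h Φ
    rw [Bw_zero, if_neg (by omega)]
    simp
  · intro h Φ
    rw [Bw_zero, q]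
    by_cases hh : h = a
    · subst hh
      simp
    · rw [if_neg (by omega), if_neg hh]
      simp
  · intro Φ
    rw [Yg]
    simp [EE_self]
  · intro m Φ
    rw [Yg_last]
    ring

theorem X_minus {n a : ℕ} (ha : 1 ≤ a) (han : a ≤ n) {J : Set (Finset ℕ)} (hJ : (∅ : Finset ℕ) ∉ J) (e : ℕ) :
    (X n a (-(a : ℤ)) J (-(e : ℤ)) : ℝ) =
      ∑ g ∈ range (R a n + 1), (q 0 (n - a - 2 * g) e : ℝ) * Xg a g (ind J) := by
  have h1 : ind J ∅ = 0 := by
    rw [ind, if_neg hJ]
  have h2 := (Bw_minus ha n e (ind J)).1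
  rw [X_eq_Bw, h2, h1, mul_zero, zero_add]
  have h3 := Fi_of_le_interface han
  rw [Fi_interface] at h3
  rw [h3]

theorem X_plus {n a : ℕ} (ha : 1 ≤ a) (han : a ≤ n) (J : Set (Finset ℕ)) (e : ℕ) :
    (X n a a J (-(e : ℤ)) : ℝ) =
      ∑ g ∈ range (R a n + 1), (q 0 (n - a - 2 * g) e : ℝ) * Yg a g (ind J) := by
  have h2 := (Bw_plus ha n e (ind J)).1
  rw [X_eq_Bw, h2]
  have h3 := Fi_of_le_interface han
  rw [Fi_interface] at h3
  rw [h3]

end Pool.Agent.ProfDK
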