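import Pool.Agent.Lib_MP_05ae4a_dk.NumQ

/-! # Piece D3b: total positivity of `q 0`

`q_two`: from `q_formula` (via `q_shift`), or: `m q 0 m h = h C(m, (m-h)/2)`; both sides vanish for the wrong parity, and for `h > m`.
`q_tp2`: `m = m' + 2d`, induction on `d`.  If `h' > m'` then `q 0 m' h' = 0`.  Otherwise `(m+2)^2 - h^2 > 0`, `(m+2)^2 - h'^2 > 0` for all `m ≥ m'` and
`q 0 (m+2) h * q 0 m' h' = 4m(m+1) q 0 m h q 0 m' h' / ((m+2)^2-h^2) ≤ 4m(m+1) q 0 m' h q 0 m h' / ((m+2)^2 - h'^2) = q 0 m' h * q 0 (m+2) h'`.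
(`m' = 0`: `q 0 0 h' = 0` for `h' ≥ 1`.) -/

namespace Pool.Agent.ProfDK
open Finset Pool.Agent.ProfSR

private theorem q_ballot_numTP (u h : ℕ) (hm : 1 ≤ 2 * u + h) :
    ((2 * u + h : ℕ) : ℝ) * (q 0 (2 * u + h) h : ℝ) = h * ((2 * u + h).choose (u + h) : ℝ) := by
  obtain ⟨l, hl⟩ : ∃ l, 2 * u + h = l + 1 := ⟨2 * u + h - 1, by omega⟩
  obtain ⟨s, hs⟩ : ∃ s, u + h = s + 1 := ⟨u + h - 1, by omega⟩
  have h1 : (q 1 l h : ℝ) = (l.choose s : ℝ) - (l.choose (s + 1) : ℝ) :=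
    q_formula le_rfl (by omega)
  rw [hl, hs, q_shift, h1]
  have e1 : ((l + 1 : ℕ) : ℝ) * (l.choose s : ℝ) = ((l + 1).choose (s + 1) : ℝ) * ((s + 1 : ℕ) : ℝ) := by
    have := Nat.add_one_mul_choose_eq l s
    exact_mod_cast this
  have e2 : ((l + 1).choose (s + 1) : ℝ) = (l.choose s : ℝ) + (l.choose (s + 1) : ℝ) := by
    have := Nat.choose_succ_succ l s
    exact_mod_cast this
  have e3 : (h : ℝ) = 2 * ((s + 1 : ℕ) : ℝ) - ((l + 1 : ℕ) : ℝ) := by
    have : h + (l + 1) = 2 * (s + 1) := by omega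
    have h2 : ((h + (l + 1) : ℕ) : ℝ) = ((2 * (s + 1) : ℕ) : ℝ) := by rw [this]
    push_cast at h2 ⊢
    linarith
  have e4 : (l.choose (s + 1) : ℝ) = ((l + 1).choose (s + 1) : ℝ) - (l.choose s : ℝ) := by linarith
  rw [e3, e4]
  linear_combination 2 * e1

theorem q_two (m h : ℕ) : ((m + 2 : ℝ) ^ 2 - (h : ℝ) ^ 2) * (q 0 (m + 2) h : ℝ) = 4 * m * (m + 1) * (q 0 m h : ℝ) := by
  by_cases hp : Even (0 + m + h)
  · by_cases hmh : m < h
    · have h0 : q 0 m h = 0 := q_high (by omega)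
      rw [h0]
      by_cases h2 : h = m + 2
      · subst h2
        push_cast
        ring
      · have h3 : q 0 (m + 2) h = 0 := by
          apply q_high
          obtain ⟨c, hc⟩ := hp
          omega
        rw [h3]; simp
    · obtain ⟨c, hc⟩ := hp
      obtain ⟨u, hu⟩ : ∃ u, m = 2 * u + h := ⟨c - h, by omega⟩
      rcases Nat.eq_zero_or_pos m with hm0 | hm1
      · have hu0 : h = 0 := by omega
        subst hu0
        rw [hm0]
        rw [show q 0 (0 + 2) 0 = 0 from q_zero_right (by norm_num)]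
        simp
      · subst hu
        have k1 := q_ballot_numTP u h (by omega)
        have k2 := q_ballot_numTP (u + 1) h (by omega)
        have e0 : 2 * (u + 1) + h = 2 * u + h + 2 := by ring
        have e1 : u + 1 + h = u + h + 1 := by ring
        rw [e0, e1] at k2
        have c1 : ((2 * u + h + 2 : ℕ) : ℝ) * ((2 * u + h + 1).choose (u + h) : ℝ)
            = ((2 * u + h + 2).choose (u + h + 1) : ℝ) * ((u + h + 1 : ℕ) : ℝ) := by
          have := Nat.add_one_mul_choose_eq (2 * u + h + 1) (u + h)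
          exact_mod_cast this
        have c2 : ((2 * u + h).choose (u + h) : ℝ) * ((2 * u + h + 1 : ℕ) : ℝ)
            = ((2 * u + h + 1).choose (u + h) : ℝ) * ((u + 1 : ℕ) : ℝ) := by
          have := Nat.choose_mul_succ_eq (2 * u + h) (u + h)
          rw [show 2 * u + h + 1 - (u + h) = u + 1 by omega] at this
          exact_mod_cast this
        have hpos : (0 : ℝ) < ((2 * u + h + 2 : ℕ) : ℝ) := by positivity
        apply mul_left_cancel₀ hpos.ne'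
        have f1 : (((2 * u + h : ℕ) : ℝ) + 2) ^ 2 - (h : ℝ) ^ 2 = 4 * ((u + h + 1 : ℕ) : ℝ) * ((u + 1 : ℕ) : ℝ) := by
          push_cast; ring
        rw [f1]
        have g1 : ((2 * u + h + 2 : ℕ) : ℝ) * (4 * ((u + h + 1 : ℕ) : ℝ) * ((u + 1 : ℕ) : ℝ) * (q 0 (2 * u + h + 2) h : ℝ))
            = 4 * ((u + 1 : ℕ) : ℝ) * h * (((2 * u + h + 2).choose (u + h + 1) : ℝ) * ((u + h + 1 : ℕ) : ℝ)) := by
          linear_combination (4 * ((u + h + 1 : ℕ) : ℝ) * ((u + 1 : ℕ) : ℝ)) * k2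
        rw [g1, ← c1]
        have g2 : ((2 * u + h + 2 : ℕ) : ℝ) * (4 * ((2 * u + h : ℕ) : ℝ) * (((2 * u + h : ℕ) : ℝ) + 1) * (q 0 (2 * u + h) h : ℝ))
            = 4 * ((2 * u + h + 2 : ℕ) : ℝ) * h * (((2 * u + h).choose (u + h) : ℝ) * ((2 * u + h + 1 : ℕ) : ℝ)) := by
          have : (((2 * u + h : ℕ) : ℝ) + 1) = ((2 * u + h + 1 : ℕ) : ℝ) := by push_cast; ring
          rw [this]
          linear_combination (4 * ((2 * u + h + 2 : ℕ) : ℝ) * ((2 * u + h + 1 : ℕ) : ℝ)) * k1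
        rw [g2, c2]
        ring
  · have h1 : q 0 m h = 0 := q_parity hp
    have h2 : q 0 (m + 2) h = 0 := by
      apply q_parity
      intro h3
      apply hp
      obtain ⟨c, hc⟩ := h3
      exact ⟨c - 1, by omega⟩
    rw [h1, h2]; simp

/-- total positivity: longer paths end higher -/
theorem q_tp2 {m' m h h' : ℕ} (hm : m' ≤ m) (hp : Even (m + m')) (hh : h ≤ h') :
    (q 0 m h : ℝ) * q 0 m' h' ≤ (q 0 m' h : ℝ) * q 0 m h' := by
  by_cases hb : m' < h'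
  · rw [show q 0 m' h' = 0 from q_high (by omega)]
    simp only [Nat.cast_zero, mul_zero]
    positivity
  · obtain ⟨d, hd⟩ : ∃ d, m = m' + 2 * d := by
      obtain ⟨c, hc⟩ := hp
      exact ⟨c - m', by omega⟩
    subst hd
    clear hm hp
    induction d with
    | zero => simp only [mul_zero, add_zero]; exact le_rfl
    | succ d ih =>
      set M := m' + 2 * d with hM
      have e : m' + 2 * (d + 1) = M + 2 := by rw [hM]; ring
      rw [e]
      have k1 := q_two M h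
      have k2 := q_two M h'
      have hMh' : (h' : ℝ) ≤ M := by
        have : h' ≤ M := by omega
        exact_mod_cast this
      have hhh : (h : ℝ) ≤ h' := by exact_mod_cast hh
      have h0 : (0 : ℝ) ≤ h := by positivity
      have hA' : 0 < ((M : ℝ) + 2) ^ 2 - (h' : ℝ) ^ 2 := by nlinarith
      have hAA : ((M : ℝ) + 2) ^ 2 - (h' : ℝ) ^ 2 ≤ ((M : ℝ) + 2) ^ 2 - (h : ℝ) ^ 2 := by nlinarith
      have hA : 0 < ((M : ℝ) + 2) ^ 2 - (h : ℝ) ^ 2 := lt_of_lt_of_le hA' hAA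
      have hc : (0 : ℝ) ≤ 4 * M * (M + 1) := by positivity
      have n1 : (0 : ℝ) ≤ (q 0 m' h : ℝ) * q 0 M h' := by positivity
      -- multiply by both factors
      have key : (((M : ℝ) + 2) ^ 2 - (h' : ℝ) ^ 2) * (((M : ℝ) + 2) ^ 2 - (h : ℝ) ^ 2) * ((q 0 (M + 2) h : ℝ) * q 0 m' h')
          ≤ (((M : ℝ) + 2) ^ 2 - (h' : ℝ) ^ 2) * (((M : ℝ) + 2) ^ 2 - (h : ℝ) ^ 2) * ((q 0 m' h : ℝ) * q 0 (M + 2) h') := by
        calc (((M : ℝ) + 2) ^ 2 - (h' : ℝ) ^ 2) * (((M : ℝ) + 2) ^ 2 - (h : ℝ) ^ 2) * ((q 0 (M + 2) h : ℝ) * q 0 m' h')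
            = (((M : ℝ) + 2) ^ 2 - (h' : ℝ) ^ 2) * (4 * M * (M + 1)) * ((q 0 M h : ℝ) * q 0 m' h') := by
              linear_combination ((((M : ℝ) + 2) ^ 2 - (h' : ℝ) ^ 2) * (q 0 m' h' : ℝ)) * k1
          _ ≤ (((M : ℝ) + 2) ^ 2 - (h' : ℝ) ^ 2) * (4 * M * (M + 1)) * ((q 0 m' h : ℝ) * q 0 M h') := by
              apply mul_le_mul_of_nonneg_left ih
              exact mul_nonneg hA'.le hc
          _ ≤ (((M : ℝ) + 2) ^ 2 - (h : ℝ) ^ 2) * (4 * M * (M + 1)) * ((q 0 m' h : ℝ) * q 0 M h') := by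
              apply mul_le_mul_of_nonneg_right _ n1
              exact mul_le_mul_of_nonneg_right hAA hc
          _ = (((M : ℝ) + 2) ^ 2 - (h' : ℝ) ^ 2) * (((M : ℝ) + 2) ^ 2 - (h : ℝ) ^ 2) * ((q 0 m' h : ℝ) * q 0 (M + 2) h') := by
              linear_combination (-(((M : ℝ) + 2) ^ 2 - (h : ℝ) ^ 2) * (q 0 m' h : ℝ)) * k2
      exact le_of_mul_le_mul_left key (mul_pos hA' hA)

end Pool.Agent.ProfDK
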