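import Pool.Agent.Lib_MP_05ae4a_dk.Kernel
import Pool.Agent.Lib_MP_05ae4a_dk.Interface
import Pool.Agent.Lib_MP_05ae4a_dk.NumTP

/-! # Piece D10: from the last zero to the level

`cheb`: with `c g h = p g * r h * (y h - x g)` it is enough that `c g h + c h g ≥ 0` for `g ≤ h` (symmetrize the double sum
`∑_{g,h} c g h = (∑ p) (∑ r y) - (∑ p x)(∑ r)`): `c g h + c h g ≥ p h r g (y h - x g + y g - x h)` (as `y h - x g ≥ 0`, `p h r g ≤ p g r h`) and
`y h - x h ≥ 0`, `y g - x g ≥ 0`.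

`dk_walk`: `P g = q 0 (n-a-2g) e`, `P' g = q 0 (n-a-2g) e'`.  By `X_minus`, `X_plus` (`∅ ∉ J`, `∅ ∉ star w`), and since all the terms `g ≤ w` vanish
(`Xg_low`, `Yg_low`, `Xg_star_low`, `Yg_star_low`) everything is a sum over `S = Ioc w (R a n)`.  Apply `cheb` with
`p g = P g * Xg(w)`, `r g = P' g * Yg(w)`, `x g = Xg(J) / Xg(w)`, `y g = Yg(J) / Yg(w)`; `Xg(w) = Ls / 2 > 0`, `Yg(w) = Ls/2 + Hs > 0`
(`wt a 0 = 1`).  `x g ≤ y h` is `dk`.  `p h * r g ≤ p g * r h`: `q_tp2` (`n-a-2h ≤ n-a-2g`, `e' ≤ e`) gives `P h * P' g ≤ P g * P' h`, and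
`Xh(w) Yg(w) ≤ Xg(w) Yh(w)` is `LH_mono`.
Second part: `Xg_le` termwise. -/

namespace Pool.Agent.ProfDK
open Finset Pool.Agent.ProfSR

theorem cheb {S : Finset ℕ} {p r x y : ℕ → ℝ} (hp : ∀ g ∈ S, 0 ≤ p g) (hr : ∀ g ∈ S, 0 ≤ r g)
    (hpr : ∀ g ∈ S, ∀ h ∈ S, g ≤ h → p h * r g ≤ p g * r h) (hxy : ∀ g ∈ S, ∀ h ∈ S, g ≤ h → x g ≤ y h) :
    (∑ g ∈ S, p g * x g) * (∑ h ∈ S, r h) ≤ (∑ h ∈ S, r h * y h) * (∑ g ∈ S, p g) := by
  have key : ∀ g ∈ S, ∀ h ∈ S, g ≤ h →
      0 ≤ p g * r h * (y h - x g) + p h * r g * (y g - x h) := by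
    intro g hg h hh hgh
    have h1 : 0 ≤ y h - x g := sub_nonneg.2 (hxy g hg h hh hgh)
    have h2 : 0 ≤ y h - x h := sub_nonneg.2 (hxy h hh h hh le_rfl)
    have h3 : 0 ≤ y g - x g := sub_nonneg.2 (hxy g hg g hg le_rfl)
    have h4 : 0 ≤ p h * r g := mul_nonneg (hp h hh) (hr g hg)
    have h5 : p h * r g * (y h - x g) ≤ p g * r h * (y h - x g) :=
      mul_le_mul_of_nonneg_right (hpr g hg h hh hgh) h1
    have h6 : 0 ≤ p h * r g * ((y h - x h) + (y g - x g)) := mul_nonneg h4 (add_nonneg h2 h3)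
    nlinarith
  have h2 : 0 ≤ ∑ g ∈ S, ∑ h ∈ S, (p g * r h * (y h - x g) + p h * r g * (y g - x h)) := by
    refine sum_nonneg fun g hg => sum_nonneg fun h hh => ?_
    rcases le_total g h with hgh | hgh
    · exact key g hg h hh hgh
    · have := key h hh g hg hgh
      linarith
  have e1 : (∑ g ∈ S, p g * x g) * (∑ h ∈ S, r h) = ∑ g ∈ S, ∑ h ∈ S, p g * x g * r h := by
    rw [sum_mul_sum]
  have e2 : (∑ h ∈ S, r h * y h) * (∑ g ∈ S, p g) = ∑ g ∈ S, ∑ h ∈ S, p g * r h * y h := by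
    rw [mul_comm, sum_mul_sum]
    refine sum_congr rfl fun g _ => sum_congr rfl fun h _ => by ring
  have e3 : ∑ g ∈ S, ∑ h ∈ S, p g * r h * (y h - x g) =
      (∑ h ∈ S, r h * y h) * (∑ g ∈ S, p g) - (∑ g ∈ S, p g * x g) * (∑ h ∈ S, r h) := by
    rw [e1, e2, ← sum_sub_distrib]
    refine sum_congr rfl fun g _ => ?_
    rw [← sum_sub_distrib]
    refine sum_congr rfl fun h _ => by ring
  have e4 : ∑ g ∈ S, ∑ h ∈ S, p h * r g * (y g - x h) =
      ∑ g ∈ S, ∑ h ∈ S, p g * r h * (y h - x g) := by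
    rw [sum_comm]
  have e5 : ∑ g ∈ S, ∑ h ∈ S, (p g * r h * (y h - x g) + p h * r g * (y g - x h)) =
      2 * ∑ g ∈ S, ∑ h ∈ S, p g * r h * (y h - x g) := by
    have : ∑ g ∈ S, ∑ h ∈ S, (p g * r h * (y h - x g) + p h * r g * (y g - x h)) =
        ∑ g ∈ S, ∑ h ∈ S, p g * r h * (y h - x g) +
          ∑ g ∈ S, ∑ h ∈ S, p h * r g * (y g - x h) := by
      rw [← sum_add_distrib]
      exact sum_congr rfl fun g _ => sum_add_distrib
    rw [this, e4]
    ring
  rw [e5, e3] at h2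
  linarith

/-- the property used for chains (levels `e ≥ e0`) -/
def DKw (n a e0 : ℕ) : Prop := ∀ (J : Set (Finset ℕ)) (w : ℕ), IU (R a n) J → w < R a n →
  (∀ σ ∈ J, ¬ Disjoint σ (range (w + 1))) → (∀ σ ∈ J, ¬ σ ⊆ range w) → ∀ e e' : ℕ, e0 ≤ e' → e' ≤ e →
    (X n a (-(a : ℤ)) J (-(e : ℤ)) : ℝ) * X n a a (star w) (-(e' : ℤ)) ≤
      (X n a a J (-(e' : ℤ)) : ℝ) * X n a (-(a : ℤ)) (star w) (-(e : ℤ)) ∧
    (X n a (-(a : ℤ)) J (-(e : ℤ)) : ℝ) ≤ X n a (-(a : ℤ)) (star w) (-(e : ℤ))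

private theorem sum_cut_avg2 {w m k : ℕ} {f : ℕ → ℝ} (h0 : ∀ g, g ≤ w → f g = 0) (h1 : ∀ g, k < g → g ≤ m → f g = 0) :
    ∑ g ∈ range (m + 1), f g = ∑ g ∈ (Ioc w m).filter (fun g => g ≤ k), f g := by
  symm
  refine sum_subset ?_ ?_
  · intro g hg
    rw [mem_filter, mem_Ioc] at hg
    rw [mem_range]
    omega
  · intro g hg hg2
    rw [mem_range] at hg
    rw [mem_filter, mem_Ioc] at hg2
    rcases le_or_gt g w with h | h
    · exact h0 g h
    · exact h1 g (by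
        by_contra hc
        exact hg2 ⟨⟨h, by omega⟩, by omega⟩) (by omega)

private theorem Ls_pos_avg {a w g : ℕ} (ha : 1 ≤ a) : 0 < Ls a w g := by
  unfold Ls
  refine sum_pos (fun x _ => mul_pos (wt_pos ha x) (U_pos _)) ⟨0, by simp⟩

private theorem Hs_nonneg_avg {a w g : ℕ} (ha : 1 ≤ a) : 0 ≤ Hs a w g := by
  unfold Hs
  exact sum_nonneg (fun x _ => (mul_pos (wt_pos ha x) (U_pos _)).le)

theorem dk_walk {n a e0 N : ℕ} (ha : 1 ≤ a) (hN : n ≤ N + e0) (hn : N * N + 6 * N ≤ 3 * (a * a) + 4) : DKw n a e0 := by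
  intro J w hJ hw h1 h2 e e' he0 hee
  have hR : R a n = (n - a) / 2 := rfl
  have han : a ≤ n := by
    by_contra hcon
    have : n - a = 0 := by omega
    rw [hR, this] at hw
    simp at hw
  have hwt : ∀ x, 0 ≤ wt a x := fun x => (wt_pos ha x).le
  have hgrow : ∀ x < (n - e0 - a) / 2, 6 * wt a x ≤ wt a (x + 1) := by
    intro x hx
    exact wt_grow ha hn (by omega)
  have hvan : ∀ g, (n - e0 - a) / 2 < g → g ≤ R a n → ∀ f, e0 ≤ f → q 0 (n - a - 2 * g) f = 0 := by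
    intro g hg hg2 f hf
    rw [hR] at hg2
    exact q_high (by omega)
  have hJ0 : (∅ : Finset ℕ) ∉ J := fun h => h1 ∅ h (disjoint_empty_left _)
  have hS0 : (∅ : Finset ℕ) ∉ (ProfSR.star w : Set (Finset ℕ)) := by
    intro h
    exact absurd h (notMem_empty w)
  have hXS : ∀ g, w < g → 0 < Xg a g (ind (star w)) := by
    intro g hg
    have h3 := Xg_star (a := a) hg
    have h4 := Ls_pos_avg (a := a) (w := w) (g := g) ha
    linarith
  have hYS : ∀ g, w < g → 0 < Yg a g (ind (star w)) := by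
    intro g hg
    have h3 := Yg_star (a := a) hg
    have h4 := Ls_pos_avg (a := a) (w := w) (g := g) ha
    have h5 := Hs_nonneg_avg (a := a) (w := w) (g := g) ha
    linarith
  have eXJ := X_minus ha han hJ0 e
  have eXS := X_minus ha han hS0 e
  have eYJ := X_plus ha han J e'
  have eYS := X_plus ha han (star w) e'
  constructor
  · rw [eXJ, eXS, eYJ, eYS]
    rw [sum_cut_avg2 (w := w) (k := (n - e0 - a) / 2) (fun g hg => by rw [Xg_low hJ hw.le h2 hg, mul_zero]) (fun g hg hg2 => by rw [hvan g hg hg2 e (he0.trans hee), Nat.cast_zero, zero_mul]),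
      sum_cut_avg2 (w := w) (k := (n - e0 - a) / 2) (fun g hg => by rw [Yg_star_low hg, mul_zero]) (fun g hg hg2 => by rw [hvan g hg hg2 e' he0, Nat.cast_zero, zero_mul]),
      sum_cut_avg2 (w := w) (k := (n - e0 - a) / 2) (fun g hg => by rw [Yg_low hJ hw.le h2 hg, mul_zero]) (fun g hg hg2 => by rw [hvan g hg hg2 e' he0, Nat.cast_zero, zero_mul]),
      sum_cut_avg2 (w := w) (k := (n - e0 - a) / 2) (fun g hg => by rw [Xg_star_low hg, mul_zero]) (fun g hg hg2 => by rw [hvan g hg hg2 e (he0.trans hee), Nat.cast_zero, zero_mul])]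
    have hch := cheb (S := (Ioc w (R a n)).filter (fun g => g ≤ (n - e0 - a) / 2))
      (p := fun g => (q 0 (n - a - 2 * g) e : ℝ) * Xg a g (ind (star w)))
      (r := fun g => (q 0 (n - a - 2 * g) e' : ℝ) * Yg a g (ind (star w)))
      (x := fun g => Xg a g (ind J) / Xg a g (ind (star w)))
      (y := fun g => Yg a g (ind J) / Yg a g (ind (star w)))
      (fun g hg => mul_nonneg (Nat.cast_nonneg _) (hXS g (mem_Ioc.1 (mem_filter.1 hg).1).1).le)
      (fun g hg => mul_nonneg (Nat.cast_nonneg _) (hYS g (mem_Ioc.1 (mem_filter.1 hg).1).1).le)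
      (fun g hg h hh hgh => by
        have hg1 := (mem_Ioc.1 (mem_filter.1 hg).1).1
        have hh2 := (mem_Ioc.1 (mem_filter.1 hh).1).2
        have hh1 := (mem_Ioc.1 (mem_filter.1 hh).1).1
        have t1 : (q 0 (n - a - 2 * g) e' : ℝ) * q 0 (n - a - 2 * h) e ≤
            (q 0 (n - a - 2 * h) e' : ℝ) * q 0 (n - a - 2 * g) e := by
          refine q_tp2 (by omega) ?_ hee
          rw [hR] at hh2
          refine ⟨n - a - g - h, by omega⟩
        have t2 : Ls a w h * Hs a w g ≤ Ls a w g * Hs a w h :=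
          LH_mono hwt (fun x hx => hgrow x (lt_of_lt_of_le hx (mem_filter.1 hh).2)) hg1 hgh
        have t3 : Xg a h (ind (star w)) * Yg a g (ind (star w)) ≤
            Xg a g (ind (star w)) * Yg a h (ind (star w)) := by
          have a1 := Xg_star (a := a) hg1
          have a2 := Xg_star (a := a) hh1
          have a3 := Yg_star (a := a) hg1
          have a4 := Yg_star (a := a) hh1
          have b1 : Xg a g (ind (star w)) = Ls a w g / 2 := by linarith
          have b2 : Xg a h (ind (star w)) = Ls a w h / 2 := by linarith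
          have b3 : Yg a g (ind (star w)) = (Ls a w g + 2 * Hs a w g) / 2 := by linarith
          have b4 : Yg a h (ind (star w)) = (Ls a w h + 2 * Hs a w h) / 2 := by linarith
          rw [b1, b2, b3, b4]
          nlinarith
        have t4 : 0 ≤ (q 0 (n - a - 2 * g) e' : ℝ) * q 0 (n - a - 2 * h) e :=
          mul_nonneg (Nat.cast_nonneg _) (Nat.cast_nonneg _)
        have t5 : 0 ≤ Xg a g (ind (star w)) * Yg a h (ind (star w)) :=
          mul_nonneg (hXS g hg1).le (hYS h hh1).le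
        calc (q 0 (n - a - 2 * h) e : ℝ) * Xg a h (ind (star w)) *
              ((q 0 (n - a - 2 * g) e' : ℝ) * Yg a g (ind (star w)))
            = ((q 0 (n - a - 2 * g) e' : ℝ) * q 0 (n - a - 2 * h) e) *
              (Xg a h (ind (star w)) * Yg a g (ind (star w))) := by ring
          _ ≤ ((q 0 (n - a - 2 * g) e' : ℝ) * q 0 (n - a - 2 * h) e) *
              (Xg a g (ind (star w)) * Yg a h (ind (star w))) :=
            mul_le_mul_of_nonneg_left t3 t4
          _ ≤ ((q 0 (n - a - 2 * h) e' : ℝ) * q 0 (n - a - 2 * g) e) *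
              (Xg a g (ind (star w)) * Yg a h (ind (star w))) :=
            mul_le_mul_of_nonneg_right t1 t5
          _ = (q 0 (n - a - 2 * g) e : ℝ) * Xg a g (ind (star w)) *
              ((q 0 (n - a - 2 * h) e' : ℝ) * Yg a h (ind (star w))) := by ring)
      (fun g hg h hh hgh => by
        have hg1 := (mem_Ioc.1 (mem_filter.1 hg).1).1
        have hh2 := (mem_Ioc.1 (mem_filter.1 hh).1).2
        have hh1 := (mem_Ioc.1 (mem_filter.1 hh).1).1
        rw [div_le_div_iff₀ (hXS g hg1) (hYS h hh1)]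
        exact dk hwt (fun x hx => hgrow x (lt_of_lt_of_le hx (mem_filter.1 hh).2)) hJ hw h1 h2 hgh hh2)
    have c1 : ∑ g ∈ (Ioc w (R a n)).filter (fun g => g ≤ (n - e0 - a) / 2), (q 0 (n - a - 2 * g) e : ℝ) * Xg a g (ind (star w)) *
        (Xg a g (ind J) / Xg a g (ind (star w))) =
        ∑ g ∈ (Ioc w (R a n)).filter (fun g => g ≤ (n - e0 - a) / 2), (q 0 (n - a - 2 * g) e : ℝ) * Xg a g (ind J) := by
      refine sum_congr rfl fun g hg => ?_
      have := (hXS g (mem_Ioc.1 (mem_filter.1 hg).1).1).ne'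
      field_simp
    have c2 : ∑ g ∈ (Ioc w (R a n)).filter (fun g => g ≤ (n - e0 - a) / 2), (q 0 (n - a - 2 * g) e' : ℝ) * Yg a g (ind (star w)) *
        (Yg a g (ind J) / Yg a g (ind (star w))) =
        ∑ g ∈ (Ioc w (R a n)).filter (fun g => g ≤ (n - e0 - a) / 2), (q 0 (n - a - 2 * g) e' : ℝ) * Yg a g (ind J) := by
      refine sum_congr rfl fun g hg => ?_
      have := (hYS g (mem_Ioc.1 (mem_filter.1 hg).1).1).ne'
      field_simp
    rw [c1, c2] at hch
    exact hch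
  · rw [eXJ, eXS]
    refine sum_le_sum fun g hg => ?_
    have hgm : g ≤ R a n := by
      rw [mem_range] at hg
      omega
    exact mul_le_mul_of_nonneg_left (Xg_le hwt hJ hw h1 h2 hgm) (Nat.cast_nonneg _)

end Pool.Agent.ProfDK
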