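import Pool.Agent.Lib_MP_05ae4a_dk.Avg
import Pool.Agent.Lib_MP_05ae4a_co.MainB

/-! # Piece D11: chains

`abel`: let `S j = ∑_{e<j} v e`, `j0 ≤ N` with `S j0` maximal, so `S j0 ≥ S 0 = 0`.  `∑_{e<N} r e v e = ∑_{i<N} (r i - r (i+1)) S (i+1) + r N S N ≤ r 0 S j0 ≤ S j0`.

`chain_dk` (compare `chain_bound` in `Lib_MP_05ae4a_co/Main.lean`; same conclusion, no conditions on the weights except that they vanish on the levels `e < e0`, but `DKw n a e0`).
Write `M = n+a+2`, `X_e(K) = X n a (-a) K (-e)`, `Y_e(K) = X n a a K (-e)`, `J_e = J (-e)`, `b e = β (-e)`, `b' e = β e` for `e ≥ 1`, `b' 0 = 0`.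
Levels `e` with `n+a+e` odd have `X_e = Y_e = 0` (`X_parity`).  Let `p0` be the smallest `e ≥ e0` with `n+a+e` even (the weights of the levels `e < e0` of the right parity are `0`; `r e := r p0` for `e < p0`).  If `J_{p0}` is empty then (`hmono`) all `J_e` of the right
parity are empty: all terms vanish (`X_none`), take `r = 0`, `k = (n+a+1)/2` (as in `chain_bound`, the term `e = 0` is `≥ 0`).  Otherwise `w = piv (J_{p0})`, `w < R a n` (`piv_lt`).
For every `f ≥ p0` of the right parity `J_f ⊆ J_{p0}`, so every `σ ∈ J_f` meets `range (w+1) ∈ J_{p0}`; and `σ ⊆ range w` is impossible: if `w = 0` then `σ = ∅`, otherwise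
`range w = range ((w-1)+1)` would be in `J_{p0}` (up-set), against `piv_min`.
`ρ f = X_f(J_f) / X_f(w)` (`0` if `X_f(w) = 0`), `r e = max_{e ≤ f ≤ M} ρ f` (`0` for `e > M`; e.g. `Finset.sup'` or a recursion downwards from `M`), which is nonincreasing with values in `[0,1]`.
For `e` of the right parity: (i) `X_e(J_e) ≤ r e * X_e(w)` (if `X_e(w) = 0` then `X_e(J_e) = 0` by `DKw`), (ii) `r e * Y_e(w) ≤ Y_e(J_e)`: for `f ≥ e` of the right parity with `X_f(w) > 0`:
`X_f(J_f) Y_e(w) ≤ Y_e(J_f) X_f(w) ≤ Y_e(J_e) X_f(w)` (`DKw`, and `J_f ⊆ J_e`, `X` is monotone in the family); for the other `f`: `ρ f = 0`.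
So the left side minus `∑_{e ≥ 1} β e X n a (-a) univ e` is `≤ ∑_{e<M+1} r e * v e`, `v e = b e X_e(w) - b' e Y_e(w)`; apply `abel`, `∑_{e<j} v e`; the summands with
`n+a+e` odd or `e > n + a` are `0` (`X_parity`, `X_zero_low`), so `e < j` may be replaced by `2k + e ≤ n + a` with `k = (n+a+2-j)/2` (natural subtraction, rounded down; check: `2k+e ≤ n+a` iff `e < j` for
`e ≤ n+a` of the right parity), `2k ≤ n+a+1` for `j ≥ 1`; for `j = 0` take `k = (n+a+1)/2` (only `e = 0` can satisfy `2k + e ≤ n+a`, and `v 0 ≥ 0`).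

`main_dk`: exactly the proof of `mainB` (`Lib_MP_05ae4a_co/MainB.lean`) with `chain_dk` instead of `chain_bound`. -/

namespace Pool.Agent.ProfDK
open Finset Pool.Agent.ProfSR

theorem abel {N : ℕ} {r v : ℕ → ℝ} (hr1 : r 0 ≤ 1) (hr0 : ∀ i, 0 ≤ r i) (hr : ∀ i, r (i + 1) ≤ r i) :
    ∃ j ≤ N, ∑ e ∈ range N, r e * v e ≤ ∑ e ∈ range j, v e := by
  obtain ⟨j, hj, hmax⟩ := exists_max_image (range (N + 1)) (fun j => ∑ e ∈ range j, v e) ⟨0, by simp⟩
  refine ⟨j, by have := mem_range.1 hj; omega, ?_⟩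
  have hM0 : 0 ≤ ∑ e ∈ range j, v e := by simpa using hmax 0 (by simp)
  have key : ∀ m, m ≤ N → ∑ e ∈ range m, r e * v e ≤ (r 0 - r m) * ∑ e ∈ range j, v e + r m * ∑ e ∈ range m, v e := by
    intro m
    induction m with
    | zero => intro _; simp
    | succ m ih =>
      intro hm
      have h1 := ih (by omega)
      have h2 := hmax (m + 1) (mem_range.2 (by omega))
      rw [sum_range_succ (fun e => r e * v e)]
      have h3 := mul_le_mul_of_nonneg_left h2 (sub_nonneg.2 (hr m))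
      have h4 : ∑ e ∈ range (m + 1), v e = ∑ e ∈ range m, v e + v m := sum_range_succ _ _
      have h5 : r m * ∑ e ∈ range (m + 1), v e = r m * ∑ e ∈ range m, v e + r m * v m := by rw [h4]; ring
      nlinarith
  have h1 := key N le_rfl
  have h2 := hmax N (by simp)
  have h3 := mul_le_mul_of_nonneg_left h2 (hr0 N)
  have h4 := mul_le_mul_of_nonneg_right hr1 hM0
  nlinarith

private theorem sumsplit_chainMax (f : ℕ → ℝ) (M : ℕ) :
    ∑ e ∈ range (M + 1), f e = f 0 + ∑ e ∈ Icc 1 M, f e := by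
  have h : range (M + 1) = insert 0 (Icc 1 M) := by
    ext x
    simp only [mem_range, mem_insert, mem_Icc]
    omega
  rw [h, sum_insert (by simp)]

private theorem X_mono_chainMax {n a : ℕ} {x h : ℤ} {J J' : Set (Finset ℕ)} (hJ : J ⊆ J') :
    X n a x J h ≤ X n a x J' h := by
  classical
  unfold X
  refine card_le_card ?_
  intro A hA
  rw [mem_filter] at hA ⊢
  exact ⟨hA.1, hA.2.1, hJ hA.2.2⟩

theorem chain_dk {n a e0 : ℕ} (hR : 0 < R a n) (hD : DKw n a e0) {β : ℤ → ℝ} (hβ : ∀ h, 0 ≤ β h)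
    (hβ0 : ∀ e : ℕ, e < e0 → Even (n + a + e) → β (-(e : ℤ)) = 0 ∧ β e = 0) (J : ℤ → Set (Finset ℕ))
    (hJ : ∀ h, h ≤ 0 → IU (R a n) (J h))
    (hmono : ∀ h h', h ≤ h' → h' ≤ 0 → Even (h' - h) → J h ⊆ J h') :
    ∃ r k, r < R a n ∧ 2 * k ≤ n + a + 1 ∧
      β 0 * X n a (-(a : ℤ)) (J 0) 0 +
        ∑ e ∈ Icc 1 (n + a + 2), (β (-(e : ℤ)) * X n a (-(a : ℤ)) (J (-(e : ℤ))) (-(e : ℤ)) +
          β e * ((X n a (-(a : ℤ)) Set.univ e : ℝ) - X n a a (J (-(e : ℤ))) (-(e : ℤ)))) ≤
      (if 2 * k ≤ n + a then β 0 * X n a (-(a : ℤ)) (star r) 0 else 0) +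
      ∑ e ∈ Icc 1 (n + a + 2),
        ((if 2 * k + e ≤ n + a then
          β (-(e : ℤ)) * X n a (-(a : ℤ)) (star r) (-(e : ℤ)) - β e * X n a a (star r) (-(e : ℤ)) else 0) +
          β e * X n a (-(a : ℤ)) Set.univ e) := by
  classical
  have hemp : ∀ h, h ≤ 0 → (∅ : Finset ℕ) ∉ J h := fun h hh hc => (hJ h hh).int _ hc _ hc (disjoint_empty_left _)
  have hemps : ∀ r, (∅ : Finset ℕ) ∉ star r := fun r hc => absurd hc (by simp [ProfSR.star])
  -- parity
  have hpar : ∀ e : ℕ, ¬ Even (n + a + e) → ∀ K, X n a (-(a : ℤ)) K (-(e : ℤ)) = 0 ∧ X n a a K (-(e : ℤ)) = 0 := by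
    intro e hh K
    refine ⟨X_parity ?_, X_parity ?_⟩
    · intro hc
      apply hh
      rw [← Int.even_coe_nat]
      have e1 : ((n + a + e : ℕ) : ℤ) = (-(e : ℤ) - -(a : ℤ) - n) + 2 * ((n : ℤ) + e) := by push_cast; ring
      rw [e1]
      exact hc.add (even_two_mul _)
    · intro hc
      apply hh
      rw [← Int.even_coe_nat]
      have e1 : ((n + a + e : ℕ) : ℤ) = (-(e : ℤ) - (a : ℤ) - n) + 2 * ((n : ℤ) + a + e) := by push_cast; ring
      rw [e1]
      exact hc.add (even_two_mul _)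
  -- monotonicity along the levels
  have hmono' : ∀ e f : ℕ, e ≤ f → Even (n + a + e) → Even (n + a + f) → J (-(f : ℤ)) ⊆ J (-(e : ℤ)) := by
    intro e f hef he hf
    refine hmono _ _ (by omega) (by omega) ?_
    obtain ⟨u, hu⟩ := he
    obtain ⟨w, hw⟩ := hf
    exact ⟨(w : ℤ) - u, by omega⟩
  have hzero : ∀ e : ℕ, n + a < e → ∀ K : Set (Finset ℕ), (∅ : Finset ℕ) ∉ K →
      X n a (-(a : ℤ)) K (-(e : ℤ)) = 0 ∧ X n a a K (-(e : ℤ)) = 0 := by
    intro e he K hK
    exact ⟨X_zero_low hK (by omega), X_zero_low hK (by omega)⟩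
  -- left side and right side as sums over `range`
  let b' : ℕ → ℝ := fun e => if e = 0 then 0 else β e
  have hb'0 : ∀ e, 0 ≤ b' e := by
    intro e
    simp only [b']
    split_ifs
    · exact le_rfl
    · exact hβ _
  let tJ : ℕ → ℝ := fun e => β (-(e : ℤ)) * X n a (-(a : ℤ)) (J (-(e : ℤ))) (-(e : ℤ)) -
    b' e * X n a a (J (-(e : ℤ))) (-(e : ℤ))
  let v : ℕ → ℕ → ℝ := fun r e => β (-(e : ℤ)) * X n a (-(a : ℤ)) (star r) (-(e : ℤ)) -
    b' e * X n a a (star r) (-(e : ℤ))
  have hL : β 0 * X n a (-(a : ℤ)) (J 0) 0 +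
        ∑ e ∈ Icc 1 (n + a + 2), (β (-(e : ℤ)) * X n a (-(a : ℤ)) (J (-(e : ℤ))) (-(e : ℤ)) +
          β e * ((X n a (-(a : ℤ)) Set.univ e : ℝ) - X n a a (J (-(e : ℤ))) (-(e : ℤ)))) =
      ∑ e ∈ range (n + a + 2 + 1), tJ e + ∑ e ∈ Icc 1 (n + a + 2), β e * (X n a (-(a : ℤ)) Set.univ e : ℝ) := by
    rw [sumsplit_chainMax, add_assoc (tJ 0), ← sum_add_distrib]
    refine congrArg₂ (· + ·) ?_ (sum_congr rfl fun e he => ?_)
    · simp [tJ, b']
    · have he1 : e ≠ 0 := by have := (mem_Icc.1 he).1; omega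
      simp only [tJ, b', if_neg he1]
      ring
  have hRt : ∀ r k : ℕ, (if 2 * k ≤ n + a then β 0 * X n a (-(a : ℤ)) (star r) 0 else 0) +
      ∑ e ∈ Icc 1 (n + a + 2),
        ((if 2 * k + e ≤ n + a then
          β (-(e : ℤ)) * X n a (-(a : ℤ)) (star r) (-(e : ℤ)) - β e * X n a a (star r) (-(e : ℤ)) else 0) +
          β e * X n a (-(a : ℤ)) Set.univ e) =
      ∑ e ∈ range (n + a + 2 + 1), (if 2 * k + e ≤ n + a then v r e else 0) +
        ∑ e ∈ Icc 1 (n + a + 2), β e * (X n a (-(a : ℤ)) Set.univ e : ℝ) := by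
    intro r k
    rw [sumsplit_chainMax, add_assoc (if 2 * k + 0 ≤ n + a then v r 0 else 0), ← sum_add_distrib]
    refine congrArg₂ (· + ·) ?_ (sum_congr rfl fun e he => ?_)
    · simp [v, b']
    · have he1 : e ≠ 0 := by have := (mem_Icc.1 he).1; omega
      simp only [v, b', if_neg he1]
  suffices hmain : ∃ r k, r < R a n ∧ 2 * k ≤ n + a + 1 ∧ ∑ e ∈ range (n + a + 2 + 1), tJ e ≤
      ∑ e ∈ range (n + a + 2 + 1), (if 2 * k + e ≤ n + a then v r e else 0) by
    obtain ⟨r, k, h1, h2, h3⟩ := hmain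
    refine ⟨r, k, h1, h2, ?_⟩
    rw [hL, hRt]
    linarith
  let P : Finset ℕ := (range (n + a + 2 + 1)).filter
    (fun e => e0 ≤ e ∧ Even (n + a + e) ∧ (J (-(e : ℤ))).Nonempty)
  by_cases hP : P.Nonempty
  · obtain ⟨p, hpP, hpmin⟩ : ∃ p ∈ P, ∀ e ∈ P, p ≤ e := ⟨P.min' hP, P.min'_mem hP, fun e he => P.min'_le e he⟩
    obtain ⟨hp1, hp2, hp3, hp4⟩ := mem_filter.1 hpP
    have hp1' := mem_range.1 hp1
    have hIUp := hJ (-(p : ℤ)) (by omega)
    have hpmem := piv_mem hIUp hp4
    have hwR : piv (J (-(p : ℤ))) < R a n := piv_lt hIUp hp4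
    set w := piv (J (-(p : ℤ))) with hw
    -- conditions for `DKw`
    have hC : ∀ f : ℕ, p ≤ f → Even (n + a + f) →
        (∀ σ ∈ J (-(f : ℤ)), ¬ Disjoint σ (range (w + 1))) ∧ (∀ σ ∈ J (-(f : ℤ)), ¬ σ ⊆ range w) := by
      intro f hf hf2
      have hsub := hmono' p f hf hp3 hf2
      refine ⟨fun σ hσ => hIUp.int _ (hsub hσ) _ hpmem, fun σ hσ hc => ?_⟩
      rcases Nat.eq_zero_or_pos w with h0 | h0
      · rw [h0, range_zero, subset_empty] at hc
        rw [hc] at hσ
        exact hemp _ (by omega) hσ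
      · have h1 : range (w - 1 + 1) ∉ J (-(p : ℤ)) := piv_min (by omega)
        apply h1
        rw [Nat.sub_add_cancel h0]
        exact hIUp.up _ (hsub hσ) _ (range_subset_range.2 hwR.le) hc
    have hDK : ∀ f e : ℕ, p ≤ e → e ≤ f → Even (n + a + f) →
        (X n a (-(a : ℤ)) (J (-(f : ℤ))) (-(f : ℤ)) : ℝ) * X n a a (star w) (-(e : ℤ)) ≤
          (X n a a (J (-(f : ℤ))) (-(e : ℤ)) : ℝ) * X n a (-(a : ℤ)) (star w) (-(f : ℤ)) ∧
        (X n a (-(a : ℤ)) (J (-(f : ℤ))) (-(f : ℤ)) : ℝ) ≤ X n a (-(a : ℤ)) (star w) (-(f : ℤ)) := by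
      intro f e he hef hf
      exact hD _ w (hJ _ (by omega)) hwR (hC f (he.trans hef) hf).1 (hC f (he.trans hef) hf).2 f e (hp2.trans he) hef
    let ρ : ℕ → ℝ := fun f => if p ≤ f ∧ Even (n + a + f) then
      (X n a (-(a : ℤ)) (J (-(f : ℤ))) (-(f : ℤ)) : ℝ) / X n a (-(a : ℤ)) (star w) (-(f : ℤ)) else 0
    have hρ1 : ∀ f, ρ f ≤ 1 := by
      intro f
      simp only [ρ]
      split_ifs with h
      · exact div_le_one_of_le₀ (hDK f f h.1 le_rfl h.2).2 (Nat.cast_nonneg _)
      · exact zero_le_one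
    let T : ℕ → Set ℝ := fun e => {x | x = 0 ∨ ∃ f, e ≤ f ∧ x = ρ f}
    have hTb : ∀ e, BddAbove (T e) := by
      intro e
      refine ⟨1, ?_⟩
      rintro x (rfl | ⟨f, -, rfl⟩)
      · exact zero_le_one
      · exact hρ1 f
    have hT0 : ∀ e, (0 : ℝ) ∈ T e := fun e => Or.inl rfl
    let r : ℕ → ℝ := fun e => sSup (T e)
    have hr0 : ∀ e, 0 ≤ r e := fun e => le_csSup (hTb e) (hT0 e)
    have hr1 : r 0 ≤ 1 := by
      refine csSup_le ⟨0, hT0 0⟩ ?_
      rintro x (rfl | ⟨f, -, rfl⟩)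
      · exact zero_le_one
      · exact hρ1 f
    have hr : ∀ e, r (e + 1) ≤ r e := by
      intro e
      refine csSup_le_csSup (hTb e) ⟨0, hT0 _⟩ ?_
      rintro x (rfl | ⟨f, hf, rfl⟩)
      · exact hT0 e
      · exact Or.inr ⟨f, by omega, rfl⟩
    have hρr : ∀ e, ρ e ≤ r e := fun e => le_csSup (hTb e) (Or.inr ⟨e, le_rfl, rfl⟩)
    have hlev : ∀ e ∈ range (n + a + 2 + 1), tJ e ≤ r e * v w e := by
      intro e he
      by_cases hpe : Even (n + a + e)
      · by_cases hep : p ≤ e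
        · have h1 : (X n a (-(a : ℤ)) (J (-(e : ℤ))) (-(e : ℤ)) : ℝ) ≤
              r e * X n a (-(a : ℤ)) (star w) (-(e : ℤ)) := by
            by_cases hz : (X n a (-(a : ℤ)) (star w) (-(e : ℤ)) : ℝ) = 0
            · have := (hDK e e hep le_rfl hpe).2
              rw [hz] at this ⊢
              linarith
            · have h2 : ρ e * X n a (-(a : ℤ)) (star w) (-(e : ℤ)) =
                  (X n a (-(a : ℤ)) (J (-(e : ℤ))) (-(e : ℤ)) : ℝ) := by
                simp only [ρ]
                rw [if_pos ⟨hep, hpe⟩, div_mul_cancel₀ _ hz]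
              rw [← h2]
              exact mul_le_mul_of_nonneg_right (hρr e) (Nat.cast_nonneg _)
          have h2 : r e * (X n a a (star w) (-(e : ℤ)) : ℝ) ≤ X n a a (J (-(e : ℤ))) (-(e : ℤ)) := by
            rcases (Nat.cast_nonneg (α := ℝ) (X n a a (star w) (-(e : ℤ)))).eq_or_lt with h0 | h0
            · rw [← h0, mul_zero]
              exact Nat.cast_nonneg _
            · rw [← le_div_iff₀ h0]
              refine csSup_le ⟨0, hT0 e⟩ ?_
              rintro x (rfl | ⟨f, hf, rfl⟩)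
              · exact div_nonneg (Nat.cast_nonneg _) (Nat.cast_nonneg _)
              · simp only [ρ]
                split_ifs with h
                · rw [le_div_iff₀ h0]
                  rcases (Nat.cast_nonneg (α := ℝ) (X n a (-(a : ℤ)) (star w) (-(f : ℤ)))).eq_or_lt with h00 | h00
                  · rw [← h00, div_zero, zero_mul]
                    exact Nat.cast_nonneg _
                  · rw [div_mul_eq_mul_div, div_le_iff₀ h00]
                    refine (hDK f e hep hf h.2).1.trans (mul_le_mul_of_nonneg_right ?_ h00.le)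
                    exact_mod_cast X_mono_chainMax (hmono' e f hf hpe h.2)
                · exact div_nonneg (Nat.cast_nonneg _) (Nat.cast_nonneg _)
          have h3 := mul_le_mul_of_nonneg_left h1 (hβ (-(e : ℤ)))
          have h4 := mul_le_mul_of_nonneg_left h2 (hb'0 e)
          simp only [tJ, v]
          linarith
        · have he0 : e < e0 := by
            by_contra hc
            have : e ∈ P := mem_filter.2 ⟨he, by omega, hpe, hp4.mono (hmono' e p (by omega) hpe hp3)⟩
            exact hep (hpmin e this)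
          obtain ⟨z1, z2⟩ := hβ0 e he0 hpe
          have z3 : b' e = 0 := by
            simp only [b']
            split_ifs
            · rfl
            · exact z2
          simp only [tJ, v, z1, z3]
          simp
      · simp only [tJ, v, (hpar e hpe _).1, (hpar e hpe _).2]
        simp
    obtain ⟨j, hjN, hj⟩ := abel (N := n + a + 2 + 1) (r := r) (v := v w) hr1 hr0 hr
    have hall : ∑ e ∈ range (n + a + 2 + 1), tJ e ≤ ∑ e ∈ range j, v w e := (sum_le_sum hlev).trans hj
    rcases Nat.eq_zero_or_pos j with hj0 | hj0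
    · subst hj0
      refine ⟨w, (n + a + 1) / 2, hwR, by omega, hall.trans ?_⟩
      rw [range_zero, sum_empty]
      refine sum_nonneg fun e _ => ?_
      split_ifs with h
      · have he0 : e = 0 := by omega
        subst he0
        simp only [v, b', if_true, zero_mul, sub_zero]
        exact mul_nonneg (hβ _) (Nat.cast_nonneg _)
      · exact le_rfl
    · refine ⟨w, (n + a + 2 - j) / 2, hwR, by omega, hall.trans ?_⟩
      have hsub : range j ⊆ range (n + a + 2 + 1) := range_subset_range.2 hjN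
      have e1 : ∑ e ∈ range j, v w e = ∑ e ∈ range (n + a + 2 + 1), if e < j then v w e else 0 := by
        rw [← sum_filter]
        refine sum_congr ?_ fun _ _ => rfl
        ext x
        simp only [mem_range, mem_filter]
        omega
      rw [e1]
      refine (sum_congr rfl fun e he => ?_).le
      by_cases hpe : Even (n + a + e)
      · by_cases hen : e ≤ n + a
        · have hiff : e < j ↔ 2 * ((n + a + 2 - j) / 2) + e ≤ n + a := by
            obtain ⟨u, hu⟩ := hpe
            omega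
          simp only [hiff]
        · have hz : v w e = 0 := by
            simp only [v, (hzero e (by omega) _ (hemps w)).1, (hzero e (by omega) _ (hemps w)).2]
            simp
          simp [hz]
      · have hz : v w e = 0 := by
          simp only [v, (hpar e hpe _).1, (hpar e hpe _).2]
          simp
        simp [hz]
  · refine ⟨0, (n + a + 1) / 2, hR, by omega, ?_⟩
    have h1 : ∀ e ∈ range (n + a + 2 + 1), tJ e = 0 := by
      intro e he
      by_cases hpe : Even (n + a + e)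
      · by_cases he0 : e0 ≤ e
        · have hnone : ∀ σ, σ ∉ J (-(e : ℤ)) := fun σ hσ => hP ⟨e, mem_filter.2 ⟨he, he0, hpe, ⟨σ, hσ⟩⟩⟩
          simp only [tJ, X_none hnone]
          simp
        · obtain ⟨z1, z2⟩ := hβ0 e (by omega) hpe
          have z3 : b' e = 0 := by
            simp only [b']
            split_ifs
            · rfl
            · exact z2
          simp only [tJ, z1, z3]
          simp
      · simp only [tJ, (hpar e hpe _).1, (hpar e hpe _).2]
        simp
    rw [sum_congr rfl h1, sum_const_zero]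
    refine sum_nonneg fun e _ => ?_
    split_ifs with h
    · have he0 : e = 0 := by omega
      subst he0
      simp only [v, b', if_true, zero_mul, sub_zero]
      exact mul_nonneg (hβ _) (Nat.cast_nonneg _)
    · exact le_rfl

theorem main_dk {n t e0 : ℕ} (ht1 : 1 ≤ t) (htn : t ≤ n) (hD : DKw n (t - 1) e0) {α : ℕ → ℝ} (hα : ∀ i, 0 ≤ α i)
    (hα0 : ∀ s, n + t - 1 < 2 * s + e0 → 2 * s < n + t - 1 + e0 → α s = 0)
    {F : Finset (Finset (Fin n))} (hF : ∀ A ∈ F, ∀ B ∈ F, t ≤ (A ∩ B).card) :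
    ∃ r k, t + 2 * r ≤ n ∧ 2 * k ≤ n + t ∧ ∑ A ∈ F, α A.card ≤ ∑ A ∈ Gf n t r k, α A.card := by
  classical
  obtain ⟨a, rfl⟩ : ∃ a, t = a + 1 := ⟨t - 1, by omega⟩
  rw [Nat.add_sub_cancel] at hD
  by_cases hR : R a n = 0
  · have hna : n = a + 1 := by unfold R at hR; omega
    subst hna
    refine ⟨0, a + 1, by omega, by omega, ?_⟩
    refine sum_le_sum_of_subset_of_nonneg ?_ (fun A _ _ => hα _)
    intro A hA
    have h1 := hF A hA A hA
    rw [inter_self] at h1
    have h2 : A = univ := by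
      rw [← card_eq_iff_eq_univ, Fintype.card_fin]
      exact le_antisymm ((card_le_univ A).trans (by simp)) h1
    subst h2
    simp only [Gf, mem_filter, mem_univ, true_and]
    left
    have h3 : (univ.filter (fun x : Fin (a + 1) => (x : ℕ) < a + 1 + 2 * 0)) = univ := by
      ext x
      simp only [mem_filter, mem_univ, true_and, iff_true]
      have := x.2
      omega
    rw [h3]
    simp
  · have hR' : 0 < R a n := Nat.pos_of_ne_zero hR
    obtain ⟨G, hG, hGV⟩ := start ht1 hF hα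
    rw [Nat.add_sub_cancel] at hG hGV
    have hβ : ∀ h, 0 ≤ bet n a α h := fun h => hα _
    obtain ⟨G', hG', hGV'⟩ := exists_last hβ hG
    obtain ⟨r, k, hr, hk, hle⟩ := chain_dk hR' hD hβ
      (by
        intro e he hpe
        obtain ⟨u, hu⟩ := hpe
        unfold bet
        refine ⟨hα0 _ (by omega) (by omega), hα0 _ (by omega) (by omega)⟩)
      (lastJ G') (fun h hh => lastJ_IU hG' hh)
      (fun h h' h1 _ h3 => lastJ_mono hG' h1 h3)
    refine ⟨r, k, by unfold R at hr; omega, by omega, ?_⟩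
    rw [Gf_val ht1 (by rwa [Nat.add_sub_cancel]) (by omega) α]
    simp only [Nat.add_sub_cancel]
    exact (hGV.trans hGV').trans ((final_bound hβ hG').trans hle)

end Pool.Agent.ProfDK
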