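import Pool.Agent.Lib_MP_05ae4a_co.Main

/-! # Paths by their zeros (MP_05ae4a_co, linear regime): definitions

Notation of `Lib_MP_05ae4a_co/Defs.lean`.  `a = t - 1 ≥ 1`.  A walk `A ⊆ range l` starts at height `x = ± a` at time `0`
(`ht 0 x A i` is its height at time `i`).  Zeros can only be at the times `z_g = a + 2 g`; the status `r` is read at the time
`a + 1 + 2 r = z_r + 1`.  Between two consecutive zeros `z_x`, `z_y` (a block) all statuses `x, …, y-1` are equal. -/

namespace Pool.Agent.ProfDK

open Finset Pool.Agent.ProfSR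

/-- number of paths with `l` steps `±1` from height `a` to height `h` whose heights at the times `1, …, l` are positive -/
def q (a : ℕ) : ℕ → ℕ → ℕ
  | 0, h => if h = a then 1 else 0
  | _ + 1, 0 => 0
  | l + 1, h + 1 => q a l h + q a l (h + 2)

/-- number of positive blocks from the zero `x` to the zero `x + l` (`l ≥ 1`) -/
noncomputable def kap (l : ℕ) : ℝ := (catalan (l - 1) : ℝ)

/-- number of all paths from the zero `x` to the zero `x + j` -/
noncomputable def U (j : ℕ) : ℝ := (Nat.centralBinom j : ℝ)

/-- number of all paths from `-a` whose first zero is at time `a + 2x` -/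
noncomputable def wt (a x : ℕ) : ℝ := (q a (a + 2 * x - 1) 1 : ℝ)

/-- auxiliary function for `EE` (`d = g - x`) -/
noncomputable def Ed : ℕ → ℕ → (Finset ℕ → ℝ) → ℝ
  | 0, _, Φ => Φ ∅
  | d + 1, x, Φ => ∑ l : Fin (d + 1), kap ((l : ℕ) + 1) *
      (Ed (d - l) (x + l + 1) Φ + Ed (d - l) (x + l + 1) (fun σ => Φ (σ ∪ Ico x (x + l + 1))))

/-- sum of `Φ (statuses in [x, g))` over all paths from the zero `x` to the zero `g` (by the first block) -/
noncomputable def EE (x g : ℕ) (Φ : Finset ℕ → ℝ) : ℝ := Ed (g - x) x Φ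

/-- sum of `Φ (statuses)` over all paths from `-a` to the zero `g` (by the first zero) -/
noncomputable def Xg (a g : ℕ) (Φ : Finset ℕ → ℝ) : ℝ := ∑ x ∈ range (g + 1), wt a x * EE x g Φ

/-- sum of `Φ (statuses)` over all paths from `+a` to the zero `g` (by the first zero) -/
noncomputable def Yg (a g : ℕ) (Φ : Finset ℕ → ℝ) : ℝ :=
  ∑ x ∈ range (g + 1), wt a x * EE x g (fun σ => Φ (range x ∪ σ))

open Classical in
/-- indicator function of a family of status vectors -/
noncomputable def ind (J : Set (Finset ℕ)) (σ : Finset ℕ) : ℝ := if σ ∈ J then 1 else 0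

/-- paths from `-a` to the zero `y` with first zero at most `w` -/
noncomputable def Ls (a w y : ℕ) : ℝ := ∑ x ∈ range (w + 1), wt a x * U (y - x)

/-- paths from `-a` to the zero `y` with first zero larger than `w` -/
noncomputable def Hs (a w y : ℕ) : ℝ := ∑ x ∈ Ioc w y, wt a x * U (y - x)

/-- all paths from `-a` to the zero `y` -/
noncomputable def Ms (a y : ℕ) : ℝ := ∑ x ∈ range (y + 1), wt a x * U (y - x)

/-- paths from `-a` to the zero `y` which are never positive -/
noncomputable def Ws (a y : ℕ) : ℝ := ∑ x ∈ range (y + 1), wt a x * (catalan (y - x) : ℝ)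

/-- sum of `Φ (statuses before time l)` over all walks of length `l` from `x` to `y` -/
noncomputable def Bw (a : ℕ) (x : ℤ) (l : ℕ) (y : ℤ) (Φ : Finset ℕ → ℝ) : ℝ :=
  ∑ A ∈ (range l).powerset, if ht 0 x A l = y then Φ (st a l x A) else 0

open Classical in
/-- `Φ` seen before time `l`, if the height at time `l` is `z` -/
noncomputable def upd (a l : ℕ) (z : ℤ) (Φ : Finset ℕ → ℝ) : Finset ℕ → ℝ :=
  fun σ => if (∃ r, l = a + 1 + 2 * r) ∧ 0 < z then Φ (insert (R a l) σ) else Φ σ

end Pool.Agent.ProfDK
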