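import Pool.Agent.Lib_MP_05ae4a_dk.NumA

/-! # Piece D8: the key inequality (real sequences only)

Let `F y = A y - ∑_{z ∈ Ioo y g} 2 kap (z-y) A z ≥ 0` (`w < y < g`), `Lc z = ∑_{y ≤ w} 2 Ms y kap (z-y)`, `L = Ls a w`, `H = Hs a w`.
* `Hs_rec`, `Ls_rec`: last block, from `U_renewal`: `H y = wt y + ∑_{x ∈ Ioo w y} 2 kap (y-x) H x`, `L y = Lc y + ∑_{x ∈ Ioo w y} 2 kap (y-x) L x`
  (`w < y`): `U (y-x) = ∑_{v ∈ Ico x y} 2 kap (y-v) U (v-x)`; exchange the sums; for `v ≤ w`: `∑_{x ≤ v} wt x U (v-x) = Ms v`.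
* `∑_{w<x<g} wt x A x = ∑_{w<y<g} H y F y` and `∑_{w<z<g} Lc z A z = ∑_{w<y<g} L y F y` (insert the recursions, exchange the sums).
* `Ls_growth`: `L (y+1) ≤ 4 L y` (`w < y`... `y ≥ w`; `U_succ_le`); `Hs_growth`: `6 H y ≤ H (y+1)` (shift `x → x+1`; drop the term `x = w+1`).
  So for `w < y < g`: `3 L g H y ≤ 2 L y H g`.
* `Lc z ≤ 3 ∑_{y ≤ w} Ws y kap (z-y)` (`Ws_lower`).
Together: `3 S L g = ∑ 3 H y L g F y ≤ 2 H g ∑ L y F y = 2 H g ∑ Lc z A z ≤ 6 H g ∑ T z A z`.
* `LH_growth`: `L + 2H` is `∑ c_x wt x U (y-x)` with `c` nondecreasing: shift `x → x+1`: `6 (L y + 2 H y) ≤ L (y+1) + 2 H (y+1)`. -/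

namespace Pool.Agent.ProfDK
open Finset Pool.Agent.ProfSR

private theorem U_ren_KeyIneq {x y : ℕ} (h : x < y) : U (y - x) = ∑ v ∈ Ico x y, 2 * kap (y - v) * U (v - x) := by
  rw [U_renewal (by omega : 1 ≤ y - x)]
  refine Finset.sum_bij' (fun l _ => y - l) (fun v _ => y - v) ?_ ?_ ?_ ?_ ?_
  · intro l hl
    simp only [mem_Icc] at hl
    simp only [mem_Ico]
    omega
  · intro v hv
    simp only [mem_Ico] at hv
    simp only [mem_Icc]
    omega
  · intro l hl
    simp only [mem_Icc] at hl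
    show y - (y - l) = l
    omega
  · intro v hv
    simp only [mem_Ico] at hv
    show y - (y - v) = v
    omega
  · intro l hl
    simp only [mem_Icc] at hl
    show 2 * kap l * U (y - x - l) = 2 * kap (y - (y - l)) * U (y - l - x)
    rw [show y - (y - l) = l by omega, show y - l - x = y - x - l by omega]

private theorem wt_nonneg_KeyIneq (a x : ℕ) : 0 ≤ wt a x := by
  unfold wt
  exact Nat.cast_nonneg _

private theorem Ls_nonneg_KeyIneq (a w y : ℕ) : 0 ≤ Ls a w y := by
  unfold Ls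
  exact Finset.sum_nonneg fun x _ => mul_nonneg (wt_nonneg_KeyIneq a x) (U_pos _).le

private theorem Hs_nonneg_KeyIneq (a w y : ℕ) : 0 ≤ Hs a w y := by
  unfold Hs
  exact Finset.sum_nonneg fun x _ => mul_nonneg (wt_nonneg_KeyIneq a x) (U_pos _).le

private theorem exch_KeyIneq (w g : ℕ) (f A : ℕ → ℝ) :
    ∑ y ∈ Ioo w g, f y * (A y - ∑ z ∈ Ioo y g, 2 * kap (z - y) * A z) =
      ∑ z ∈ Ioo w g, (f z - ∑ y ∈ Ioo w z, 2 * kap (z - y) * f y) * A z := by
  simp only [mul_sub, sub_mul, Finset.sum_sub_distrib]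
  congr 1
  simp only [Finset.mul_sum, Finset.sum_mul]
  rw [Finset.sum_comm' (t' := Ioo w g) (s' := fun z => Ioo w z)]
  · refine Finset.sum_congr rfl fun z _ => Finset.sum_congr rfl fun y _ => ?_
    ring
  · intro y z
    simp only [mem_Ioo]
    omega

theorem Hs_rec {a w y : ℕ} (hy : w < y) : Hs a w y = wt a y + ∑ x ∈ Ioo w y, 2 * kap (y - x) * Hs a w x := by
  have h1 : Hs a w y = wt a y + ∑ x ∈ Ioo w y, wt a x * U (y - x) := by
    unfold Hs
    have h2 : Ioc w y = insert y (Ioo w y) := by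
      ext z
      simp only [mem_Ioc, mem_insert, mem_Ioo]
      omega
    rw [h2, Finset.sum_insert (by simp)]
    rw [Nat.sub_self, U_zero, mul_one]
  rw [h1]
  congr 1
  have h3 : ∑ x ∈ Ioo w y, wt a x * U (y - x) =
      ∑ x ∈ Ioo w y, ∑ v ∈ Ico x y, wt a x * (2 * kap (y - v) * U (v - x)) := by
    refine Finset.sum_congr rfl fun x hx => ?_
    rw [U_ren_KeyIneq (mem_Ioo.mp hx).2, Finset.mul_sum]
  rw [h3, Finset.sum_comm' (t' := Ioo w y) (s' := fun v => Ioc w v)]
  · refine Finset.sum_congr rfl fun v _ => ?_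
    unfold Hs
    rw [Finset.mul_sum]
    refine Finset.sum_congr rfl fun x _ => ?_
    ring
  · intro x v
    simp only [mem_Ioo, mem_Ico, mem_Ioc]
    omega

theorem Ls_rec {a w y : ℕ} (hy : w < y) :
    Ls a w y = (∑ v ∈ range (w + 1), 2 * Ms a v * kap (y - v)) + ∑ x ∈ Ioo w y, 2 * kap (y - x) * Ls a w x := by
  have h3 : Ls a w y = ∑ x ∈ range (w + 1), ∑ v ∈ Ico x y, wt a x * (2 * kap (y - v) * U (v - x)) := by
    unfold Ls
    refine Finset.sum_congr rfl fun x hx => ?_
    have hx' := mem_range.mp hx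
    rw [U_ren_KeyIneq (show x < y by omega), Finset.mul_sum]
  have h4 : ∀ x ∈ range (w + 1), ∑ v ∈ Ico x y, wt a x * (2 * kap (y - v) * U (v - x)) =
      ∑ v ∈ Ico x (w + 1), wt a x * (2 * kap (y - v) * U (v - x)) +
        ∑ v ∈ Ioo w y, wt a x * (2 * kap (y - v) * U (v - x)) := by
    intro x hx
    have hx' := mem_range.mp hx
    have h5 : Ioo w y = Ico (w + 1) y := by
      ext z
      simp only [mem_Ioo, mem_Ico]
      omega
    rw [h5, Finset.sum_Ico_consecutive _ (by omega) (by omega)]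
  rw [h3, Finset.sum_congr rfl h4, Finset.sum_add_distrib]
  congr 1
  · rw [Finset.sum_comm' (t' := range (w + 1)) (s' := fun v => range (v + 1))]
    · refine Finset.sum_congr rfl fun v _ => ?_
      unfold Ms
      rw [Finset.mul_sum, Finset.sum_mul]
      refine Finset.sum_congr rfl fun x _ => ?_
      ring
    · intro x v
      simp only [mem_range, mem_Ico]
      omega
  · rw [Finset.sum_comm]
    refine Finset.sum_congr rfl fun v _ => ?_
    unfold Ls
    rw [Finset.mul_sum]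
    refine Finset.sum_congr rfl fun x _ => ?_
    ring

theorem Ls_growth {a w y : ℕ} (ha : ∀ x, 0 ≤ wt a x) (hy : w ≤ y) : Ls a w (y + 1) ≤ 4 * Ls a w y := by
  unfold Ls
  rw [Finset.mul_sum]
  refine Finset.sum_le_sum fun x hx => ?_
  have hx' := mem_range.mp hx
  have h1 : y + 1 - x = (y - x) + 1 := by omega
  rw [h1]
  have h2 := mul_le_mul_of_nonneg_left (U_succ_le (y - x)) (ha x)
  linarith

theorem Hs_growth {a w y g : ℕ} (ha : ∀ x, 0 ≤ wt a x) (hgrow : ∀ x < g, 6 * wt a x ≤ wt a (x + 1)) (hy : y < g) :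
    6 * Hs a w y ≤ Hs a w (y + 1) := by
  unfold Hs
  rw [Finset.mul_sum]
  calc ∑ x ∈ Ioc w y, 6 * (wt a x * U (y - x))
      ≤ ∑ x ∈ Ioc w y, wt a (x + 1) * U (y + 1 - (x + 1)) := by
        refine Finset.sum_le_sum fun x hx => ?_
        have hx' := (mem_Ioc.mp hx).2
        have h1 : y + 1 - (x + 1) = y - x := by omega
        rw [h1]
        have h2 := mul_le_mul_of_nonneg_right (hgrow x (by omega)) (U_pos (y - x)).le
        linarith
    _ = ∑ x ∈ (Ioc w y).image (fun x => x + 1), wt a x * U (y + 1 - x) := by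
        rw [Finset.sum_image]
        intro p _ q _ hpq
        simpa using hpq
    _ ≤ ∑ x ∈ Ioc w (y + 1), wt a x * U (y + 1 - x) := by
        refine Finset.sum_le_sum_of_subset_of_nonneg ?_ ?_
        · intro z hz
          simp only [mem_image, mem_Ioc] at hz ⊢
          obtain ⟨x, hx, rfl⟩ := hz
          omega
        · intro x _ _
          exact mul_nonneg (ha x) (U_pos _).le

theorem LH_growth {a w g h : ℕ} (ha : ∀ x, 0 ≤ wt a x) (hgrow : ∀ x < h, 6 * wt a x ≤ wt a (x + 1)) (hw : w < g) (hg : g ≤ h) :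
    6 ^ (h - g) * (Ls a w g + 2 * Hs a w g) ≤ Ls a w h + 2 * Hs a w h := by
  have hstep : ∀ y, w < y → y < h → 6 * (Ls a w y + 2 * Hs a w y) ≤ Ls a w (y + 1) + 2 * Hs a w (y + 1) := by
    intro y hwy hyh
    have h1 : 6 * Ls a w y ≤ Ls a w (y + 1) + wt a (w + 1) * U (y - w) := by
      unfold Ls
      rw [Finset.mul_sum]
      calc ∑ x ∈ range (w + 1), 6 * (wt a x * U (y - x))
          ≤ ∑ x ∈ range (w + 1), wt a (x + 1) * U (y + 1 - (x + 1)) := by
            refine Finset.sum_le_sum fun x hx => ?_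
            have hx' := mem_range.mp hx
            have h1 : y + 1 - (x + 1) = y - x := by omega
            rw [h1]
            have h2 := mul_le_mul_of_nonneg_right (hgrow x (by omega)) (U_pos (y - x)).le
            linarith
        _ ≤ ∑ x ∈ range (w + 1 + 1), wt a x * U (y + 1 - x) := by
            rw [Finset.sum_range_succ' _ (w + 1)]
            have h3 : 0 ≤ wt a 0 * U (y + 1 - 0) := mul_nonneg (ha 0) (U_pos _).le
            linarith
        _ = ∑ x ∈ range (w + 1), wt a x * U (y + 1 - x) + wt a (w + 1) * U (y - w) := by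
            rw [Finset.sum_range_succ]
            have h1 : y + 1 - (w + 1) = y - w := by omega
            rw [h1]
    have h2 : 6 * Hs a w y + wt a (w + 1) * U (y - w) ≤ Hs a w (y + 1) := by
      unfold Hs
      rw [Finset.mul_sum]
      have e1 : Ioc w (y + 1) = insert (w + 1) ((Ioc w y).image (fun x => x + 1)) := by
        ext z
        simp only [mem_Ioc, mem_insert, mem_image]
        constructor
        · intro hz
          by_cases hz1 : z = w + 1
          · exact Or.inl hz1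
          · exact Or.inr ⟨z - 1, by omega, by omega⟩
        · rintro (rfl | ⟨x, hx, rfl⟩) <;> omega
      rw [e1, Finset.sum_insert, Finset.sum_image]
      · have h4 : y + 1 - (w + 1) = y - w := by omega
        rw [h4]
        have h5 : ∑ x ∈ Ioc w y, 6 * (wt a x * U (y - x)) ≤ ∑ x ∈ Ioc w y, wt a (x + 1) * U (y + 1 - (x + 1)) := by
          refine Finset.sum_le_sum fun x hx => ?_
          have hx' := (mem_Ioc.mp hx).2
          have h1 : y + 1 - (x + 1) = y - x := by omega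
          rw [h1]
          have h2 := mul_le_mul_of_nonneg_right (hgrow x (by omega)) (U_pos (y - x)).le
          linarith
        linarith
      · intro p _ q _ hpq
        simpa using hpq
      · simp only [mem_image, mem_Ioc, not_exists, not_and]
        intro x hx
        omega
    have h6 : 0 ≤ wt a (w + 1) * U (y - w) := mul_nonneg (ha _) (U_pos _).le
    linarith
  obtain ⟨d, rfl⟩ := Nat.exists_eq_add_of_le hg
  have key : ∀ e ≤ d, 6 ^ e * (Ls a w g + 2 * Hs a w g) ≤ Ls a w (g + e) + 2 * Hs a w (g + e) := by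
    intro e
    induction e with
    | zero => intro _; simp
    | succ e ih =>
      intro he
      have h1 := ih (by omega)
      have h2 := hstep (g + e) (by omega) (by omega)
      rw [pow_succ]
      have h3 : g + (e + 1) = g + e + 1 := by omega
      rw [h3]
      linarith
  have := key d le_rfl
  rwa [show g + d - g = d by omega]

/-- relative growth -/
theorem LH_cross {a w g y : ℕ} (ha : ∀ x, 0 ≤ wt a x) (hgrow : ∀ x < g, 6 * wt a x ≤ wt a (x + 1)) (hw : w < y) (hy : y < g) :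
    3 * (Ls a w g * Hs a w y) ≤ 2 * (Ls a w y * Hs a w g) := by
  obtain ⟨d, rfl⟩ := Nat.exists_eq_add_of_le hy.le
  have hd : 1 ≤ d := by omega
  have hL : ∀ e, Ls a w (y + e) ≤ 4 ^ e * Ls a w y := by
    intro e
    induction e with
    | zero => simp
    | succ e ih =>
      have h1 := Ls_growth (a := a) (w := w) (y := y + e) ha (by omega)
      rw [show y + (e + 1) = y + e + 1 by omega, pow_succ]
      linarith
  have hH : ∀ e ≤ d, 6 ^ e * Hs a w y ≤ Hs a w (y + e) := by
    intro e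
    induction e with
    | zero => intro _; simp
    | succ e ih =>
      intro he
      have h1 := ih (by omega)
      have h2 := Hs_growth (a := a) (w := w) (y := y + e) (g := y + d) ha hgrow (by omega)
      rw [show y + (e + 1) = y + e + 1 by omega, pow_succ]
      linarith
  have h46 : (3 : ℝ) * 4 ^ d ≤ 2 * 6 ^ d := by
    obtain ⟨e, rfl⟩ := Nat.exists_eq_add_of_le hd
    rw [pow_add, pow_add]
    have : (4 : ℝ) ^ e ≤ 6 ^ e := pow_le_pow_left₀ (by norm_num) (by norm_num) e
    norm_num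
    linarith
  have a1 := mul_le_mul_of_nonneg_right (hL d) (Hs_nonneg_KeyIneq a w y)
  have a2 := mul_le_mul_of_nonneg_left (hH d le_rfl) (Ls_nonneg_KeyIneq a w y)
  have a3 := mul_le_mul_of_nonneg_right h46 (mul_nonneg (Ls_nonneg_KeyIneq a w y) (Hs_nonneg_KeyIneq a w y))
  nlinarith [a1, a2, a3]

/-- `H / L` is nondecreasing -/
theorem LH_mono {a w g h : ℕ} (ha : ∀ x, 0 ≤ wt a x) (hgrow : ∀ x < h, 6 * wt a x ≤ wt a (x + 1)) (hw : w < g) (hg : g ≤ h) :
    Ls a w h * Hs a w g ≤ Ls a w g * Hs a w h := by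
  obtain ⟨d, rfl⟩ := Nat.exists_eq_add_of_le hg
  have hL : ∀ e, Ls a w (g + e) ≤ 4 ^ e * Ls a w g := by
    intro e
    induction e with
    | zero => simp
    | succ e ih =>
      have h1 := Ls_growth (a := a) (w := w) (y := g + e) ha (by omega)
      rw [show g + (e + 1) = g + e + 1 by omega, pow_succ]
      linarith
  have hH : ∀ e ≤ d, 6 ^ e * Hs a w g ≤ Hs a w (g + e) := by
    intro e
    induction e with
    | zero => intro _; simp
    | succ e ih =>
      intro he
      have h1 := ih (by omega)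
      have h2 := Hs_growth (a := a) (w := w) (y := g + e) (g := g + d) ha hgrow (by omega)
      rw [show g + (e + 1) = g + e + 1 by omega, pow_succ]
      linarith
  have h46 : (4 : ℝ) ^ d ≤ 6 ^ d := pow_le_pow_left₀ (by norm_num) (by norm_num) d
  have a1 := mul_le_mul_of_nonneg_right (hL d) (Hs_nonneg_KeyIneq a w g)
  have a2 := mul_le_mul_of_nonneg_left (hH d le_rfl) (Ls_nonneg_KeyIneq a w g)
  have a3 := mul_le_mul_of_nonneg_right h46 (mul_nonneg (Ls_nonneg_KeyIneq a w g) (Hs_nonneg_KeyIneq a w g))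
  nlinarith [a1, a2, a3]

theorem key_ineq {a w g : ℕ} (ha : ∀ x, 0 ≤ wt a x) (hgrow : ∀ x < g, 6 * wt a x ≤ wt a (x + 1)) (hwg : w < g)
    {A : ℕ → ℝ} (hA0 : ∀ z, 0 ≤ A z)
    (hA : ∀ x, w < x → x < g → ∑ y ∈ Ioo x g, 2 * kap (y - x) * A y ≤ A x) :
    (∑ x ∈ Ioo w g, wt a x * A x) * Ls a w g ≤
      2 * (∑ z ∈ Ioo w g, (∑ y ∈ range (w + 1), Ws a y * kap (z - y)) * A z) * Hs a w g := by
  set F : ℕ → ℝ := fun y => A y - ∑ z ∈ Ioo y g, 2 * kap (z - y) * A z with hF
  have hFnn : ∀ y ∈ Ioo w g, 0 ≤ F y := by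
    intro y hy
    have hy' := mem_Ioo.mp hy
    have := hA y hy'.1 hy'.2
    simp only [hF]
    linarith
  have c1 : ∑ x ∈ Ioo w g, wt a x * A x = ∑ y ∈ Ioo w g, Hs a w y * F y := by
    rw [exch_KeyIneq w g (Hs a w) A]
    refine Finset.sum_congr rfl fun z hz => ?_
    have hz' := mem_Ioo.mp hz
    have h1 := Hs_rec (a := a) hz'.1
    have h2 : Hs a w z - ∑ y ∈ Ioo w z, 2 * kap (z - y) * Hs a w y = wt a z := by linarith
    rw [h2]
  have c2 : ∑ z ∈ Ioo w g, (∑ v ∈ range (w + 1), 2 * Ms a v * kap (z - v)) * A z =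
      ∑ y ∈ Ioo w g, Ls a w y * F y := by
    rw [exch_KeyIneq w g (Ls a w) A]
    refine Finset.sum_congr rfl fun z hz => ?_
    have hz' := mem_Ioo.mp hz
    have h1 := Ls_rec (a := a) hz'.1
    have h2 : Ls a w z - ∑ y ∈ Ioo w z, 2 * kap (z - y) * Ls a w y =
        ∑ v ∈ range (w + 1), 2 * Ms a v * kap (z - v) := by linarith
    rw [h2]
  have c3 : ∑ y ∈ Ioo w g, 3 * (Ls a w g * Hs a w y) * F y ≤ ∑ y ∈ Ioo w g, 2 * (Ls a w y * Hs a w g) * F y := by
    refine Finset.sum_le_sum fun y hy => ?_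
    have hy' := mem_Ioo.mp hy
    exact mul_le_mul_of_nonneg_right (LH_cross ha hgrow hy'.1 hy'.2) (hFnn y hy)
  have c4 : ∑ z ∈ Ioo w g, (∑ v ∈ range (w + 1), 2 * Ms a v * kap (z - v)) * A z ≤
      3 * ∑ z ∈ Ioo w g, (∑ y ∈ range (w + 1), Ws a y * kap (z - y)) * A z := by
    rw [Finset.mul_sum]
    refine Finset.sum_le_sum fun z _ => ?_
    rw [← mul_assoc]
    refine mul_le_mul_of_nonneg_right ?_ (hA0 z)
    rw [Finset.mul_sum]
    refine Finset.sum_le_sum fun v hv => ?_
    have hv' := mem_range.mp hv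
    have h1 := Ws_lower (a := a) (y := v) (fun x hx => hgrow x (by omega))
    have h2 := mul_le_mul_of_nonneg_right h1 (kap_pos (z - v)).le
    linarith
  have d1 : 3 * ((∑ x ∈ Ioo w g, wt a x * A x) * Ls a w g) =
      ∑ y ∈ Ioo w g, 3 * (Ls a w g * Hs a w y) * F y := by
    rw [c1, Finset.sum_mul, Finset.mul_sum]
    refine Finset.sum_congr rfl fun y _ => ?_
    ring
  have d2 : ∑ y ∈ Ioo w g, 2 * (Ls a w y * Hs a w g) * F y =
      2 * Hs a w g * ∑ z ∈ Ioo w g, (∑ v ∈ range (w + 1), 2 * Ms a v * kap (z - v)) * A z := by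
    rw [c2, Finset.mul_sum]
    refine Finset.sum_congr rfl fun y _ => ?_
    ring
  have d3 := mul_le_mul_of_nonneg_left c4 (mul_nonneg (by norm_num : (0:ℝ) ≤ 2) (Hs_nonneg_KeyIneq a w g))
  rw [← d2] at d3
  have d4 := d1.le.trans (c3.trans d3)
  nlinarith [d4]

end Pool.Agent.ProfDK
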