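import Pool.Agent.Lib_MP_05ae4a_dk.Defs

/-! # Piece D2: Catalan numbers and central binomial coefficients

`U_renewal`: `kap (l+1) = catalan l`, `U j = (j+1) catalan j` (`succ_mul_catalan_eq_centralBinom`), so for `j = n+1` the right side is
`2 ∑_{i+k=n} catalan i * (k+1) * catalan k`; symmetrize `i ↔ k`: this is `(n+2) ∑ catalan i * catalan k = (n+2) catalan (n+1) = U (n+1)` (`catalan_succ'`).
`cat_renewal` is `catalan_succ'`.
`U_succ_le`, `kap_succ_le`: `Nat.succ_mul_centralBinom_succ : (n+1) * centralBinom (n+1) = 2*(2n+1)*centralBinom n`; for the Catalan numbers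
`(n+2) catalan (n+1) = 2 (2n+1) catalan n`.

`Ws_lower`: `wt a (y-j) ≤ wt a y / 6^j`.  `3 Ws - 2 Ms = ∑_j wt a (y-j) * (3 catalan j - 2 U j) = ∑_j wt a (y-j) U_j (1-2j)/(j+1)`
(`j = y - x`); the term `j = 0` is `wt a y`, the others are negative and at least `- wt a y * c_j / 6^j`, `c_j = U_j (2j-1)/(j+1) = 2 U_j - 3 catalan j ≥ 0`
(`j ≥ 1`).  So it is enough that `∑_{1 ≤ j ≤ y} c_j / 6^j ≤ 1`.  By induction on `k`: `∑_{1 ≤ j ≤ k} c_j/6^j ≤ 1 - p_k U_k / 6^k` with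
`p_0 = 1`, `p_1 = 5/2`, `p_k = 4` for `k ≥ 2`; the step needs `U_{k+1} (p_{k+1} + (2k+1)/(k+2)) ≤ 6 p_k U_k` with
`U_{k+1} = U_k (4 - 2/(k+1))` (`k=0`: `2 (5/2 + 1/2) = 6`; `k = 1`: `3 (4+1) = 15 = 6 * 5/2`; `k ≥ 2`: `(4 - 2/(k+1)) (6 - 3/(k+2)) ≤ 24`). -/

namespace Pool.Agent.ProfDK
open Finset Pool.Agent.ProfSR

theorem U_zero : U 0 = 1 := by
  simp [U]

theorem U_pos (j : ℕ) : 0 < U j := by
  unfold U
  exact_mod_cast Nat.centralBinom_pos j

private theorem succ_mul_cat_NumA (n : ℕ) : ((n : ℝ) + 1) * (catalan n : ℝ) = U n := by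
  unfold U
  exact_mod_cast succ_mul_catalan_eq_centralBinom n

private theorem cat_pos_NumA (n : ℕ) : 0 < (catalan n : ℝ) := by
  have h := succ_mul_cat_NumA n
  have h1 := U_pos n
  rw [← h] at h1
  exact pos_of_mul_pos_right h1 (by positivity)

private theorem U_succ_NumA (n : ℕ) :
    ((n : ℝ) + 1) * U (n + 1) = 2 * (2 * (n : ℝ) + 1) * U n := by
  unfold U
  exact_mod_cast Nat.succ_mul_centralBinom_succ n

theorem kap_pos (l : ℕ) : 0 < kap l := cat_pos_NumA _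

private theorem reindex_NumA (f : ℕ → ℕ → ℝ) (n : ℕ) :
    ∑ l ∈ Icc 1 (n + 1), f (l - 1) (n + 1 - l) = ∑ p ∈ antidiagonal n, f p.1 p.2 := by
  rw [Finset.Nat.sum_antidiagonal_eq_sum_range_succ f]
  have h : Icc 1 (n + 1) = Ico 1 (n + 2) := by
    ext x
    simp only [mem_Icc, mem_Ico]
    omega
  rw [h, sum_Ico_eq_sum_range]
  refine sum_congr (by congr 1) fun i _ => ?_
  have h1 : 1 + i - 1 = i := by omega
  have h2 : n + 1 - (1 + i) = n - i := by omega
  rw [h1, h2]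

theorem U_renewal {j : ℕ} (hj : 1 ≤ j) : U j = ∑ l ∈ Icc 1 j, 2 * kap l * U (j - l) := by
  obtain ⟨n, rfl⟩ : ∃ n, j = n + 1 := ⟨j - 1, by omega⟩
  have h1 := reindex_NumA (fun i k => 2 * (catalan i : ℝ) * U k) n
  have h2 : ∑ l ∈ Icc 1 (n + 1), 2 * kap l * U (n + 1 - l) =
      ∑ p ∈ antidiagonal n, 2 * (catalan p.1 : ℝ) * U p.2 := h1
  rw [h2]
  have h3 : ∑ p ∈ antidiagonal n, (catalan p.1 : ℝ) * U p.2 =
      ∑ p ∈ antidiagonal n, (catalan p.1 : ℝ) * ((p.2 : ℝ) + 1) * (catalan p.2 : ℝ) :=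
    sum_congr rfl fun p _ => by rw [← succ_mul_cat_NumA]; ring
  have h4 : ∑ p ∈ antidiagonal n, (catalan p.1 : ℝ) * U p.2 =
      ∑ p ∈ antidiagonal n, (catalan p.1 : ℝ) * ((p.1 : ℝ) + 1) * (catalan p.2 : ℝ) := by
    rw [h3, ← Finset.Nat.sum_antidiagonal_swap]
    exact sum_congr rfl fun p _ => by
      simp only [Prod.fst_swap, Prod.snd_swap]; ring
  have h5 : ∑ p ∈ antidiagonal n, 2 * (catalan p.1 : ℝ) * U p.2 =
      ∑ p ∈ antidiagonal n, ((n : ℝ) + 2) * ((catalan p.1 : ℝ) * (catalan p.2 : ℝ)) := by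
    have h6 : ∑ p ∈ antidiagonal n, 2 * (catalan p.1 : ℝ) * U p.2 =
        ∑ p ∈ antidiagonal n, (catalan p.1 : ℝ) * U p.2 +
        ∑ p ∈ antidiagonal n, (catalan p.1 : ℝ) * U p.2 := by
      rw [← sum_add_distrib]
      exact sum_congr rfl fun p _ => by ring
    rw [h6]
    nth_rewrite 1 [h3]
    rw [h4, ← sum_add_distrib]
    refine sum_congr rfl fun p hp => ?_
    have h7 : ((p.1 : ℝ) + (p.2 : ℝ)) = (n : ℝ) := by
      exact_mod_cast mem_antidiagonal.1 hp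
    rw [← h7]
    ring
  rw [h5, ← mul_sum]
  have h8 : (∑ p ∈ antidiagonal n, (catalan p.1 : ℝ) * (catalan p.2 : ℝ)) =
      (catalan (n + 1) : ℝ) := by
    rw [catalan_succ']
    push_cast
    rfl
  rw [h8, ← succ_mul_cat_NumA (n + 1)]
  push_cast
  ring

theorem cat_renewal {j : ℕ} (hj : 1 ≤ j) : (catalan j : ℝ) = ∑ l ∈ Icc 1 j, kap l * (catalan (j - l) : ℝ) := by
  obtain ⟨n, rfl⟩ : ∃ n, j = n + 1 := ⟨j - 1, by omega⟩
  have h1 : ∑ l ∈ Icc 1 (n + 1), kap l * (catalan (n + 1 - l) : ℝ) =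
      ∑ p ∈ antidiagonal n, (catalan p.1 : ℝ) * (catalan p.2 : ℝ) :=
    reindex_NumA (fun i k => (catalan i : ℝ) * (catalan k : ℝ)) n
  rw [h1, catalan_succ']
  push_cast
  rfl

theorem U_succ_le (j : ℕ) : U (j + 1) ≤ 4 * U j := by
  have h := U_succ_NumA j
  have h1 := U_pos j
  have h2 : ((j : ℝ) + 1) * U (j + 1) ≤ ((j : ℝ) + 1) * (4 * U j) := by
    rw [h]
    nlinarith
  exact le_of_mul_le_mul_left h2 (by positivity)

theorem kap_succ_le {l : ℕ} (hl : 1 ≤ l) : kap (l + 1) ≤ 4 * kap l := by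
  obtain ⟨n, rfl⟩ : ∃ n, l = n + 1 := ⟨l - 1, by omega⟩
  unfold kap
  have e1 : n + 1 + 1 - 1 = n + 1 := by omega
  have e2 : n + 1 - 1 = n := by omega
  rw [e1, e2]
  have h1 := succ_mul_cat_NumA (n + 1)
  have h2 := succ_mul_cat_NumA n
  have h3 := U_succ_le n
  have h4 := cat_pos_NumA n
  push_cast at h1
  have h5 : ((n : ℝ) + 1 + 1) * (catalan (n + 1) : ℝ) ≤ ((n : ℝ) + 1 + 1) * (4 * (catalan n : ℝ)) := by
    rw [h1]
    calc U (n + 1) ≤ 4 * U n := h3
      _ = 4 * (((n : ℝ) + 1) * (catalan n : ℝ)) := by rw [h2]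
      _ ≤ _ := by nlinarith
  exact le_of_mul_le_mul_left h5 (by positivity)

private noncomputable def c_NumA (j : ℕ) : ℝ := 2 * U j - 3 * (catalan j : ℝ)

private theorem c_nonneg_NumA (j : ℕ) : 0 ≤ c_NumA (j + 1) := by
  unfold c_NumA
  rw [← succ_mul_cat_NumA (j + 1)]
  have h := cat_pos_NumA (j + 1)
  push_cast
  have h2 : (0 : ℝ) ≤ (j : ℝ) := by positivity
  nlinarith [mul_nonneg h2 h.le]

private theorem bound2_NumA (k : ℕ) :
    ∑ j ∈ range (k + 2), c_NumA (j + 1) / 6 ^ (j + 1) ≤ 1 - 4 * U (k + 2) / 6 ^ (k + 2) := by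
  have U1 : U 1 = 2 := by
    unfold U; norm_num [Nat.centralBinom, Nat.choose]
  have U2 : U 2 = 6 := by
    unfold U; norm_num [Nat.centralBinom, Nat.choose]
  have C1 : (catalan 1 : ℝ) = 1 := by
    have := succ_mul_cat_NumA 1
    rw [U1] at this
    push_cast at this
    linarith
  have C2 : (catalan 2 : ℝ) = 2 := by
    have := succ_mul_cat_NumA 2
    rw [U2] at this
    push_cast at this
    linarith
  induction k with
  | zero =>
    rw [sum_range_succ, sum_range_succ, sum_range_zero]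
    unfold c_NumA
    norm_num [U1, U2, C1, C2]
  | succ k ih =>
    rw [sum_range_succ]
    have h1 : c_NumA (k + 2 + 1) + 4 * U (k + 2 + 1) ≤ 24 * U (k + 2) := by
      unfold c_NumA
      have hU := U_succ_NumA (k + 2)
      have hC := succ_mul_cat_NumA (k + 2 + 1)
      have hp := U_pos (k + 2)
      push_cast at hU hC
      set u := U (k + 2)
      set u' := U (k + 2 + 1)
      set c := (catalan (k + 2 + 1) : ℝ)
      have hk : (0 : ℝ) ≤ (k : ℝ) := by positivity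
      have e1 : u' = 2 * (2 * ((k : ℝ) + 2) + 1) * u / ((k : ℝ) + 2 + 1) := by
        field_simp
        linarith
      have e2 : c = u' / ((k : ℝ) + 2 + 1 + 1) := by
        field_simp
        linarith
      have e3 : 2 * u' - 3 * c + 4 * u' = u * (6 * (2 * (2 * ((k : ℝ) + 2) + 1)) / ((k : ℝ) + 2 + 1) -
          3 * (2 * (2 * ((k : ℝ) + 2) + 1)) / (((k : ℝ) + 2 + 1) * ((k : ℝ) + 2 + 1 + 1))) := by
        rw [e2, e1]
        field_simp
        ring
      rw [e3]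
      have e4 : 6 * (2 * (2 * ((k : ℝ) + 2) + 1)) / ((k : ℝ) + 2 + 1) -
          3 * (2 * (2 * ((k : ℝ) + 2) + 1)) / (((k : ℝ) + 2 + 1) * ((k : ℝ) + 2 + 1 + 1)) ≤ 24 := by
        rw [div_sub_div _ _ (by positivity) (by positivity), div_le_iff₀ (by positivity)]
        nlinarith [mul_nonneg hk hk, mul_nonneg (mul_nonneg hk hk) hk]
      nlinarith
    have h2 : (6 : ℝ) ^ (k + 1 + 2) = 6 * 6 ^ (k + 2) := by ring
    have h3 : (0 : ℝ) < 6 ^ (k + 2) := by positivity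
    have e5 : k + 1 + 2 = k + 2 + 1 := by omega
    rw [e5] at h2 ⊢
    have h4 : c_NumA (k + 2 + 1) / 6 ^ (k + 2 + 1) + 4 * U (k + 2 + 1) / 6 ^ (k + 2 + 1) ≤
        4 * U (k + 2) / 6 ^ (k + 2) := by
      rw [← add_div, h2, div_le_div_iff₀ (by positivity) h3]
      nlinarith
    have e6 : k + 1 + 1 = k + 2 := by omega
    rw [e6] at *
    linarith

private theorem bound_NumA (k : ℕ) : ∑ j ∈ range k, c_NumA (j + 1) / 6 ^ (j + 1) ≤ 1 := by
  have h := bound2_NumA k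
  have h1 : ∑ j ∈ range k, c_NumA (j + 1) / 6 ^ (j + 1) ≤
      ∑ j ∈ range (k + 2), c_NumA (j + 1) / 6 ^ (j + 1) :=
    sum_le_sum_of_subset_of_nonneg (range_subset_range.2 (by omega))
      fun j _ _ => div_nonneg (c_nonneg_NumA j) (by positivity)
  have h2 : 0 ≤ 4 * U (k + 2) / 6 ^ (k + 2) :=
    div_nonneg (mul_nonneg (by norm_num) (U_pos _).le) (by positivity)
  linarith

private theorem wt_nonneg_NumA (a x : ℕ) : 0 ≤ wt a x := by
  unfold wt
  positivity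

private theorem wt_grow_NumA {a y : ℕ} (hgrow : ∀ x < y, 6 * wt a x ≤ wt a (x + 1)) (j : ℕ)
    (hj : j ≤ y) : wt a (y - j) * 6 ^ j ≤ wt a y := by
  induction j with
  | zero => simp
  | succ j ih =>
    have h1 := ih (by omega)
    have h2 := hgrow (y - (j + 1)) (by omega)
    have h3 : y - (j + 1) + 1 = y - j := by omega
    rw [h3] at h2
    calc wt a (y - (j + 1)) * 6 ^ (j + 1) = (6 * wt a (y - (j + 1))) * 6 ^ j := by ring
      _ ≤ wt a (y - j) * 6 ^ j := mul_le_mul_of_nonneg_right h2 (by positivity)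
      _ ≤ wt a y := h1

theorem Ws_lower {a y : ℕ} (hgrow : ∀ x < y, 6 * wt a x ≤ wt a (x + 1)) : 2 * Ms a y ≤ 3 * Ws a y := by
  have h1 : 3 * Ws a y - 2 * Ms a y =
      ∑ j ∈ range (y + 1), wt a (y - j) * (3 * (catalan j : ℝ) - 2 * U j) := by
    unfold Ws Ms
    rw [mul_sum, mul_sum, ← sum_sub_distrib, ← sum_range_reflect]
    refine sum_congr rfl fun j hj => ?_
    have hj' : j ≤ y := by
      have := mem_range.1 hj
      omega
    have e1 : y + 1 - 1 - j = y - j := by omega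
    have e2 : y - (y - j) = j := by omega
    rw [e1, e2]
    ring
  have h2 : (∑ j ∈ range (y + 1), wt a (y - j) * (3 * (catalan j : ℝ) - 2 * U j)) =
      wt a y - ∑ j ∈ range y, wt a (y - (j + 1)) * c_NumA (j + 1) := by
    rw [sum_range_succ', Nat.sub_zero, U_zero, catalan_zero]
    have : ∑ j ∈ range y, wt a (y - (j + 1)) * (3 * (catalan (j + 1) : ℝ) - 2 * U (j + 1)) =
        -∑ j ∈ range y, wt a (y - (j + 1)) * c_NumA (j + 1) := by
      rw [← sum_neg_distrib]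
      refine sum_congr rfl fun j _ => ?_
      unfold c_NumA
      ring
    rw [this]
    norm_num
    ring
  have h3 : ∑ j ∈ range y, wt a (y - (j + 1)) * c_NumA (j + 1) ≤
      ∑ j ∈ range y, wt a y * (c_NumA (j + 1) / 6 ^ (j + 1)) := by
    refine sum_le_sum fun j hj => ?_
    have h4 := wt_grow_NumA hgrow (j + 1) (by have := mem_range.1 hj; omega)
    have h5 : wt a (y - (j + 1)) ≤ wt a y / 6 ^ (j + 1) := by
      rw [le_div_iff₀ (by positivity)]
      exact h4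
    calc wt a (y - (j + 1)) * c_NumA (j + 1) ≤ wt a y / 6 ^ (j + 1) * c_NumA (j + 1) :=
          mul_le_mul_of_nonneg_right h5 (c_nonneg_NumA j)
      _ = _ := by ring
  rw [← mul_sum] at h3
  have h6 := bound_NumA y
  have h7 : wt a y * ∑ j ∈ range y, c_NumA (j + 1) / 6 ^ (j + 1) ≤ wt a y * 1 :=
    mul_le_mul_of_nonneg_left h6 (wt_nonneg_NumA a y)
  linarith

end Pool.Agent.ProfDK
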