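import Pool.Agent.Lib_MP_05ae4a_dk.Model
import Pool.Agent.Lib_MP_05ae4a_dk.NumA

/-! # Piece D7: undecided paths

`AA J g x` counts the paths from the zero `x` to the zero `g` whose statuses together with `range x` are not in `J`;
`nn J g x` those for which neither the statuses nor their complement in `Ico x g` are in `J`.

`AA_super`: `EE_first` for `AA J g x`; for `σ ⊆ Ico y g`, `x < y ≤ g`: `range x ∪ (σ ∪ Ico x y) = range y ∪ σ` and `range x ∪ σ ⊆ range y ∪ σ`, so
(up-set, everything inside `range m`) both terms of `EE_first` are at least `AA J g y`.  Drop the term `y = g` (it is `≥ 0`).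

`nn_lower`: auxiliary `ns y = EE y g (fun σ => (1 - ind J σ) * (1 - ind J (range g \ σ)))`.
 (1) `w < y`: `σ ⊆ Ico y g` misses `range (w+1)`, so it is not in `J`; `range g \ σ = range y ∪ (Ico y g \ σ)`; by `EE_flip` `ns y = AA J g y`.
 (2) `y ≤ w`: `EE_first`, drop the second (positive) term: `ns y ≥ ∑_{z ∈ Ioc y g} kap (z-y) * ns z`.
 (3) by (strong, downward) induction on `y ≤ w`: `ns y ≥ ∑_{z ∈ Ioo w g} V y z * AA J g z`, `V y z = ∑_{v ∈ Icc y w} catalan (v-y) * kap (z-v)`, because
   `V y z = kap (z-y) + ∑_{y' ∈ Ioc y w} kap (y'-y) * V y' z` (`cat_renewal`).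
 (4) `x ≤ w`: in `EE_first` for `nn J g x` the second term equals the first one after a flip: for `σ ⊆ Ico y g` the pair
   `(σ ∪ Ico x y, Ico x g \ (σ ∪ Ico x y)) = (σ ∪ Ico x y, Ico y g \ σ)` becomes with `σ' = Ico y g \ σ` the pair `(Ico x g \ σ', σ')`.  So
   `nn J g x = 2 ∑_y kap (y-x) * EE y g (fun σ => (1 - ind J σ) * (1 - ind J (Ico x g \ σ)))`, and this is `≥ 2 ∑_y kap (y-x) * ns y`
   (`Ico x g \ σ ⊆ range g \ σ`, up-set).
 (5) `≥ 2 ∑_{z ∈ Ioo w g} V x z * AA J g z` by (1), (3) and the recursion of `V` again. -/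

namespace Pool.Agent.ProfDK
open Finset Pool.Agent.ProfSR

/-- statuses together with `range x` not in `J` -/
noncomputable def AA (J : Set (Finset ℕ)) (g x : ℕ) : ℝ := EE x g (fun σ => 1 - ind J (range x ∪ σ))

/-- neither the statuses nor their complement in `J` -/
noncomputable def nn (J : Set (Finset ℕ)) (g x : ℕ) : ℝ := EE x g (fun σ => (1 - ind J σ) * (1 - ind J (Ico x g \ σ)))

theorem ind_nonneg (J : Set (Finset ℕ)) (σ : Finset ℕ) : 0 ≤ ind J σ := by
  unfold ind
  split_ifs <;> norm_num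

theorem ind_le_one (J : Set (Finset ℕ)) (σ : Finset ℕ) : ind J σ ≤ 1 := by
  unfold ind
  split_ifs <;> norm_num

/-- monotone on subsets of `range m` -/
theorem ind_mono {m : ℕ} {J : Set (Finset ℕ)} (hJ : IU m J) {σ τ : Finset ℕ} (hτ : τ ⊆ range m) (h : σ ⊆ τ) :
    ind J σ ≤ ind J τ := by
  by_cases h1 : σ ∈ J
  · have h2 : τ ∈ J := hJ.up σ h1 τ hτ h
    unfold ind
    rw [if_pos h1, if_pos h2]
  · have h3 : ind J σ = 0 := by
      unfold ind
      rw [if_neg h1]
    rw [h3]
    exact ind_nonneg J τ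

theorem AA_nonneg (J : Set (Finset ℕ)) (g x : ℕ) : 0 ≤ AA J g x := by
  unfold AA
  refine EE_nonneg ?_
  intro σ _
  have := ind_le_one J (range x ∪ σ)
  simpa using this

theorem nn_nonneg (J : Set (Finset ℕ)) (g x : ℕ) : 0 ≤ nn J g x := by
  unfold nn
  refine EE_nonneg ?_
  intro σ _
  have h1 := ind_le_one J σ
  have h2 := ind_le_one J (Ico x g \ σ)
  exact mul_nonneg (by linarith) (by linarith)

theorem AA_super {m : ℕ} {J : Set (Finset ℕ)} (hJ : IU m J) {g x : ℕ} (hg : g ≤ m) (hx : x < g) :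
    ∑ y ∈ Ioo x g, 2 * kap (y - x) * AA J g y ≤ AA J g x := by
  have h0 : AA J g x = ∑ y ∈ Ioc x g, kap (y - x) * (EE y g (fun σ => 1 - ind J (range x ∪ σ)) +
      EE y g (fun σ => 1 - ind J (range x ∪ (σ ∪ Ico x y)))) := by
    unfold AA
    rw [EE_first hx]
  rw [h0]
  have hnn : ∀ y : ℕ, ∀ τ : Finset ℕ → Finset ℕ, 0 ≤ EE y g (fun σ => 1 - ind J (τ σ)) := by
    intro y τ
    refine EE_nonneg ?_
    intro σ _
    have := ind_le_one J (τ σ)
    simpa using this
  have hkey : ∀ y ∈ Ioo x g, 2 * kap (y - x) * AA J g y ≤ kap (y - x) * (EE y g (fun σ => 1 - ind J (range x ∪ σ)) +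
      EE y g (fun σ => 1 - ind J (range x ∪ (σ ∪ Ico x y)))) := by
    intro y hy
    rw [mem_Ioo] at hy
    have hm : ∀ σ ⊆ Ico y g, range y ∪ σ ⊆ range m := by
      intro σ hσ i hi
      rw [mem_union] at hi
      rw [mem_range]
      rcases hi with hi | hi
      · rw [mem_range] at hi; omega
      · have := hσ hi
        rw [mem_Ico] at this; omega
    have h1 : AA J g y ≤ EE y g (fun σ => 1 - ind J (range x ∪ σ)) := by
      unfold AA
      refine EE_mono ?_
      intro σ hσ
      have : range x ∪ σ ⊆ range y ∪ σ := by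
        refine union_subset_union ?_ (Subset.refl _)
        intro i hi
        rw [mem_range] at hi ⊢; omega
      have h2 := ind_mono hJ (hm σ hσ) this
      show 1 - ind J (range y ∪ σ) ≤ 1 - ind J (range x ∪ σ)
      linarith
    have h2 : AA J g y ≤ EE y g (fun σ => 1 - ind J (range x ∪ (σ ∪ Ico x y))) := by
      unfold AA
      refine EE_mono ?_
      intro σ hσ
      have : range x ∪ (σ ∪ Ico x y) = range y ∪ σ := by
        ext i
        simp only [mem_union, mem_range, mem_Ico]
        constructor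
        · rintro (h | h | h)
          · left; omega
          · right; exact h
          · left; omega
        · rintro (h | h)
          · by_cases h3 : i < x
            · left; exact h3
            · right; right; omega
          · right; left; exact h
      show 1 - ind J (range y ∪ σ) ≤ 1 - ind J (range x ∪ (σ ∪ Ico x y))
      rw [this]
    have hk := (kap_pos (y - x)).le
    nlinarith [mul_le_mul_of_nonneg_left h1 hk, mul_le_mul_of_nonneg_left h2 hk]
  calc ∑ y ∈ Ioo x g, 2 * kap (y - x) * AA J g y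
      ≤ ∑ y ∈ Ioo x g, kap (y - x) * (EE y g (fun σ => 1 - ind J (range x ∪ σ)) +
      EE y g (fun σ => 1 - ind J (range x ∪ (σ ∪ Ico x y)))) := sum_le_sum hkey
    _ ≤ _ := by
      refine sum_le_sum_of_subset_of_nonneg Ioo_subset_Ioc_self ?_
      intro y _ _
      exact mul_nonneg (kap_pos _).le (add_nonneg (hnn y (fun σ => range x ∪ σ)) (hnn y (fun σ => range x ∪ (σ ∪ Ico x y))))

/-- kernel of the first passage over `w` -/
private noncomputable def VU (w y z : ℕ) : ℝ := ∑ v ∈ Icc y w, (catalan (v - y) : ℝ) * kap (z - v)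

private theorem VU_rec {w y : ℕ} (hy : y ≤ w) (z : ℕ) :
    VU w y z = kap (z - y) + ∑ y' ∈ Ioc y w, kap (y' - y) * VU w y' z := by
  unfold VU
  have h1 : Icc y w = insert y (Ioc y w) := by
    ext i
    simp only [mem_Icc, mem_insert, mem_Ioc]
    omega
  rw [h1, sum_insert (by simp)]
  have h2 : ((catalan (y - y) : ℕ) : ℝ) = 1 := by simp
  rw [h2, one_mul]
  congr 1
  have h3 : ∀ v ∈ Ioc y w, (catalan (v - y) : ℝ) * kap (z - v) =
      ∑ y' ∈ Ioc y v, kap (y' - y) * ((catalan (v - y') : ℝ) * kap (z - v)) := by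
    intro v hv
    rw [mem_Ioc] at hv
    rw [cat_renewal (j := v - y) (by omega), sum_mul]
    refine sum_nbij' (fun l => y + l) (fun y' => y' - y) ?_ ?_ ?_ ?_ ?_
    · intro l hl
      rw [mem_Icc] at hl
      rw [mem_Ioc]; omega
    · intro y' hy'
      rw [mem_Ioc] at hy'
      rw [mem_Icc]; omega
    · intro l hl
      simp
    · intro y' hy'
      rw [mem_Ioc] at hy'
      show y + (y' - y) = y'
      omega
    · intro l hl
      rw [mem_Icc] at hl
      have e1 : y + l - y = l := by omega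
      have e2 : v - (y + l) = v - y - l := by omega
      show kap l * (catalan (v - y - l) : ℝ) * kap (z - v) = kap (y + l - y) * ((catalan (v - (y + l)) : ℝ) * kap (z - v))
      rw [e1, e2]; ring
  rw [sum_congr rfl h3]
  rw [sum_comm' (t' := Ioc y w) (s' := fun y' => Icc y' w)]
  · refine sum_congr rfl ?_
    intro y' _
    rw [mul_sum]
  · intro v y'
    simp only [mem_Ioc, mem_Icc]
    omega

private theorem step_aux {ns A : ℕ → ℝ} {w g y : ℕ} (hy : y ≤ w) (hw : w < g) (hns : ∀ z, 0 ≤ ns z)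
    (h1 : ∀ z ∈ Ioo w g, A z ≤ ns z)
    (h2 : ∀ y' ∈ Ioc y w, ∑ z ∈ Ioo w g, VU w y' z * A z ≤ ns y') :
    ∑ z ∈ Ioo w g, VU w y z * A z ≤ ∑ z ∈ Ioc y g, kap (z - y) * ns z := by
  have e1 : ∑ z ∈ Ioo w g, VU w y z * A z =
      ∑ z ∈ Ioo w g, kap (z - y) * A z + ∑ y' ∈ Ioc y w, kap (y' - y) * ∑ z ∈ Ioo w g, VU w y' z * A z := by
    have : ∑ y' ∈ Ioc y w, kap (y' - y) * ∑ z ∈ Ioo w g, VU w y' z * A z =
        ∑ z ∈ Ioo w g, (∑ y' ∈ Ioc y w, kap (y' - y) * VU w y' z) * A z := by
      simp only [mul_sum, sum_mul]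
      rw [sum_comm]
      refine sum_congr rfl ?_
      intro z _
      refine sum_congr rfl ?_
      intro y' _
      ring
    rw [this, ← sum_add_distrib]
    refine sum_congr rfl ?_
    intro z _
    rw [VU_rec hy z]; ring
  have e2 : ∑ z ∈ Ioo w g, kap (z - y) * A z ≤ ∑ z ∈ Ioo w g, kap (z - y) * ns z := by
    refine sum_le_sum ?_
    intro z hz
    exact mul_le_mul_of_nonneg_left (h1 z hz) (kap_pos _).le
  have e3 : ∑ y' ∈ Ioc y w, kap (y' - y) * ∑ z ∈ Ioo w g, VU w y' z * A z ≤ ∑ y' ∈ Ioc y w, kap (y' - y) * ns y' := by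
    refine sum_le_sum ?_
    intro y' hy'
    exact mul_le_mul_of_nonneg_left (h2 y' hy') (kap_pos _).le
  have e4 : ∑ z ∈ Ioo w g, kap (z - y) * ns z + ∑ y' ∈ Ioc y w, kap (y' - y) * ns y' ≤
      ∑ z ∈ Ioc y g, kap (z - y) * ns z := by
    have hd : Disjoint (Ioo w g) (Ioc y w) := by
      rw [disjoint_left]
      intro i hi hi'
      rw [mem_Ioo] at hi
      rw [mem_Ioc] at hi'
      omega
    rw [← sum_union hd]
    refine sum_le_sum_of_subset_of_nonneg ?_ ?_
    · intro i hi
      rw [mem_union, mem_Ioo, mem_Ioc] at hi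
      rw [mem_Ioc]
      omega
    · intro i _ _
      exact mul_nonneg (kap_pos _).le (hns i)
  linarith

theorem nn_lower {m : ℕ} {J : Set (Finset ℕ)} (hJ : IU m J) {w g x : ℕ}
    (h1 : ∀ σ ∈ J, ¬ Disjoint σ (range (w + 1))) (hw : w < g) (hg : g ≤ m) (hx : x ≤ w) :
    2 * ∑ z ∈ Ioo w g, (∑ y ∈ Icc x w, (catalan (y - x) : ℝ) * kap (z - y)) * AA J g z ≤ nn J g x := by
  have hpos : ∀ σ τ : Finset ℕ, 0 ≤ (1 - ind J σ) * (1 - ind J τ) := by
    intro σ τ
    have a1 := ind_le_one J σ
    have a2 := ind_le_one J τ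
    exact mul_nonneg (by linarith) (by linarith)
  set ns : ℕ → ℝ := fun y => EE y g (fun σ => (1 - ind J σ) * (1 - ind J (range g \ σ))) with hnsdef
  have hns : ∀ z, 0 ≤ ns z := by
    intro z
    exact EE_nonneg (fun σ _ => hpos σ _)
  -- (1)
  have s1 : ∀ z ∈ Ioo w g, AA J g z ≤ ns z := by
    intro z hz
    rw [mem_Ioo] at hz
    have hflip := EE_flip (x := z) (g := g) (by omega) (fun σ => 1 - ind J (range z ∪ σ))
    have : AA J g z = EE z g (fun σ => 1 - ind J (range z ∪ σ)) := rfl
    rw [this, ← hflip]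
    refine EE_mono ?_
    intro σ hσ
    have b1 : ind J σ = 0 := by
      unfold ind
      rw [if_neg]
      intro hσJ
      refine h1 σ hσJ ?_
      rw [disjoint_left]
      intro i hi hi'
      have := hσ hi
      rw [mem_Ico] at this
      rw [mem_range] at hi'
      omega
    have b2 : range g \ σ = range z ∪ (Ico z g \ σ) := by
      ext i
      simp only [mem_sdiff, mem_range, mem_union, mem_Ico]
      constructor
      · rintro ⟨c1, c2⟩
        by_cases c3 : i < z
        · left; exact c3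
        · right; exact ⟨⟨by omega, c1⟩, c2⟩
      · rintro (c | ⟨⟨_, c2⟩, c3⟩)
        · refine ⟨by omega, ?_⟩
          intro hi
          have := hσ hi
          rw [mem_Ico] at this
          omega
        · exact ⟨c2, c3⟩
    show 1 - ind J (range z ∪ (Ico z g \ σ)) ≤ (1 - ind J σ) * (1 - ind J (range g \ σ))
    rw [b1, b2]
    simp
  -- (2)
  have s2 : ∀ y, y ≤ w → ∑ z ∈ Ioc y g, kap (z - y) * ns z ≤ ns y := by
    intro y hy
    have : ns y = ∑ z ∈ Ioc y g, kap (z - y) * (EE z g (fun σ => (1 - ind J σ) * (1 - ind J (range g \ σ))) +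
      EE z g (fun σ => (1 - ind J (σ ∪ Ico y z)) * (1 - ind J (range g \ (σ ∪ Ico y z))))) := by
      show EE y g (fun σ => (1 - ind J σ) * (1 - ind J (range g \ σ))) = _
      rw [EE_first (by omega : y < g)]
    rw [this]
    refine sum_le_sum ?_
    intro z _
    refine mul_le_mul_of_nonneg_left ?_ (kap_pos _).le
    have : 0 ≤ EE z g (fun σ => (1 - ind J (σ ∪ Ico y z)) * (1 - ind J (range g \ (σ ∪ Ico y z)))) :=
      EE_nonneg (fun σ _ => hpos _ _)
    show EE z g (fun σ => (1 - ind J σ) * (1 - ind J (range g \ σ))) ≤ _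
    linarith
  -- (3)
  have s3 : ∀ d y, w - y = d → y ≤ w → ∑ z ∈ Ioo w g, VU w y z * AA J g z ≤ ns y := by
    intro d
    induction d using Nat.strong_induction_on with
    | _ d ih =>
      intro y hd hy
      refine le_trans (step_aux hy hw hns s1 ?_) (s2 y hy)
      intro y' hy'
      rw [mem_Ioc] at hy'
      exact ih (w - y') (by omega) y' rfl hy'.2
  -- (4)
  have s4 : 2 * ∑ y ∈ Ioc x g, kap (y - x) * ns y ≤ nn J g x := by
    have e0 : nn J g x = ∑ y ∈ Ioc x g, kap (y - x) * (EE y g (fun σ => (1 - ind J σ) * (1 - ind J (Ico x g \ σ))) +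
      EE y g (fun σ => (1 - ind J (σ ∪ Ico x y)) * (1 - ind J (Ico x g \ (σ ∪ Ico x y))))) := by
      show EE x g (fun σ => (1 - ind J σ) * (1 - ind J (Ico x g \ σ))) = _
      rw [EE_first (by omega : x < g)]
    rw [e0, mul_sum]
    refine sum_le_sum ?_
    intro y hy
    rw [mem_Ioc] at hy
    have f1 : ns y ≤ EE y g (fun σ => (1 - ind J σ) * (1 - ind J (Ico x g \ σ))) := by
      refine EE_mono ?_
      intro σ _
      have c1 := ind_le_one J σ
      have c2 : ind J (Ico x g \ σ) ≤ ind J (range g \ σ) := by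
        refine ind_mono hJ ?_ ?_
        · intro i hi
          rw [mem_sdiff, mem_range] at hi
          rw [mem_range]; omega
        · refine sdiff_subset_sdiff ?_ (Subset.refl _)
          intro i hi
          rw [mem_Ico] at hi
          rw [mem_range]; omega
      exact mul_le_mul_of_nonneg_left (by linarith) (by linarith)
    have f2 : EE y g (fun σ => (1 - ind J (σ ∪ Ico x y)) * (1 - ind J (Ico x g \ (σ ∪ Ico x y)))) =
        EE y g (fun σ => (1 - ind J σ) * (1 - ind J (Ico x g \ σ))) := by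
      rw [← EE_flip hy.2 (fun σ => (1 - ind J σ) * (1 - ind J (Ico x g \ σ)))]
      refine EE_congr ?_
      intro σ hσ
      have g1 : Ico x g \ (σ ∪ Ico x y) = Ico y g \ σ := by
        ext i
        simp only [mem_sdiff, mem_union, mem_Ico, not_or]
        constructor
        · rintro ⟨c1, c2, c3⟩
          exact ⟨⟨by omega, c1.2⟩, c2⟩
        · rintro ⟨c1, c2⟩
          exact ⟨⟨by omega, c1.2⟩, c2, by omega⟩
      have g2 : Ico x g \ (Ico y g \ σ) = σ ∪ Ico x y := by
        ext i
        simp only [mem_sdiff, mem_union, mem_Ico, not_and, not_not]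
        constructor
        · rintro ⟨c1, c2⟩
          by_cases c3 : y ≤ i
          · left; exact c2 ⟨c3, c1.2⟩
          · right; omega
        · rintro (c | c)
          · have := hσ c
            rw [mem_Ico] at this
            exact ⟨by omega, fun _ => c⟩
          · exact ⟨by omega, fun h => by omega⟩
      show (1 - ind J (σ ∪ Ico x y)) * (1 - ind J (Ico x g \ (σ ∪ Ico x y))) =
        (1 - ind J (Ico y g \ σ)) * (1 - ind J (Ico x g \ (Ico y g \ σ)))
      rw [g1, g2]; ring
    rw [f2]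
    have hk := (kap_pos (y - x)).le
    nlinarith [mul_le_mul_of_nonneg_left f1 hk]
  -- (5)
  have s5 : ∑ z ∈ Ioo w g, VU w x z * AA J g z ≤ ∑ z ∈ Ioc x g, kap (z - x) * ns z := by
    refine step_aux hx hw hns s1 ?_
    intro y' hy'
    rw [mem_Ioc] at hy'
    exact s3 (w - y') y' rfl hy'.2
  have e6 : ∑ z ∈ Ioo w g, (∑ y ∈ Icc x w, (catalan (y - x) : ℝ) * kap (z - y)) * AA J g z =
      ∑ z ∈ Ioo w g, VU w x z * AA J g z := rfl
  rw [e6]
  linarith

end Pool.Agent.ProfDK
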