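import Pool.Agent.Lib_MP_05ae4a_dk.Transfer
import Pool.Agent.Lib_MP_05ae4a_dk.Undec
import Pool.Agent.Lib_MP_05ae4a_dk.KeyIneq

/-! # Piece D9: the kernel inequality

`N = ∑_{x ≤ w} wt x * nn J g x`, `S = ∑_{x ∈ Ioo w g} wt x * AA J g x`, `L = Ls a w`, `H = Hs a w`, `w < g ≤ h ≤ m`.
* `Xg_star`: `EE_half` for `x ≤ w`, `EE_zero_star` for `x > w`.  `Yg_star`: for `x ≤ w` the same (`w ∉ range x`), for `w < x` always `w ∈ range x`: `EE_total`.
  If `g ≤ w` both are `0` (`EE_zero_star`, and `w ∉ range x` for `x ≤ g`).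
* `Xg_low`: `g ≤ w`: all patterns are subsets of `range g ⊆ range w`, not in `J` (`h2`).
* `Xg_eq`: for `x > w`, `EE x g (ind J) = 0` (`σ ⊆ Ico x g` misses `range (w+1)`, `h1`); for `x ≤ w`: `ind J σ + ind J (Ico x g \ σ) + (1 - ind J σ)(1 - ind J (Ico x g \ σ)) = 1`
  (disjoint sets are not both in `J`), `EE_flip`, `EE_total`: `2 EE x g (ind J) = U (g-x) - nn J g x`.
* `Yg_lower` (`range g ∈ J`): `x ≤ w`: `2 EE x h (ind J (range x ∪ σ)) ≥ 2 EE x h (ind J (σ ∩ range g)) = U (h-x) - EE x h (Φ (σ ∩ range g))` with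
  `Φ τ = (1 - ind J τ) * (1 - ind J (Ico x g \ τ))` (flip: `(Ico x h \ σ) ∩ range g = Ico x g \ (σ ∩ range g)`), and `EE x h (Φ (σ ∩ range g)) ≤ 6^(h-g) nn J g x` (`EE_transfer`).
  `w < x < g`: `2 EE x h (ind J (range x ∪ σ)) ≥ 2 U (h-x) - 2 EE x h (fun σ => 1 - ind J (range x ∪ (σ ∩ range g))) ≥ 2 U (h-x) - 2 * 6^(h-g) AA J g x`.
  `g ≤ x ≤ h`: `range x ⊇ range g ∈ J`: `= 2 U (h-x)`.
* `N_lower`: `N ≥ 2 ∑_{z ∈ Ioo w g} (∑_{y ≤ w} Ws y kap (z-y)) AA J g z` (`nn_lower`, exchange sums, `∑_{x ≤ y} wt x catalan (y-x) = Ws y`).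
* `dk`: if `g ≤ w`: the left side is `0`.  If `range g ∉ J`: `Xg a g (ind J) = 0` (all patterns are subsets of `range g`; up-set).  Otherwise, with `d = h - g`:
  `4 Xg(J) Yg(w) = (L g - N)(L h + 2 H h)`, `4 Yg(J) Xg(w) ≥ (L h + 2 H h - 6^d (N + 2 S)) L g`; need `6^d (N + 2S) L g ≤ N (L h + 2 H h)`; by `LH_growth` it is
  enough that `2 S L g ≤ 2 N H g`, which is `key_ineq` (`A = AA J g`, `AA_super`) and `N_lower`. -/

namespace Pool.Agent.ProfDK
open Finset Pool.Agent.ProfSR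

private theorem ind_of_mem_kernel {J : Set (Finset ℕ)} {σ : Finset ℕ} (h : σ ∈ J) : ind J σ = 1 := if_pos h

private theorem ind_of_notMem_kernel {J : Set (Finset ℕ)} {σ : Finset ℕ} (h : σ ∉ J) : ind J σ = 0 := if_neg h

private theorem ind_congr_kernel {J : Set (Finset ℕ)} {σ τ : Finset ℕ} (h : σ ∈ J ↔ τ ∈ J) : ind J σ = ind J τ := by
  by_cases h1 : σ ∈ J
  · rw [ind_of_mem_kernel h1, ind_of_mem_kernel (h.1 h1)]
  · rw [ind_of_notMem_kernel h1, ind_of_notMem_kernel (fun h2 => h1 (h.2 h2))]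

private theorem EE_zero_kernel {x g : ℕ} (h : x ≤ g) {Φ : Finset ℕ → ℝ} (h0 : ∀ σ ⊆ Ico x g, Φ σ = 0) :
    EE x g Φ = 0 := by
  rw [EE_congr (Ψ := fun _ => 0) h0, EE_total h, zero_mul]

private theorem EE_one_kernel {x g : ℕ} (h : x ≤ g) {Φ : Finset ℕ → ℝ} (h0 : ∀ σ ⊆ Ico x g, Φ σ = 1) :
    EE x g Φ = U (g - x) := by
  rw [EE_congr (Ψ := fun _ => 1) h0, EE_total h, one_mul]

/-- splitting of a sum over `range (g + 1)` -/
private theorem split_kernel {w g : ℕ} (hw : w ≤ g) (f : ℕ → ℝ) :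
    ∑ x ∈ range (g + 1), f x = ∑ x ∈ range (w + 1), f x + ∑ x ∈ Ioc w g, f x := by
  rw [← sum_union]
  · congr 1
    ext x
    simp only [mem_range, mem_union, mem_Ioc]
    omega
  · rw [disjoint_left]
    intro x hx hx'
    simp only [mem_range, mem_Ioc] at hx hx'
    omega

private theorem star_shift_kernel {x w : ℕ} (hx : x ≤ w) (σ : Finset ℕ) :
    ind (star w) (range x ∪ σ) = ind (star w) σ := by
  apply ind_congr_kernel
  change w ∈ range x ∪ σ ↔ w ∈ σ
  rw [mem_union, mem_range]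
  constructor
  · rintro (h | h)
    · omega
    · exact h
  · exact Or.inr

theorem Xg_star {a w g : ℕ} (hw : w < g) : 2 * Xg a g (ind (star w)) = Ls a w g := by
  rw [Xg, split_kernel hw.le, Ls, sum_eq_zero (s := Ioc w g), add_zero, mul_sum]
  · refine sum_congr rfl fun x hx => ?_
    rw [mem_range] at hx
    rw [← EE_half (x := x) (w := w) (g := g) (by omega) hw]
    ring
  · intro x hx
    rw [mem_Ioc] at hx
    rw [EE_zero_star (Or.inl hx.1), mul_zero]

theorem Yg_star {a w g : ℕ} (hw : w < g) : 2 * Yg a g (ind (star w)) = Ls a w g + 2 * Hs a w g := by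
  rw [Yg, split_kernel hw.le, mul_add, Ls, Hs, mul_sum]
  congr 1
  · refine sum_congr rfl fun x hx => ?_
    rw [mem_range] at hx
    rw [← EE_half (x := x) (w := w) (g := g) (by omega) hw,
      EE_congr (Ψ := ind (star w)) fun σ _ => star_shift_kernel (by omega) σ]
    ring
  · congr 1
    refine sum_congr rfl fun x hx => ?_
    rw [mem_Ioc] at hx
    rw [EE_one_kernel hx.2]
    intro σ _
    apply ind_of_mem_kernel
    change w ∈ range x ∪ σ
    exact mem_union_left _ (mem_range.2 hx.1)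

theorem Xg_star_low {a w g : ℕ} (hw : g ≤ w) : Xg a g (ind (star w)) = 0 := by
  refine sum_eq_zero fun x _ => ?_
  rw [EE_zero_star (Or.inr hw), mul_zero]

theorem Yg_star_low {a w g : ℕ} (hw : g ≤ w) : Yg a g (ind (star w)) = 0 := by
  refine sum_eq_zero fun x hx => ?_
  rw [mem_range] at hx
  rw [EE_congr (Ψ := ind (star w)) fun σ _ => star_shift_kernel (by omega) σ, EE_zero_star (Or.inr hw),
    mul_zero]

theorem Xg_low {a m w g : ℕ} {J : Set (Finset ℕ)} (hJ : IU m J) (hwm : w ≤ m) (h2 : ∀ σ ∈ J, ¬ σ ⊆ range w) (hg : g ≤ w) :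
    Xg a g (ind J) = 0 := by
  refine sum_eq_zero fun x hx => ?_
  rw [mem_range] at hx
  rw [EE_zero_kernel (by omega), mul_zero]
  intro σ hσ
  apply ind_of_notMem_kernel
  intro h
  apply h2 σ h
  intro i hi
  have := mem_Ico.1 (hσ hi)
  rw [mem_range]
  omega

theorem Yg_low {a m w g : ℕ} {J : Set (Finset ℕ)} (hJ : IU m J) (hwm : w ≤ m) (h2 : ∀ σ ∈ J, ¬ σ ⊆ range w) (hg : g ≤ w) :
    Yg a g (ind J) = 0 := by
  refine sum_eq_zero fun x hx => ?_
  rw [mem_range] at hx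
  rw [EE_zero_kernel (by omega), mul_zero]
  intro σ hσ
  apply ind_of_notMem_kernel
  intro h
  apply h2 _ h
  intro i hi
  rw [mem_range]
  rcases mem_union.1 hi with hi | hi
  · rw [mem_range] at hi
    omega
  · have := mem_Ico.1 (hσ hi)
    omega

private theorem three_kernel {m : ℕ} {J : Set (Finset ℕ)} (hJ : IU m J) {σ τ : Finset ℕ} (h : Disjoint σ τ) :
    (ind J σ + ind J τ) + (1 - ind J σ) * (1 - ind J τ) = 1 := by
  by_cases h1 : σ ∈ J
  · have h2 : τ ∉ J := fun h2 => hJ.int σ h1 τ h2 h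
    rw [ind_of_mem_kernel h1, ind_of_notMem_kernel h2]
    ring
  · rw [ind_of_notMem_kernel h1]
    ring

theorem Xg_eq {a m w g : ℕ} {J : Set (Finset ℕ)} (hJ : IU m J) (h1 : ∀ σ ∈ J, ¬ Disjoint σ (range (w + 1)))
    (hw : w < g) (hg : g ≤ m) : 2 * Xg a g (ind J) = Ls a w g - ∑ x ∈ range (w + 1), wt a x * nn J g x := by
  rw [Xg, split_kernel hw.le, Ls, sum_eq_zero (s := Ioc w g), add_zero, mul_sum, ← sum_sub_distrib]
  · refine sum_congr rfl fun x hx => ?_
    rw [mem_range] at hx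
    have hxg : x ≤ g := by omega
    have e1 : EE x g (fun σ => (ind J σ + ind J (Ico x g \ σ)) + (1 - ind J σ) * (1 - ind J (Ico x g \ σ))) =
        U (g - x) := by
      apply EE_one_kernel hxg
      intro σ _
      exact three_kernel hJ disjoint_sdiff
    rw [EE_add x g (fun σ => ind J σ + ind J (Ico x g \ σ)), EE_add x g (fun σ => ind J σ),
      EE_flip hxg (ind J)] at e1
    rw [nn, ← e1]
    ring
  · intro x hx
    rw [mem_Ioc] at hx
    rw [EE_zero_kernel hx.2, mul_zero]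
    intro σ hσ
    apply ind_of_notMem_kernel
    intro h
    apply h1 σ h
    rw [disjoint_left]
    intro i hi hi'
    have := mem_Ico.1 (hσ hi)
    rw [mem_range] at hi'
    omega

private theorem low_kernel {m g h x : ℕ} {J : Set (Finset ℕ)} (hJ : IU m J) (hx : x < g) (hg : g ≤ h) (hm : h ≤ m) :
    U (h - x) - 6 ^ (h - g) * nn J g x ≤ 2 * EE x h (fun σ => ind J (range x ∪ σ)) := by
  have hxh : x ≤ h := by omega
  have e0 : EE x h (fun σ => ind J (σ ∩ range g)) ≤ EE x h (fun σ => ind J (range x ∪ σ)) := by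
    apply EE_mono
    intro σ hσ
    apply ind_mono hJ
    · intro i hi
      rw [mem_range]
      rcases mem_union.1 hi with hi | hi
      · rw [mem_range] at hi
        omega
      · have := mem_Ico.1 (hσ hi)
        omega
    · intro i hi
      exact mem_union_right _ (mem_inter.1 hi).1
  have e1 : EE x h (fun σ => ind J ((Ico x h \ σ) ∩ range g)) = EE x h (fun σ => ind J (σ ∩ range g)) :=
    EE_flip hxh (fun σ => ind J (σ ∩ range g))
  have e2 : EE x h (fun σ => (ind J (σ ∩ range g) + ind J ((Ico x h \ σ) ∩ range g)) +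
      (1 - ind J (σ ∩ range g)) * (1 - ind J (Ico x g \ (σ ∩ range g)))) = U (h - x) := by
    apply EE_one_kernel hxh
    intro σ _
    have e3 : (Ico x h \ σ) ∩ range g = Ico x g \ (σ ∩ range g) := by
      ext i
      simp only [mem_inter, mem_sdiff, mem_Ico, mem_range]
      constructor
      · rintro ⟨⟨⟨h1, h2⟩, h3⟩, h4⟩
        exact ⟨⟨h1, h4⟩, fun h5 => h3 h5.1⟩
      · rintro ⟨⟨h1, h2⟩, h3⟩
        exact ⟨⟨⟨h1, by omega⟩, fun h4 => h3 ⟨h4, h2⟩⟩, h2⟩
    simp only [e3]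
    exact three_kernel hJ disjoint_sdiff
  rw [EE_add x h (fun σ => ind J (σ ∩ range g) + ind J ((Ico x h \ σ) ∩ range g)),
    EE_add x h (fun σ => ind J (σ ∩ range g)), e1] at e2
  have e4 : EE x h (fun σ => (1 - ind J (σ ∩ range g)) * (1 - ind J (Ico x g \ (σ ∩ range g)))) ≤
      6 ^ (h - g) * EE x g (fun σ => (1 - ind J σ) * (1 - ind J (Ico x g \ σ))) :=
    EE_transfer hx hg (Φ := fun σ => (1 - ind J σ) * (1 - ind J (Ico x g \ σ))) (fun σ =>
      mul_nonneg (by linarith [ind_le_one J σ]) (by linarith [ind_le_one J (Ico x g \ σ)]))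
  rw [nn]
  linarith

private theorem mid_kernel {m g h x : ℕ} {J : Set (Finset ℕ)} (hJ : IU m J) (hx : x < g) (hg : g ≤ h) (hm : h ≤ m) :
    2 * U (h - x) - 2 * 6 ^ (h - g) * AA J g x ≤ 2 * EE x h (fun σ => ind J (range x ∪ σ)) := by
  have hxh : x ≤ h := by omega
  have e0 : EE x h (fun σ => ind J (range x ∪ (σ ∩ range g))) ≤ EE x h (fun σ => ind J (range x ∪ σ)) := by
    apply EE_mono
    intro σ hσ
    apply ind_mono hJ
    · intro i hi
      rw [mem_range]
      rcases mem_union.1 hi with hi | hi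
      · rw [mem_range] at hi
        omega
      · have := mem_Ico.1 (hσ hi)
        omega
    · exact union_subset_union_right inter_subset_left
  have e2 : EE x h (fun σ => ind J (range x ∪ (σ ∩ range g)) + (1 - ind J (range x ∪ (σ ∩ range g)))) =
      U (h - x) := by
    apply EE_one_kernel hxh
    intro σ _
    ring
  rw [EE_add x h (fun σ => ind J (range x ∪ (σ ∩ range g)))] at e2
  have e4 : EE x h (fun σ => 1 - ind J (range x ∪ (σ ∩ range g))) ≤
      6 ^ (h - g) * EE x g (fun σ => 1 - ind J (range x ∪ σ)) :=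
    EE_transfer hx hg (Φ := fun σ => 1 - ind J (range x ∪ σ)) (fun σ =>
      by linarith [ind_le_one J (range x ∪ σ)])
  rw [AA]
  linarith

private theorem high_kernel {m g h x : ℕ} {J : Set (Finset ℕ)} (hJ : IU m J) (hx : g ≤ x) (hxh : x ≤ h) (hm : h ≤ m)
    (hgJ : range g ∈ J) : EE x h (fun σ => ind J (range x ∪ σ)) = U (h - x) := by
  apply EE_one_kernel hxh
  intro σ hσ
  apply ind_of_mem_kernel
  apply hJ.up _ hgJ
  · intro i hi
    rw [mem_range]
    rcases mem_union.1 hi with hi | hi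
    · rw [mem_range] at hi
      omega
    · have := mem_Ico.1 (hσ hi)
      omega
  · intro i hi
    rw [mem_range] at hi
    exact mem_union_left _ (mem_range.2 (by omega))

theorem Yg_lower {a m w g h : ℕ} (ha : ∀ x, 0 ≤ wt a x) {J : Set (Finset ℕ)} (hJ : IU m J)
    (h1 : ∀ σ ∈ J, ¬ Disjoint σ (range (w + 1))) (hw : w < g) (hg : g ≤ h) (hm : h ≤ m) (hgJ : range g ∈ J) :
    Ls a w h + 2 * Hs a w h - 6 ^ (h - g) * ((∑ x ∈ range (w + 1), wt a x * nn J g x) +
      2 * ∑ x ∈ Ioo w g, wt a x * AA J g x) ≤ 2 * Yg a h (ind J) := by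
  have e1 : ∑ x ∈ range (w + 1), (wt a x * U (h - x) - 6 ^ (h - g) * (wt a x * nn J g x)) ≤
      ∑ x ∈ range (w + 1), 2 * (wt a x * EE x h (fun σ => ind J (range x ∪ σ))) := by
    refine sum_le_sum fun x hx => ?_
    rw [mem_range] at hx
    have := mul_le_mul_of_nonneg_left (low_kernel hJ (x := x) (by omega) hg hm) (ha x)
    linarith
  have e2 : ∑ x ∈ Ioc w h, (2 * (wt a x * U (h - x)) - if x < g then 2 * 6 ^ (h - g) * (wt a x * AA J g x) else 0) ≤
      ∑ x ∈ Ioc w h, 2 * (wt a x * EE x h (fun σ => ind J (range x ∪ σ))) := by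
    refine sum_le_sum fun x hx => ?_
    rw [mem_Ioc] at hx
    split_ifs with hxg
    · have := mul_le_mul_of_nonneg_left (mid_kernel hJ (x := x) hxg hg hm) (ha x)
      linarith
    · rw [high_kernel hJ (by omega) hx.2 hm hgJ]
      linarith
  have e3 : ∑ x ∈ Ioc w h, (if x < g then 2 * 6 ^ (h - g) * (wt a x * AA J g x) else 0) =
      ∑ x ∈ Ioo w g, 2 * 6 ^ (h - g) * (wt a x * AA J g x) := by
    rw [← sum_filter]
    refine sum_congr ?_ fun _ _ => rfl
    ext x
    simp only [mem_filter, mem_Ioc, mem_Ioo]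
    omega
  rw [sum_sub_distrib, ← mul_sum] at e1
  rw [sum_sub_distrib, e3, ← mul_sum, ← mul_sum] at e2
  have e4 : ∑ x ∈ range (w + 1), 2 * (wt a x * EE x h (fun σ => ind J (range x ∪ σ))) =
      2 * ∑ x ∈ range (w + 1), wt a x * EE x h (fun σ => ind J (range x ∪ σ)) := (mul_sum _ _ _).symm
  have e5 : ∑ x ∈ Ioc w h, 2 * (wt a x * EE x h (fun σ => ind J (range x ∪ σ))) =
      2 * ∑ x ∈ Ioc w h, wt a x * EE x h (fun σ => ind J (range x ∪ σ)) := (mul_sum _ _ _).symm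
  rw [e4] at e1
  rw [e5] at e2
  rw [Yg, split_kernel (show w ≤ h by omega), Ls, Hs]
  linarith

theorem N_lower {a m w g : ℕ} (ha : ∀ x, 0 ≤ wt a x) {J : Set (Finset ℕ)} (hJ : IU m J)
    (h1 : ∀ σ ∈ J, ¬ Disjoint σ (range (w + 1))) (hw : w < g) (hg : g ≤ m) :
    2 * ∑ z ∈ Ioo w g, (∑ y ∈ range (w + 1), Ws a y * kap (z - y)) * AA J g z ≤
      ∑ x ∈ range (w + 1), wt a x * nn J g x := by
  have e1 : ∀ z, ∑ y ∈ range (w + 1), Ws a y * kap (z - y) =
      ∑ x ∈ range (w + 1), wt a x * ∑ y ∈ Icc x w, (catalan (y - x) : ℝ) * kap (z - y) := by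
    intro z
    have e2 : ∀ y ∈ range (w + 1), Ws a y * kap (z - y) =
        ∑ x ∈ range (y + 1), wt a x * ((catalan (y - x) : ℝ) * kap (z - y)) := by
      intro y _
      rw [Ws, sum_mul]
      exact sum_congr rfl fun x _ => by ring
    rw [sum_congr rfl e2, sum_comm' (s' := fun x => Icc x w) (t' := range (w + 1))]
    · exact sum_congr rfl fun x _ => (mul_sum _ _ _).symm
    · intro y x
      simp only [mem_range, mem_Icc]
      omega
  have e3 : ∀ z ∈ Ioo w g, (∑ y ∈ range (w + 1), Ws a y * kap (z - y)) * AA J g z =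
      ∑ x ∈ range (w + 1), wt a x * ((∑ y ∈ Icc x w, (catalan (y - x) : ℝ) * kap (z - y)) * AA J g z) := by
    intro z _
    rw [e1 z, sum_mul]
    exact sum_congr rfl fun x _ => by ring
  rw [sum_congr rfl e3, sum_comm, mul_sum]
  refine sum_le_sum fun x hx => ?_
  rw [mem_range] at hx
  have := mul_le_mul_of_nonneg_left (nn_lower hJ h1 hw hg (x := x) (by omega)) (ha x)
  rw [← mul_sum]
  linarith

theorem Xg_le {a m w g : ℕ} (ha : ∀ x, 0 ≤ wt a x) {J : Set (Finset ℕ)} (hJ : IU m J) (hwm : w < m)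
    (h1 : ∀ σ ∈ J, ¬ Disjoint σ (range (w + 1))) (h2 : ∀ σ ∈ J, ¬ σ ⊆ range w) (hg : g ≤ m) :
    Xg a g (ind J) ≤ Xg a g (ind (star w)) := by
  rcases le_or_gt g w with hgw | hgw
  · rw [Xg_low hJ hwm.le h2 hgw, Xg_star_low hgw]
  · have e1 := Xg_eq (a := a) hJ h1 hgw hg
    have e2 := Xg_star (a := a) hgw
    have e3 : 0 ≤ ∑ x ∈ range (w + 1), wt a x * nn J g x :=
      sum_nonneg fun x _ => mul_nonneg (ha x) (nn_nonneg J g x)
    linarith

private theorem Xg_nonneg_kernel {a g : ℕ} (ha : ∀ x, 0 ≤ wt a x) (J : Set (Finset ℕ)) : 0 ≤ Xg a g (ind J) :=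
  sum_nonneg fun x _ => mul_nonneg (ha x) (EE_nonneg fun σ _ => ind_nonneg J σ)

private theorem Yg_nonneg_kernel {a g : ℕ} (ha : ∀ x, 0 ≤ wt a x) (J : Set (Finset ℕ)) : 0 ≤ Yg a g (ind J) :=
  sum_nonneg fun x _ => mul_nonneg (ha x) (EE_nonneg fun σ _ => ind_nonneg J _)

private theorem U_nonneg_kernel (j : ℕ) : 0 ≤ U j := (U_pos j).le

theorem dk {a m w g h : ℕ} (ha : ∀ x, 0 ≤ wt a x) (hgrow : ∀ x < h, 6 * wt a x ≤ wt a (x + 1)) {J : Set (Finset ℕ)} (hJ : IU m J)
    (hwm : w < m) (h1 : ∀ σ ∈ J, ¬ Disjoint σ (range (w + 1))) (h2 : ∀ σ ∈ J, ¬ σ ⊆ range w) (hg : g ≤ h) (hm : h ≤ m) :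
    Xg a g (ind J) * Yg a h (ind (star w)) ≤ Yg a h (ind J) * Xg a g (ind (star w)) := by
  rcases le_or_gt g w with hgw | hgw
  · rw [Xg_low hJ hwm.le h2 hgw, Xg_star_low hgw, zero_mul, mul_zero]
  by_cases hgJ : range g ∈ J
  swap
  · have e0 : Xg a g (ind J) = 0 := by
      refine sum_eq_zero fun x hx => ?_
      rw [mem_range] at hx
      rw [EE_zero_kernel (by omega), mul_zero]
      intro σ hσ
      apply ind_of_notMem_kernel
      intro hσJ
      apply hgJ
      apply hJ.up σ hσJ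
      · intro i hi
        rw [mem_range] at hi ⊢
        omega
      · intro i hi
        have := mem_Ico.1 (hσ hi)
        rw [mem_range]
        omega
    rw [e0, zero_mul]
    exact mul_nonneg (Yg_nonneg_kernel ha J) (Xg_nonneg_kernel ha _)
  have f1 := Xg_eq (a := a) hJ h1 hgw (hg.trans hm)
  have f2 := Yg_star (a := a) (hgw.trans_le hg)
  have f3 := Yg_lower ha hJ h1 hgw hg hm hgJ
  have f4 := Xg_star (a := a) hgw
  have f5 := LH_growth ha hgrow hgw hg
  have f6 := N_lower ha hJ h1 hgw (hg.trans hm)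
  have f7 := key_ineq ha (fun x hx => hgrow x (hx.trans_le hg)) hgw (A := AA J g)
    (fun z => AA_nonneg J g z) (fun x _ hx => AA_super hJ (hg.trans hm) hx)
  have hN : 0 ≤ ∑ x ∈ range (w + 1), wt a x * nn J g x :=
    sum_nonneg fun x _ => mul_nonneg (ha x) (nn_nonneg J g x)
  have hL : 0 ≤ Ls a w g := sum_nonneg fun x _ => mul_nonneg (ha x) (U_nonneg_kernel _)
  have hH : 0 ≤ Hs a w g := sum_nonneg fun x _ => mul_nonneg (ha x) (U_nonneg_kernel _)
  have h6 : (0 : ℝ) ≤ 6 ^ (h - g) := by positivity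
  revert f1 f2 f3 f4 f5 f6 f7 hN hL hH h6
  generalize (∑ x ∈ range (w + 1), wt a x * nn J g x) = N
  generalize (∑ x ∈ Ioo w g, wt a x * AA J g x) = S
  generalize (∑ z ∈ Ioo w g, (∑ y ∈ range (w + 1), Ws a y * kap (z - y)) * AA J g z) = T
  generalize Xg a g (ind J) = XJ
  generalize Yg a h (ind (star w)) = YS
  generalize Yg a h (ind J) = YJ
  generalize Xg a g (ind (star w)) = XS
  generalize Ls a w g = Lg
  generalize Hs a w g = Hg
  generalize Ls a w h = Lh
  generalize Hs a w h = Hh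
  generalize (6 : ℝ) ^ (h - g) = c
  intro f1 f2 f3 f4 f5 f6 f7 hN hL hH h6
  have g1 : S * Lg ≤ N * Hg := by
    have := mul_le_mul_of_nonneg_right f6 hH
    linarith
  have g2 : c * (S * Lg) ≤ c * (N * Hg) := mul_le_mul_of_nonneg_left g1 h6
  have g3 : N * (c * (Lg + 2 * Hg)) ≤ N * (Lh + 2 * Hh) := mul_le_mul_of_nonneg_left f5 hN
  have g4 : (Lh + 2 * Hh - c * (N + 2 * S)) * Lg ≤ 2 * YJ * Lg := mul_le_mul_of_nonneg_right f3 hL
  have g5 : (2 * XJ) * (2 * YS) = (Lg - N) * (Lh + 2 * Hh) := by rw [f1, f2]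
  have g6 : (2 * YJ) * (2 * XS) = 2 * YJ * Lg := by rw [f4]
  nlinarith

end Pool.Agent.ProfDK
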