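import Pool.Agent.Lib_MP_05ae4a_co.MainB
import Pool.Agent.Lib_MP_05ae4a_op.Bridge

/-! # Profiles, the list of points (MP_05ae4a_co, linear regime) -/

namespace Pool.Agent.ProfDK
open Finset Pool.Agent.ProfSR Pool.Agent.ProfOP

/-- profile vector; `plev F k` is the number of `k`-element members of `F` -/
noncomputable def prof (n : ℕ) (F : Finset (Finset (Fin n))) : Fin (n + 1) → ℝ := fun k => (plev F (k : ℕ) : ℝ)

/-- profiles of `t`-intersecting families -/
def PP (n t : ℕ) : Set (Fin (n + 1) → ℝ) :=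
  {p | ∃ F : Finset (Finset (Fin n)), (∀ A ∈ F, ∀ B ∈ F, t ≤ (A ∩ B).card) ∧ p = prof n F}

/-- the pairs `(m, r)` of the list; the family is `Gf n t r (t + m)` -/
def InL (n t m r : ℕ) : Prop :=
  r ≤ m ∧ t + 2 * m ≤ n ∧ (r = m ∨ (m + 1) * (t + 2 * r + 1) < (r + 1) * n)

end Pool.Agent.ProfDK
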