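import Pool.Agent.Lib_MP_05ae4a_dk.ListSup

/-! # Restricted profiles: only the sizes `s ≤ s0` and `s ≥ n + t - 1 - s0` -/

namespace Pool.Agent.ProfDK
open Finset Pool.Agent.ProfSR Pool.Agent.ProfOP

/-- the sizes that are looked at -/
def Win (n t s0 s : ℕ) : Prop := s ≤ s0 ∨ n + t ≤ s + s0 + 1

open Classical in
/-- the restricted vector -/
noncomputable def trp (n t s0 : ℕ) (p : Fin (n + 1) → ℝ) : Fin (n + 1) → ℝ :=
  fun k => if Win n t s0 k then p k else 0

/-- restricted profiles of `t`-intersecting families -/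
def PT (n t s0 : ℕ) : Set (Fin (n + 1) → ℝ) :=
  {p | ∃ F : Finset (Finset (Fin n)), (∀ A ∈ F, ∀ B ∈ F, t ≤ (A ∩ B).card) ∧ p = trp n t s0 (prof n F)}

end Pool.Agent.ProfDK
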