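import Pool.Agent.Lib_MP_05ae4a_dk.ListDefs

/-! # Piece L1: sizes of the levels

`Fr n t r` = sets with at least `t + r` of the first `u = t + 2r` elements; `Gf n t r k` = members of `Fr n t r` with at least `k` elements, and all sets with at least
`n + t - k` elements.  Complements: `A` of size `s` is NOT in `Fr` iff `Aᶜ` (size `n - s`) has at least `r + 1` elements in the first `u`.
* `fr_low`: a member has at least `t + r` elements.  `fr_full`: `|Aᶜ| ≤ r` implies `A ∈ Fr`.
* `fr_bot`: the members of size `t + r` are the `(t+r)`-subsets of the first `u` elements.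
* `fr_top`: the sets of size `n - r - 1` not in `Fr`: their complement is an `(r+1)`-subset of the first `u` elements.
* `fr_step`: `v = n - u - 2`.  `Fr (r+1) \ Fr r`: exactly `t + r - 1` of the first `u` and both next elements; `Fr r \ Fr (r+1)`: exactly `t + r` of the first `u` and none of the next
  two.  At size `t + r + j`: `C(u, t+r-1) C(v, j-1)` resp. `C(u, t+r) C(v, j)`; `C(u, t+r-1) = C(u, r+1)`, `C(u, t+r) = C(u, r)`.
  (Alternatively: `plev (Fr n t r) s = ∑_{i ≥ t+r} C(u,i) C(n-u, s-i)`, see `profile_frankl`, `card_level` in `Results/MP_05ae4a_co/FranklPoints.lean`, and Pascal twice.)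
* `gf_lev`: `k ≤ s < n+t-k`: same as `Fr`.
* `fr_mono`: `u = t+2r`, `s = t + r + j`, `j ≥ m - r ≥ 1`: by `fr_step` it is `C(u,r) C(v,j) ≤ C(u,r+1) C(v,j-1)`; `(r+1) C(u,r+1) = (t+r) C(u,r)`, `j C(v,j) = (v-j+1) C(v,j-1)`: enough
  `(r+1)(v-j+1) ≤ (t+r) j` (for `j ≤ v + 1`; otherwise `C(v,j) = 0`), i.e. `(r+1)(n-t-2r-1-j) ≤ (t+r) j`, i.e. `(r+1)(n-t-2r-1) ≤ (t+2r+1) j`; for `j = m - r` this is
  `(r+1) n ≤ (m+1)(t+2r+1)` (`(r+1)(t+2r+1) + (m-r)(t+2r+1) = (m+1)(t+2r+1)`). -/

namespace Pool.Agent.ProfDK
open Finset Pool.Agent.ProfSR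

private def cvL (a : ℕ → ℕ) (m s : ℕ) : ℕ := ∑ i ∈ range (s + 1), a i * m.choose (s - i)

private def shL (a : ℕ → ℕ) (i : ℕ) : ℕ := if i = 0 then 0 else a (i - 1)

private theorem cvL_succ (a : ℕ → ℕ) (m s : ℕ) :
    cvL a (m + 1) s = cvL (fun i => a i + shL a i) m s := by
  cases s with
  | zero => simp [cvL, shL]
  | succ s =>
    unfold cvL
    have h1 : ∑ i ∈ range (s + 1 + 1), a i * (m + 1).choose (s + 1 - i) =
        ∑ i ∈ range (s + 1), (a i * m.choose (s - i) + a i * m.choose (s + 1 - i)) + a (s + 1) := by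
      rw [sum_range_succ, Nat.sub_self, Nat.choose_zero_right, mul_one]
      congr 1
      refine sum_congr rfl fun i hi => ?_
      rw [mem_range] at hi
      rw [show s + 1 - i = (s - i) + 1 by omega, Nat.choose_succ_succ]
      ring
    have h2 : ∑ i ∈ range (s + 1 + 1), shL a i * m.choose (s + 1 - i) =
        ∑ i ∈ range (s + 1), a i * m.choose (s - i) := by
      rw [sum_range_succ']
      simp [shL]
    have h3 : ∑ i ∈ range (s + 1 + 1), a i * m.choose (s + 1 - i) =
        ∑ i ∈ range (s + 1), a i * m.choose (s + 1 - i) + a (s + 1) := by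
      rw [sum_range_succ, Nat.sub_self, Nat.choose_zero_right, mul_one]
    have h4 : ∑ i ∈ range (s + 1 + 1), (a i + shL a i) * m.choose (s + 1 - i) =
        ∑ i ∈ range (s + 1 + 1), a i * m.choose (s + 1 - i) +
          ∑ i ∈ range (s + 1 + 1), shL a i * m.choose (s + 1 - i) := by
      rw [← sum_add_distrib]
      exact sum_congr rfl fun i _ => add_mul _ _ _
    rw [h1, h4, h2, h3, sum_add_distrib]
    ring

private theorem cvL_add (a b : ℕ → ℕ) (m s : ℕ) :
    cvL (fun i => a i + b i) m s = cvL a m s + cvL b m s := by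
  unfold cvL
  rw [← sum_add_distrib]
  exact sum_congr rfl fun i _ => add_mul _ _ _

private theorem cvL_single (k c m s : ℕ) :
    cvL (fun i => if i = k then c else 0) m s = if k ≤ s then c * m.choose (s - k) else 0 := by
  unfold cvL
  by_cases h : k ≤ s
  · rw [if_pos h, sum_eq_single k]
    · beta_reduce
      rw [if_pos rfl]
    · intro i _ hi
      beta_reduce
      rw [if_neg hi, zero_mul]
    · intro hk
      exact absurd (mem_range.2 (by omega)) hk
  · rw [if_neg h]
    refine sum_eq_zero fun i hi => ?_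
    rw [mem_range] at hi
    beta_reduce
    rw [if_neg (by omega), zero_mul]

private theorem cardLevel_ListNum {n : ℕ} (I : Finset (Fin n)) (k i : ℕ) (hik : i ≤ k) :
    (Finset.univ.filter (fun A : Finset (Fin n) => A.card = k ∧ (A ∩ I).card = i)).card =
      I.card.choose i * (n - I.card).choose (k - i) := by
  have hc : (Iᶜ).card = n - I.card := by rw [Finset.card_compl, Fintype.card_fin]
  rw [← hc, ← Finset.card_powersetCard i I, ← Finset.card_powersetCard (k - i) Iᶜ,
    ← Finset.card_product]
  refine Finset.card_bij (fun A _ => (A ∩ I, A \ I)) ?_ ?_ ?_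
  · intro A hA
    rw [Finset.mem_filter] at hA
    obtain ⟨_, h1, h2⟩ := hA
    have h3 : (A ∩ I).card + (A \ I).card = A.card := Finset.card_inter_add_card_sdiff A I
    rw [Finset.mem_product, Finset.mem_powersetCard, Finset.mem_powersetCard]
    refine ⟨⟨Finset.inter_subset_right, h2⟩,
      ⟨fun x hx => Finset.mem_compl.2 (Finset.mem_sdiff.1 hx).2, ?_⟩⟩
    show (A \ I).card = k - i
    omega
  · intro A _ B _ hAB
    simp only [Prod.mk.injEq] at hAB
    ext x
    have h1 := Finset.ext_iff.1 hAB.1 x
    have h2 := Finset.ext_iff.1 hAB.2 x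
    by_cases hx : x ∈ I
    · simpa [hx] using h1
    · simpa [hx] using h2
  · rintro ⟨S, T⟩ hST
    rw [Finset.mem_product, Finset.mem_powersetCard, Finset.mem_powersetCard] at hST
    obtain ⟨⟨h1, h2⟩, h3, h4⟩ := hST
    simp only at h1 h2 h3 h4
    have hTI : ∀ x ∈ T, x ∉ I := fun x hx => Finset.mem_compl.1 (h3 hx)
    have hd : Disjoint S T := by
      rw [Finset.disjoint_left]
      intro x hx hxT
      exact hTI x hxT (h1 hx)
    have e1 : (S ∪ T) ∩ I = S := by
      ext x
      simp only [Finset.mem_inter, Finset.mem_union]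
      constructor
      · rintro ⟨hx | hx, hxI⟩
        · exact hx
        · exact absurd hxI (hTI x hx)
      · intro hx
        exact ⟨Or.inl hx, h1 hx⟩
    have e2 : (S ∪ T) \ I = T := by
      ext x
      simp only [Finset.mem_sdiff, Finset.mem_union]
      constructor
      · rintro ⟨hx | hx, hxI⟩
        · exact absurd (h1 hx) hxI
        · exact hx
      · intro hx
        exact ⟨Or.inr hx, hTI x hx⟩
    refine ⟨S ∪ T, ?_, by rw [e1, e2]⟩
    rw [Finset.mem_filter, e1, Finset.card_union_of_disjoint hd, h2, h4]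
    exact ⟨Finset.mem_univ _, by omega, rfl⟩

private theorem cardI_ListNum {n m : ℕ} (h : m ≤ n) :
    (univ.filter (fun x : Fin n => (x : ℕ) < m)).card = m := by
  rw [Fin.card_filter_val_lt, min_eq_right h]

private theorem filtI_ListNum {n m : ℕ} (A : Finset (Fin n)) :
    A.filter (fun x : Fin n => (x : ℕ) < m) = A ∩ univ.filter (fun x : Fin n => (x : ℕ) < m) := by
  ext x
  simp only [mem_inter, mem_filter, mem_univ, true_and]

private theorem lev_ListNum {n t r : ℕ} (h : t + 2 * r ≤ n) (s : ℕ) :
    plev (Fr n t r) s =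
      cvL (fun i => if t + r ≤ i then (t + 2 * r).choose i else 0) (n - (t + 2 * r)) s := by
  obtain ⟨I, hI⟩ : ∃ I : Finset (Fin n), I = Finset.univ.filter (fun x : Fin n => (x : ℕ) < t + 2 * r) :=
    ⟨_, rfl⟩
  have hIc : I.card = t + 2 * r := by rw [hI]; exact cardI_ListNum h
  have hcov : (Fr n t r).filter (fun A => A.card = s) =
      ((range (s + 1)).filter (fun i => t + r ≤ i)).biUnion (fun i =>
        Finset.univ.filter (fun A : Finset (Fin n) => A.card = s ∧ (A ∩ I).card = i)) := by
    ext A
    simp only [Fr, Finset.mem_filter, Finset.mem_univ, true_and, Finset.mem_biUnion,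
      Finset.mem_range, filtI_ListNum, ← hI]
    constructor
    · rintro ⟨h1, h2⟩
      refine ⟨(A ∩ I).card, ⟨?_, h1⟩, h2, rfl⟩
      have := Finset.card_le_card (Finset.inter_subset_left (s₁ := A) (s₂ := I))
      omega
    · rintro ⟨i, ⟨h1, h2⟩, h3, h4⟩
      exact ⟨by omega, h3⟩
  unfold plev
  rw [hcov, Finset.card_biUnion]
  · unfold cvL
    rw [Finset.sum_filter]
    refine Finset.sum_congr rfl (fun i hi => ?_)
    rw [Finset.mem_range] at hi
    by_cases hti : t + r ≤ i
    · simp only [if_pos hti]
      rw [cardLevel_ListNum I s i (by omega), hIc]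
    · simp only [if_neg hti]
      rw [zero_mul]
  · intro i _ j _ hij
    rw [Function.onFun, Finset.disjoint_left]
    intro A hA hA'
    rw [Finset.mem_filter] at hA hA'
    exact hij (hA.2.2.symm.trans hA'.2.2)

private theorem all_ListNum (n s : ℕ) :
    ((univ : Finset (Finset (Fin n))).filter (fun A => A.card = s)).card = n.choose s := by
  have h1 : (univ : Finset (Finset (Fin n))).filter (fun A => A.card = s) = powersetCard s univ := by
    ext A
    simp only [mem_filter, mem_univ, true_and, mem_powersetCard, subset_univ]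
  rw [h1, card_powersetCard, card_univ, Fintype.card_fin]

private theorem choose_ListNum (t r : ℕ) : (t + 2 * r).choose (t + r) = (t + 2 * r).choose r :=
  Nat.choose_symm_of_eq_add (by omega)

private theorem choose2_ListNum {t : ℕ} (ht : 1 ≤ t) (r : ℕ) :
    (t + 2 * r).choose (t + r - 1) = (t + 2 * r).choose (r + 1) :=
  Nat.choose_symm_of_eq_add (by omega)

private theorem vander_ListNum {n u : ℕ} (h : u ≤ n) (s : ℕ) :
    cvL (fun i => u.choose i) (n - u) s = n.choose s := by
  have h1 : n = u + (n - u) := by omega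
  conv_rhs => rw [h1]
  rw [Nat.add_choose_eq, Finset.Nat.sum_antidiagonal_eq_sum_range_succ_mk]
  rfl

theorem fr_low {n t r s : ℕ} (hs : s < t + r) : plev (Fr n t r) s = 0 := by
  unfold plev
  rw [card_eq_zero, filter_eq_empty_iff]
  intro A hA hs'
  have h1 := (mem_filter.1 hA).2
  have h2 := card_le_card (filter_subset (fun x : Fin n => (x : ℕ) < t + 2 * r) A)
  omega

theorem fr_full {n t r s : ℕ} (h : t + 2 * r ≤ n) (hs : n ≤ s + r) : plev (Fr n t r) s = n.choose s := by
  have h1 : (Fr n t r).filter (fun A => A.card = s) = univ.filter (fun A => A.card = s) := by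
    ext A
    simp only [Fr, mem_filter, mem_univ, true_and, and_iff_right_iff_imp]
    intro hA
    rw [filtI_ListNum]
    have h2 := card_union_add_card_inter A (univ.filter (fun x : Fin n => (x : ℕ) < t + 2 * r))
    rw [cardI_ListNum h] at h2
    have h3 := card_le_univ (A ∪ univ.filter (fun x : Fin n => (x : ℕ) < t + 2 * r))
    rw [Fintype.card_fin] at h3
    omega
  unfold plev
  rw [h1, all_ListNum]

theorem fr_bot {n t r : ℕ} (h : t + 2 * r ≤ n) : plev (Fr n t r) (t + r) = (t + 2 * r).choose r := by
  rw [lev_ListNum h]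
  unfold cvL
  rw [sum_eq_single (t + r)]
  · beta_reduce
    rw [if_pos le_rfl, Nat.sub_self, Nat.choose_zero_right, mul_one, choose_ListNum]
  · intro i hi hne
    rw [mem_range] at hi
    beta_reduce
    rw [if_neg (by omega), zero_mul]
  · intro hk
    exact absurd (mem_range.2 (by omega)) hk

theorem fr_top {n t r : ℕ} (ht : 1 ≤ t) (h : t + 2 * r ≤ n) :
    plev (Fr n t r) (n - r - 1) + (t + 2 * r).choose (r + 1) = n.choose (r + 1) := by
  have h1 : (fun i => (t + 2 * r).choose i) = fun i => (if t + r ≤ i then (t + 2 * r).choose i else 0) +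
      (if t + r ≤ i then 0 else (t + 2 * r).choose i) := by
    funext i
    by_cases hi : t + r ≤ i
    · rw [if_pos hi, if_pos hi, add_zero]
    · rw [if_neg hi, if_neg hi, zero_add]
  have h2 := vander_ListNum h (n - r - 1)
  rw [h1, cvL_add, ← lev_ListNum h] at h2
  have h3 : cvL (fun i => if t + r ≤ i then 0 else (t + 2 * r).choose i) (n - (t + 2 * r)) (n - r - 1) =
      (t + 2 * r).choose (r + 1) := by
    unfold cvL
    rw [sum_eq_single (t + r - 1)]
    · beta_reduce
      rw [if_neg (by omega), show n - r - 1 - (t + r - 1) = n - (t + 2 * r) by omega,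
        Nat.choose_self, mul_one, choose2_ListNum ht]
    · intro i hi hne
      rw [mem_range] at hi
      beta_reduce
      by_cases hti : t + r ≤ i
      · rw [if_pos hti, zero_mul]
      · rw [Nat.choose_eq_zero_of_lt (show n - (t + 2 * r) < n - r - 1 - i by omega), mul_zero]
    · intro hk
      exact absurd (mem_range.2 (by omega)) hk
  rw [h3] at h2
  rw [h2]
  exact Nat.choose_symm_of_eq_add (by omega)

theorem fr_step {n t r : ℕ} (ht : 1 ≤ t) (h : t + 2 * r + 2 ≤ n) (j : ℕ) :
    plev (Fr n t (r + 1)) (t + r + j) + (t + 2 * r).choose r * (n - t - 2 * r - 2).choose j =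
      plev (Fr n t r) (t + r + j) +
        (t + 2 * r).choose (r + 1) * (if j = 0 then 0 else (n - t - 2 * r - 2).choose (j - 1)) := by
  have hv : n - (t + 2 * r) = n - t - 2 * r - 2 + 1 + 1 := by omega
  have hv' : n - (t + 2 * (r + 1)) = n - t - 2 * r - 2 := by omega
  rw [lev_ListNum (show t + 2 * (r + 1) ≤ n by omega), lev_ListNum (show t + 2 * r ≤ n by omega),
    hv, hv', cvL_succ, cvL_succ]
  have e1 : (t + 2 * r).choose r * (n - t - 2 * r - 2).choose j =
      cvL (fun i => if i = t + r then (t + 2 * r).choose r else 0) (n - t - 2 * r - 2) (t + r + j) := by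
    rw [cvL_single, if_pos (by omega), show t + r + j - (t + r) = j by omega]
  have e2 : (t + 2 * r).choose (r + 1) * (if j = 0 then 0 else (n - t - 2 * r - 2).choose (j - 1)) =
      cvL (fun i => if i = t + r + 1 then (t + 2 * r).choose (r + 1) else 0) (n - t - 2 * r - 2)
        (t + r + j) := by
    rw [cvL_single]
    by_cases hj : j = 0
    · rw [if_pos hj, if_neg (by omega), mul_zero]
    · rw [if_neg hj, if_pos (by omega), show t + r + j - (t + r + 1) = j - 1 by omega]
  rw [e1, e2, ← cvL_add, ← cvL_add]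
  congr 1
  funext i
  rcases i with _ | _ | i
  · simp only [shL, if_true]
    rw [if_neg (by omega), if_neg (by omega), if_neg (by omega), if_neg (by omega)]
  · simp only [shL, Nat.zero_add, Nat.sub_self, if_true, if_neg (one_ne_zero)]
    rw [if_neg (show ¬ (t + (r + 1) ≤ 1) by omega), if_neg (show ¬ (t + r ≤ 0) by omega),
      if_neg (show ¬ (1 = t + r + 1) by omega)]
    by_cases h1 : 1 = t + r
    · rw [if_pos h1, if_pos (by omega)]
      have h2 : t = 1 := by omega
      have h3 : r = 0 := by omega
      subst h2 h3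
      rfl
    · rw [if_neg h1, if_neg (by omega)]
  · simp only [shL, if_neg (show ¬ (i + 1 + 1 = 0) by omega), Nat.add_sub_cancel,
      if_neg (show ¬ (i + 1 = 0) by omega)]
    have hp : (t + 2 * (r + 1)).choose (i + 1 + 1) =
        (t + 2 * r).choose (i + 1 + 1) + 2 * (t + 2 * r).choose (i + 1) + (t + 2 * r).choose i := by
      rw [show t + 2 * (r + 1) = t + 2 * r + 1 + 1 by omega, Nat.choose_succ_succ,
        Nat.choose_succ_succ, Nat.choose_succ_succ (t + 2 * r) (i + 1)]
      ring
    rw [hp]
    rcases lt_trichotomy (i + 1 + 1) (t + r) with h1 | h1 | h1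
    · rw [if_neg (by omega), if_neg (by omega), if_neg (by omega), if_neg (by omega), if_neg (by omega),
        if_neg (by omega)]
    · rw [if_neg (by omega), if_pos h1, if_pos (by omega), if_neg (by omega), if_neg (by omega),
        if_neg (by omega), h1, choose_ListNum]
      ring
    · rcases (show i + 1 + 1 = t + r + 1 ∨ t + r + 1 < i + 1 + 1 by omega) with h2 | h2
      · rw [if_pos (by omega), if_neg (by omega), if_pos (by omega), if_pos (by omega),
          if_neg (by omega), if_pos h2, ← choose2_ListNum ht r, show t + r - 1 = i by omega]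
        ring
      · rw [if_pos (by omega), if_neg (by omega), if_pos (by omega), if_pos (by omega),
          if_pos (by omega), if_neg (by omega)]
        ring

theorem gf_lev {n t r k : ℕ} (hk : 2 * k ≤ n + t) (s : ℕ) :
    plev (Gf n t r k) s = if n + t ≤ s + k then n.choose s else if s < k then 0 else plev (Fr n t r) s := by
  by_cases h1 : n + t ≤ s + k
  · rw [if_pos h1, ← all_ListNum]
    unfold plev
    congr 1
    ext A
    simp only [Gf, mem_filter, mem_univ, true_and, and_iff_right_iff_imp]
    intro hA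
    right
    omega
  · rw [if_neg h1]
    by_cases h2 : s < k
    · rw [if_pos h2]
      unfold plev
      rw [card_eq_zero, filter_eq_empty_iff]
      intro A hA hs
      rcases (mem_filter.1 hA).2 with h3 | h3
      · omega
      · omega
    · rw [if_neg h2]
      unfold plev
      congr 1
      ext A
      simp only [Gf, Fr, mem_filter, mem_univ, true_and, and_congr_left_iff]
      intro hA
      constructor
      · rintro (h3 | h3)
        · exact h3.1
        · omega
      · intro h3
        left
        exact ⟨h3, by omega⟩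

theorem fr_mono {n t r m s : ℕ} (ht : 1 ≤ t) (hm : t + 2 * m ≤ n) (hr : r < m)
    (h : (r + 1) * n ≤ (m + 1) * (t + 2 * r + 1)) (hs : t + m ≤ s) :
    plev (Fr n t r) s ≤ plev (Fr n t (r + 1)) s := by
  obtain ⟨j, hj⟩ : ∃ j, s = t + r + (j + 1) := ⟨s - (t + r) - 1, by omega⟩
  have key := fr_step ht (show t + 2 * r + 2 ≤ n by omega) (j + 1)
  rw [← hj, if_neg (by omega), Nat.add_sub_cancel] at key
  suffices hs : (t + 2 * r).choose r * (n - t - 2 * r - 2).choose (j + 1) ≤
      (t + 2 * r).choose (r + 1) * (n - t - 2 * r - 2).choose j by omega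
  have e1 := Nat.choose_succ_right_eq (t + 2 * r) r
  have e2 := Nat.choose_succ_right_eq (n - t - 2 * r - 2) j
  rw [show t + 2 * r - r = t + r by omega] at e1
  have hk : (n - t - 2 * r - 2 - j) * (r + 1) ≤ (t + r) * (j + 1) := by
    rcases le_or_gt (n - t - 2 * r - 2) j with h0 | h0
    · rw [Nat.sub_eq_zero_of_le h0, zero_mul]
      exact Nat.zero_le _
    · obtain ⟨d, hd⟩ : ∃ d, m = r + 1 + d := ⟨m - r - 1, by omega⟩
      obtain ⟨v, hv⟩ : ∃ v, n = t + 2 * r + 2 + j + v := ⟨n - (t + 2 * r + 2 + j), by omega⟩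
      have hdj : d ≤ j := by omega
      rw [show n - t - 2 * r - 2 - j = v by omega]
      subst hd hv
      have h4 : (t + 2 * r + 1) * d ≤ (t + 2 * r + 1) * j := Nat.mul_le_mul_left _ hdj
      nlinarith [h, h4]
  have hpos : 0 < (j + 1) * (r + 1) := by positivity
  refine Nat.le_of_mul_le_mul_right (c := (j + 1) * (r + 1)) ?_ hpos
  calc (t + 2 * r).choose r * (n - t - 2 * r - 2).choose (j + 1) * ((j + 1) * (r + 1))
      = (t + 2 * r).choose r * ((n - t - 2 * r - 2).choose (j + 1) * (j + 1)) * (r + 1) := by ring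
    _ = (t + 2 * r).choose r * (n - t - 2 * r - 2).choose j * ((n - t - 2 * r - 2 - j) * (r + 1)) := by
        rw [e2]; ring
    _ ≤ (t + 2 * r).choose r * (n - t - 2 * r - 2).choose j * ((t + r) * (j + 1)) :=
        Nat.mul_le_mul_left _ hk
    _ = (t + 2 * r).choose r * (t + r) * ((n - t - 2 * r - 2).choose j * (j + 1)) := by ring
    _ = (t + 2 * r).choose (r + 1) * (n - t - 2 * r - 2).choose j * ((j + 1) * (r + 1)) := by
        rw [← e1]; ring

end Pool.Agent.ProfDK
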