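import Pool.Agent.Lib_MP_05ae4a_dk.ListNum

/-! # Piece L2: every essential extreme point is in the list

`PP_*`: as `P_finite`, `P_nonneg`, `P_zer`, `sum_profile` in `Results/MP_05ae4a_co/StatusChains.lean` (do NOT import files of `Results`).
`list_sub`: `unique_of_ess` gives positive weights `α` for which `p` is the only maximizer on `PP n t`.  `p` is the profile of a `t`-intersecting family `F`; `claim` with `lw α` gives `(r, k)` with
`val α p ≤ val α (prof n (Gf n t r k))`, and `Gf n t r k` is `t`-intersecting (`Gf_inter`), so `p = prof n (Gf n t r k)`.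
If `k ≤ t + r`: `prof n (Gf n t r k) = prof n (Gf n t r (t+r))` (`gf_lev`, `fr_low`, `fr_full`): `m = r`.
If `k = t + m`, `r < m`: then `t + 2m ≤ n` (`2k ≤ n + t`).  By induction on `m - r`: if `(m+1)(t+2r+1) < (r+1) n` done; otherwise by `fr_mono` and `gf_lev`
`p ≤ prof n (Gf n t (r+1) k)`, whose value is at least that of `p` (`α > 0`), so by uniqueness `p = prof n (Gf n t (r+1) k)`; continue with `r+1` (for `r + 1 = m` done). -/

namespace Pool.Agent.ProfDK
open Finset Pool.Agent.ProfSR Pool.Agent.ProfOP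
open Pool.Agent.ProfEP (zer)

theorem PP_finite (n t : ℕ) : (PP n t).Finite := by
  refine (Set.finite_range (fun F : Finset (Finset (Fin n)) => prof n F)).subset ?_
  rintro p ⟨F, _, rfl⟩
  exact ⟨F, rfl⟩

theorem PP_nonempty (n t : ℕ) : (PP n t).Nonempty :=
  ⟨prof n ∅, ∅, fun _ hA => absurd hA (notMem_empty _), rfl⟩

theorem PP_nonneg {n t : ℕ} : ∀ p ∈ PP n t, 0 ≤ p := by
  rintro p ⟨F, _, rfl⟩ k
  exact Nat.cast_nonneg _

theorem PP_zer {n t : ℕ} : ∀ p ∈ PP n t, ∀ S : Finset (Fin (n + 1)), zer S p ∈ PP n t := by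
  rintro p ⟨F, hF, rfl⟩ S
  refine ⟨F.filter (fun A => ∃ k ∈ S, A.card = (k : ℕ)), ?_, ?_⟩
  · intro A hA B hB
    exact hF A (Finset.mem_filter.1 hA).1 B (Finset.mem_filter.1 hB).1
  · funext k
    unfold zer prof plev
    rw [Finset.filter_filter]
    split_ifs with hk
    · congr 2
      ext A
      simp only [Finset.mem_filter]
      constructor
      · rintro ⟨h1, h2⟩
        exact ⟨h1, ⟨k, hk, h2⟩, h2⟩
      · rintro ⟨h1, _, h2⟩
        exact ⟨h1, h2⟩
    · symm
      rw [Nat.cast_eq_zero, Finset.card_eq_zero, Finset.filter_eq_empty_iff]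
      rintro A _ ⟨⟨k', hk', h1⟩, h2⟩
      exact hk ((Fin.ext (h1.symm.trans h2) : k' = k) ▸ hk')

theorem sum_prof {n : ℕ} (α : Fin (n + 1) → ℝ) (F : Finset (Finset (Fin n))) :
    ∑ A ∈ F, lw α A.card = val α (prof n F) := by
  rw [lw_sum]
  rfl

private theorem gf_top_ListSub {n t r k : ℕ} (h : t + 2 * r ≤ n) (hk : k ≤ t + r) :
    prof n (Gf n t r k) = prof n (Gf n t r (t + r)) := by
  funext i
  unfold prof
  rw [gf_lev (by omega), gf_lev (by omega)]
  have hi : (i : ℕ) ≤ n := Nat.lt_succ_iff.1 i.2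
  congr 1
  by_cases h1 : n + t ≤ (i : ℕ) + k
  · rw [if_pos h1, if_pos (by omega)]
  · rw [if_neg h1]
    by_cases h2 : n + t ≤ (i : ℕ) + (t + r)
    · rw [if_pos h2, if_neg (by omega)]
      exact fr_full h (by omega)
    · rw [if_neg h2]
      by_cases h3 : (i : ℕ) < k
      · rw [if_pos h3, if_pos (by omega)]
      · rw [if_neg h3]
        by_cases h4 : (i : ℕ) < t + r
        · rw [if_pos h4]
          exact fr_low h4
        · rw [if_neg h4]

private theorem val_mono_ListSub {m : ℕ} {α p q : Fin m → ℝ} (hα : ∀ i, 0 < α i) (hpq : p ≤ q) :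
    val α p ≤ val α q := by
  unfold ProfOP.val
  exact sum_le_sum fun i _ => mul_le_mul_of_nonneg_left (hpq i) (hα i).le

private theorem gf_mono_ListSub {n t r m : ℕ} (ht : 1 ≤ t) (hm : t + 2 * m ≤ n) (hr : r < m)
    (h : (r + 1) * n ≤ (m + 1) * (t + 2 * r + 1)) :
    prof n (Gf n t r (t + m)) ≤ prof n (Gf n t (r + 1) (t + m)) := by
  intro i
  unfold prof
  rw [gf_lev (by omega), gf_lev (by omega)]
  rw [Nat.cast_le]
  split_ifs with h1 h2
  · exact le_rfl
  · exact le_rfl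
  · exact fr_mono ht hm hr h (by omega)

private theorem ind_ListSub {n t m : ℕ} (ht : 1 ≤ t) (hm : t + 2 * m ≤ n) {α p : Fin (n + 1) → ℝ}
    (hα : ∀ i, 0 < α i) (hmax : ∀ q ∈ PP n t, q ≠ p → val α q < val α p) :
    ∀ d r : ℕ, m = r + d → p = prof n (Gf n t r (t + m)) →
      ∃ r', InL n t m r' ∧ p = prof n (Gf n t r' (t + m)) := by
  intro d
  induction d with
  | zero =>
    intro r hr hp
    exact ⟨r, ⟨by omega, hm, Or.inl (by omega)⟩, hp⟩
  | succ d ih =>
    intro r hr hp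
    by_cases h : (m + 1) * (t + 2 * r + 1) < (r + 1) * n
    · exact ⟨r, ⟨by omega, hm, Or.inr h⟩, hp⟩
    · have h1 := gf_mono_ListSub ht hm (show r < m by omega) (not_lt.1 h)
      rw [← hp] at h1
      have h2 := val_mono_ListSub hα h1
      refine ih (r + 1) (by omega) ?_
      by_contra hne
      exact absurd (hmax (prof n (Gf n t (r + 1) (t + m)))
        ⟨_, Gf_inter (by omega), rfl⟩ (fun h => hne h.symm)) (not_lt.2 h2)

theorem list_sub {n t : ℕ} (ht : 1 ≤ t)
    (claim : ∀ α : ℕ → ℝ, (∀ i, 0 ≤ α i) → ∀ F : Finset (Finset (Fin n)), (∀ A ∈ F, ∀ B ∈ F, t ≤ (A ∩ B).card) →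
      ∃ r k, t + 2 * r ≤ n ∧ 2 * k ≤ n + t ∧ ∑ A ∈ F, α A.card ≤ ∑ A ∈ Gf n t r k, α A.card)
    {p : Fin (n + 1) → ℝ} (hp : p ∈ Ess (PP n t)) :
    ∃ m r, InL n t m r ∧ p = prof n (Gf n t r (t + m)) := by
  obtain ⟨α, hα, hmax⟩ := unique_of_ess (PP_finite n t) PP_nonneg PP_zer hp
  obtain ⟨F, hF, hpF⟩ := extremePoints_convexHull_subset hp.1
  have hlw : ∀ i, 0 ≤ lw α i := by
    intro i
    unfold lw
    split_ifs
    · exact (hα _).le
    · exact le_rfl
  obtain ⟨r, k, hr, hk, hle⟩ := claim (lw α) hlw F hF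
  rw [sum_prof, sum_prof, ← hpF] at hle
  have hpe : p = prof n (Gf n t r k) := by
    by_contra hne
    exact absurd (hmax (prof n (Gf n t r k)) ⟨_, Gf_inter hk, rfl⟩ (fun h => hne h.symm)) (not_lt.2 hle)
  rcases le_or_gt k (t + r) with h1 | h1
  · refine ⟨r, r, ⟨le_rfl, hr, Or.inl rfl⟩, ?_⟩
    rw [hpe]
    exact gf_top_ListSub hr h1
  · obtain ⟨m, rfl⟩ : ∃ m, k = t + m := ⟨k - t, by omega⟩
    obtain ⟨r', h2, h3⟩ := ind_ListSub ht (show t + 2 * m ≤ n by omega) hα hmax (m - r) r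
      (by omega) hpe
    exact ⟨m, r', h2, h3⟩

end Pool.Agent.ProfDK
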