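import Pool.Agent.Lib_MP_05ae4a_dk.ListDefsT

/-! # Piece L2T: essential extreme points of the restricted profiles are in the list (copy and adapt `ListSub.lean`)

`trp n t s0 p = zer (univ.filter Win) p`, so `PT_*` follow from `PP_*` (`zer S (zer T p) = zer T (zer S p)`).
`sum_profT`: the weights `lw α` cut off outside of `Win`.
`trp_top`: let `s0 + 1 ≤ k`, `2k ≤ n + t`.  Then `trp (prof (Gf n t r k))` does not depend on `r` nor on `k`: sizes `s ≤ s0` (`< k`, and `s + k < n + t`) give `0`, sizes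
`s ≥ n + t - 1 - s0` (`s + k ≥ n + t`) give `C(n,s)` (`gf_lev`).  So it is equal to the one with `k = s0 + 1` (note `2 (s0+1) ≤ 2k ≤ n + t`).
`list_subT`: `unique_of_ess` for `PT`, `claim` for the cut weights; `p = trp (prof (Gf n t r k))`.
 `k ≤ t + r`: replace `k` by `t + r` (`prof` does not change, see `gf_top` in `ListSub.lean`); if `t + r ≤ s0 + 1`: `m = r`; otherwise `trp_top` (with `k = t + r`): `m = r = s0 + 1 - t`.
 `k = t + m`, `r < m`: if `s0 + 1 < t + m`: `trp_top`, again the point of `m = r = s0 + 1 - t` (`t + 2(s0+1-t) ≤ n`).  Otherwise climb `r → r + 1` as in `ListSub.lean` (`trp` is monotone). -/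

namespace Pool.Agent.ProfDK
open Finset Pool.Agent.ProfSR Pool.Agent.ProfOP
open Pool.Agent.ProfEP (zer)

theorem PT_finite (n t s0 : ℕ) : (PT n t s0).Finite := by
  refine (Set.finite_range (fun F : Finset (Finset (Fin n)) => trp n t s0 (prof n F))).subset ?_
  rintro p ⟨F, _, rfl⟩
  exact ⟨F, rfl⟩

theorem PT_nonempty (n t s0 : ℕ) : (PT n t s0).Nonempty :=
  ⟨trp n t s0 (prof n ∅), ∅, fun _ hA => absurd hA (notMem_empty _), rfl⟩

theorem PT_nonneg {n t s0 : ℕ} : ∀ p ∈ PT n t s0, 0 ≤ p := by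
  rintro p ⟨F, _, rfl⟩ k
  unfold trp
  split_ifs
  · exact Nat.cast_nonneg _
  · exact le_rfl

private theorem zer_trp_ListSubT {n t s0 : ℕ} (S : Finset (Fin (n + 1))) (p : Fin (n + 1) → ℝ) :
    zer S (trp n t s0 p) = trp n t s0 (zer S p) := by
  funext i
  by_cases h1 : i ∈ S
  · by_cases h2 : Win n t s0 i
    · simp only [zer, trp, if_pos h1, if_pos h2]
    · simp only [zer, trp, if_pos h1, if_neg h2]
  · by_cases h2 : Win n t s0 i
    · simp only [zer, trp, if_neg h1, if_pos h2]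
    · simp only [zer, trp, if_neg h1, if_neg h2]

theorem PT_zer {n t s0 : ℕ} : ∀ p ∈ PT n t s0, ∀ S : Finset (Fin (n + 1)), zer S p ∈ PT n t s0 := by
  rintro p ⟨F, hF, rfl⟩ S
  obtain ⟨F', hF', h⟩ := PP_zer (prof n F) ⟨F, hF, rfl⟩ S
  refine ⟨F', hF', ?_⟩
  rw [zer_trp_ListSubT, h]

open Classical in
theorem sum_profT {n t s0 : ℕ} (α : Fin (n + 1) → ℝ) (F : Finset (Finset (Fin n))) :
    ∑ A ∈ F, (if Win n t s0 A.card then lw α A.card else 0) = val α (trp n t s0 (prof n F)) := by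
  have h1 := sum_prof (fun i : Fin (n + 1) => if Win n t s0 i then α i else 0) F
  have h2 : ∀ s : ℕ, lw (fun i : Fin (n + 1) => if Win n t s0 i then α i else 0) s =
      if Win n t s0 s then lw α s else 0 := by
    intro s
    unfold lw
    by_cases hs : s < n + 1
    · rw [dif_pos hs, dif_pos hs]
    · rw [dif_neg hs, dif_neg hs, ite_self]
  simp only [h2] at h1
  rw [h1]
  unfold ProfOP.val trp
  refine sum_congr rfl fun i _ => ?_
  beta_reduce
  split_ifs
  · rfl
  · rw [zero_mul, mul_zero]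

theorem trp_top {n t s0 r r' k k' : ℕ} (h1 : s0 + 1 ≤ k) (h2 : 2 * k ≤ n + t) (h3 : s0 + 1 ≤ k') (h4 : 2 * k' ≤ n + t) :
    trp n t s0 (prof n (Gf n t r k)) = trp n t s0 (prof n (Gf n t r' k')) := by
  funext i
  unfold trp
  by_cases hw : Win n t s0 i
  · rw [if_pos hw, if_pos hw]
    unfold prof
    rw [gf_lev h2, gf_lev h4]
    rcases hw with hw | hw
    · rw [if_neg (by omega), if_pos (by omega), if_neg (by omega), if_pos (by omega)]
    · rw [if_pos (by omega), if_pos (by omega)]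
  · rw [if_neg hw, if_neg hw]

private theorem trp_mono_ListSubT {n t s0 : ℕ} {p q : Fin (n + 1) → ℝ} (h : p ≤ q) :
    trp n t s0 p ≤ trp n t s0 q := by
  intro i
  unfold trp
  split_ifs
  · exact h i
  · exact le_rfl

private theorem gf_top_ListSubT {n t r k : ℕ} (h : t + 2 * r ≤ n) (hk : k ≤ t + r) :
    prof n (Gf n t r k) = prof n (Gf n t r (t + r)) := by
  funext i
  unfold prof
  rw [gf_lev (by omega), gf_lev (by omega)]
  have hi : (i : ℕ) ≤ n := Nat.lt_succ_iff.1 i.2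
  congr 1
  by_cases h1 : n + t ≤ (i : ℕ) + k
  · rw [if_pos h1, if_pos (by omega)]
  · rw [if_neg h1]
    by_cases h2 : n + t ≤ (i : ℕ) + (t + r)
    · rw [if_pos h2, if_neg (by omega)]
      exact fr_full h (by omega)
    · rw [if_neg h2]
      by_cases h3 : (i : ℕ) < k
      · rw [if_pos h3, if_pos (by omega)]
      · rw [if_neg h3]
        by_cases h4 : (i : ℕ) < t + r
        · rw [if_pos h4]
          exact fr_low h4
        · rw [if_neg h4]

private theorem val_mono_ListSubT {m : ℕ} {α p q : Fin m → ℝ} (hα : ∀ i, 0 < α i) (hpq : p ≤ q) :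
    val α p ≤ val α q := by
  unfold ProfOP.val
  exact sum_le_sum fun i _ => mul_le_mul_of_nonneg_left (hpq i) (hα i).le

private theorem gf_mono_ListSubT {n t r m : ℕ} (ht : 1 ≤ t) (hm : t + 2 * m ≤ n) (hr : r < m)
    (h : (r + 1) * n ≤ (m + 1) * (t + 2 * r + 1)) :
    prof n (Gf n t r (t + m)) ≤ prof n (Gf n t (r + 1) (t + m)) := by
  intro i
  unfold prof
  rw [gf_lev (by omega), gf_lev (by omega)]
  rw [Nat.cast_le]
  split_ifs with h1 h2
  · exact le_rfl
  · exact le_rfl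
  · exact fr_mono ht hm hr h (by omega)

private theorem ind_ListSubT {n t m s0 : ℕ} (ht : 1 ≤ t) (hm : t + 2 * m ≤ n) {α p : Fin (n + 1) → ℝ}
    (hα : ∀ i, 0 < α i) (hmax : ∀ q ∈ PT n t s0, q ≠ p → val α q < val α p) :
    ∀ d r : ℕ, m = r + d → p = trp n t s0 (prof n (Gf n t r (t + m))) →
      ∃ r', InL n t m r' ∧ p = trp n t s0 (prof n (Gf n t r' (t + m))) := by
  intro d
  induction d with
  | zero =>
    intro r hr hp
    exact ⟨r, ⟨by omega, hm, Or.inl (by omega)⟩, hp⟩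
  | succ d ih =>
    intro r hr hp
    by_cases h : (m + 1) * (t + 2 * r + 1) < (r + 1) * n
    · exact ⟨r, ⟨by omega, hm, Or.inr h⟩, hp⟩
    · have h1 := trp_mono_ListSubT (n := n) (t := t) (s0 := s0)
        (gf_mono_ListSubT ht hm (show r < m by omega) (not_lt.1 h))
      rw [← hp] at h1
      have h2 := val_mono_ListSubT hα h1
      refine ih (r + 1) (by omega) ?_
      by_contra hne
      exact absurd (hmax (trp n t s0 (prof n (Gf n t (r + 1) (t + m))))
        ⟨_, Gf_inter (by omega), rfl⟩ (fun h => hne h.symm)) (not_lt.2 h2)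

theorem list_subT {n t s0 : ℕ} (ht : 1 ≤ t) (hs : t ≤ s0 + 1)
    (claim : ∀ α : ℕ → ℝ, (∀ i, 0 ≤ α i) → (∀ i, ¬ Win n t s0 i → α i = 0) →
      ∀ F : Finset (Finset (Fin n)), (∀ A ∈ F, ∀ B ∈ F, t ≤ (A ∩ B).card) →
      ∃ r k, t + 2 * r ≤ n ∧ 2 * k ≤ n + t ∧ ∑ A ∈ F, α A.card ≤ ∑ A ∈ Gf n t r k, α A.card)
    {p : Fin (n + 1) → ℝ} (hp : p ∈ Ess (PT n t s0)) :
    ∃ m r, InL n t m r ∧ t + m ≤ s0 + 1 ∧ p = trp n t s0 (prof n (Gf n t r (t + m))) := by
  classical
  obtain ⟨α, hα, hmax⟩ := unique_of_ess (PT_finite n t s0) PT_nonneg PT_zer hp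
  obtain ⟨F, hF, hpF⟩ := extremePoints_convexHull_subset hp.1
  have hlw : ∀ i, 0 ≤ (if Win n t s0 i then lw α i else 0) := by
    intro i
    unfold lw
    split_ifs
    · exact (hα _).le
    · exact le_rfl
    · exact le_rfl
  obtain ⟨r, k, hr, hk, hle⟩ := claim (fun i => if Win n t s0 i then lw α i else 0) hlw
    (fun i hi => if_neg hi) F hF
  rw [sum_profT, sum_profT, ← hpF] at hle
  have hpe : p = trp n t s0 (prof n (Gf n t r k)) := by
    by_contra hne
    exact absurd (hmax (trp n t s0 (prof n (Gf n t r k))) ⟨_, Gf_inter hk, rfl⟩ (fun h => hne h.symm))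
      (not_lt.2 hle)
  rcases le_or_gt k (t + r) with h1 | h1
  · rw [gf_top_ListSubT hr h1] at hpe
    rcases le_or_gt (t + r) (s0 + 1) with h2 | h2
    · exact ⟨r, r, ⟨le_rfl, hr, Or.inl rfl⟩, h2, hpe⟩
    · refine ⟨s0 + 1 - t, s0 + 1 - t, ⟨le_rfl, by omega, Or.inl rfl⟩, by omega, ?_⟩
      rw [hpe]
      exact trp_top (by omega) (by omega) (by omega) (by omega)
  · obtain ⟨m, rfl⟩ : ∃ m, k = t + m := ⟨k - t, by omega⟩
    rcases le_or_gt (t + m) (s0 + 1) with h2 | h2
    · obtain ⟨r', h3, h4⟩ := ind_ListSubT ht (show t + 2 * m ≤ n by omega) hα hmax (m - r) r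
        (by omega) hpe
      exact ⟨m, r', h3, h2, h4⟩
    · refine ⟨s0 + 1 - t, s0 + 1 - t, ⟨le_rfl, by omega, Or.inl rfl⟩, by omega, ?_⟩
      rw [hpe]
      exact trp_top (by omega) (by omega) (by omega) (by omega)

end Pool.Agent.ProfDK
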