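import Pool.Agent.Lib_MP_05ae4a_dk.ListNum

/-! # Piece L3: two weights that single out `(m, r)`

`x i = plev (Fr n t i) (t+m)`, `y i = plev (Fr n t i) (n-m-1)`, `t + 2m + 2 ≤ n`, `t ≥ 2`.  For `i < m` put `κ i = (t+i)/(i+1)`, `π i = (m-i)/(n-t-m-i-1)`,
`C i = C(t+2i, i) * C(n-t-2i-2, m-i) > 0`.  From `fr_step` (with `j = m - i` at size `t+m`, and `j = n-m-1-t-i` at size `n-m-1`, where
`C(v, j) = C(v, m-i-1)`, `C(v, j-1) = C(v, m-i)`, `v = n-t-2i-2`), `C(t+2i,i+1) = κ C(t+2i,i)`, `C(v,m-i-1) = π C(v,m-i)`: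
  `x (i+1) - x i = C i (κ i π i - 1)`, `y (i+1) - y i = C i (κ i - π i)`.
`κ` is strictly decreasing (`κ i = 1 + (t-1)/(i+1)`), `κ ≥ 1`, `π` is strictly decreasing and `0 < π < 1` (`m < n-t-m-1`).
`ρ i = (1 - κ i π i)/(κ i - π i)` is strictly increasing: cross multiplied, with `κ' < κ`, `π' < π`:
  `(1-κ'π')(κ-π) - (1-κπ)(κ'-π') = (κ-κ')(1-ππ') + (π-π')(κκ'-1) > 0`.
Also `ρ (m-1) < (m+1)/(t+m) = x m / Y m`, `Y i = C(n,m+1) - y i`, `x m = C(t+2m, m)` (`fr_bot`), `Y m = C(t+2m, m+1)` (`fr_top`): with `κ' = κ m = (t+m)/(m+1)`, `κ = κ (m-1)`: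
`(1-κπ) κ' < κ - π` because `κ' < κ` and `κκ' ≥ 1`.
Given `(m, r)` in the list: `ρ r > 0` if `r < m` (`κ π < 1` iff `(m+1)(t+2r+1) < (r+1) n`).  Choose `β` with `max (ρ (r-1)) 0 < β < ρ r` (`r < m`), resp. `max (ρ (m-1)) 0 < β < (m+1)/(t+m)`
(`r = m`) (without `ρ (r-1)` if `r = 0`), `A = 1`, `B = β`.  Then `x i + β y i` increases strictly for `i ≤ r` (`β > ρ i`) and decreases strictly for `i ≥ r` (`β < ρ i`): the first claim.
Second claim `B C(n,m+1) < A x r + B y r`, i.e. `β Y r < x r`: `x r = x m + ∑_{r ≤ i < m} (x i - x (i+1))`, `Y r = Y m + ∑ (Y i - Y (i+1))`, `x i - x (i+1) = ρ i (Y i - Y (i+1)) > β (Y i - Y(i+1))` for `i ≥ r`, and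
`x m > β Y m` (as `β < ρ r ≤ ρ (m-1) < (m+1)/(t+m)` if `r < m`). -/

namespace Pool.Agent.ProfDK
open Finset Pool.Agent.ProfSR

private noncomputable def kap_ListWt (t i : ℕ) : ℝ := ((t : ℝ) + i) / ((i : ℝ) + 1)

private noncomputable def den_ListWt (n t m i : ℕ) : ℝ := (n : ℝ) - t - m - i - 1

private noncomputable def pii_ListWt (n t m i : ℕ) : ℝ := ((m : ℝ) - i) / den_ListWt n t m i

private noncomputable def rho_ListWt (n t m i : ℕ) : ℝ :=
  (1 - kap_ListWt t i * pii_ListWt n t m i) / (kap_ListWt t i - pii_ListWt n t m i)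

private theorem den_lb_ListWt {n t m i : ℕ} (hn : t + 2 * m + 2 ≤ n) :
    (m : ℝ) - i + 1 ≤ den_ListWt n t m i := by
  unfold den_ListWt
  have h : ((t + 2 * m + 2 : ℕ) : ℝ) ≤ n := by exact_mod_cast hn
  push_cast at h
  linarith

private theorem den_pos_ListWt {n t m i : ℕ} (hn : t + 2 * m + 2 ≤ n) (hi : i ≤ m) :
    0 < den_ListWt n t m i := by
  have h := den_lb_ListWt (i := i) hn
  have h2 : (i : ℝ) ≤ m := by exact_mod_cast hi
  linarith

private theorem pii_nonneg_ListWt {n t m i : ℕ} (hn : t + 2 * m + 2 ≤ n) (hi : i ≤ m) :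
    0 ≤ pii_ListWt n t m i := by
  have h2 : (i : ℝ) ≤ m := by exact_mod_cast hi
  exact div_nonneg (by linarith) (den_pos_ListWt hn hi).le

private theorem pii_lt_one_ListWt {n t m i : ℕ} (hn : t + 2 * m + 2 ≤ n) (hi : i ≤ m) :
    pii_ListWt n t m i < 1 := by
  unfold pii_ListWt
  rw [div_lt_one (den_pos_ListWt hn hi)]
  have h := den_lb_ListWt (i := i) hn
  linarith

private theorem pii_succ_ListWt {n t m i : ℕ} (hn : t + 2 * m + 2 ≤ n) (hi : i + 1 ≤ m) :
    pii_ListWt n t m (i + 1) < pii_ListWt n t m i := by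
  unfold pii_ListWt
  have h1 := den_pos_ListWt (i := i) hn (by omega)
  have h2 := den_pos_ListWt (i := i + 1) hn hi
  rw [div_lt_div_iff₀ h2 h1]
  have h3 : den_ListWt n t m (i + 1) = den_ListWt n t m i - 1 := by
    unfold den_ListWt
    push_cast
    ring
  rw [h3]
  have h := den_lb_ListWt (i := i) hn
  push_cast
  nlinarith

private theorem kap_gt_ListWt {t i : ℕ} (ht : 2 ≤ t) : 1 < kap_ListWt t i := by
  unfold kap_ListWt
  have h : (2 : ℝ) ≤ t := by exact_mod_cast ht
  rw [lt_div_iff₀ (by positivity)]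
  linarith

private theorem kap_succ_ListWt {t i : ℕ} (ht : 2 ≤ t) : kap_ListWt t (i + 1) < kap_ListWt t i := by
  unfold kap_ListWt
  have h : (2 : ℝ) ≤ t := by exact_mod_cast ht
  rw [div_lt_div_iff₀ (by positivity) (by positivity)]
  push_cast
  nlinarith

private theorem rho_succ_ListWt {n t m i : ℕ} (ht : 2 ≤ t) (hn : t + 2 * m + 2 ≤ n) (hi : i + 1 ≤ m) :
    rho_ListWt n t m i < rho_ListWt n t m (i + 1) := by
  unfold rho_ListWt
  have k1 := kap_gt_ListWt (i := i) ht
  have k2 := kap_gt_ListWt (i := i + 1) ht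
  have k3 := kap_succ_ListWt (i := i) ht
  have p0 := pii_nonneg_ListWt (i := i) hn (by omega)
  have p1 := pii_lt_one_ListWt (i := i) hn (by omega)
  have q0 := pii_nonneg_ListWt (i := i + 1) hn hi
  have q1 := pii_lt_one_ListWt (i := i + 1) hn hi
  have p3 := pii_succ_ListWt (i := i) hn hi
  generalize kap_ListWt t i = a at *
  generalize kap_ListWt t (i + 1) = a' at *
  generalize pii_ListWt n t m i = p at *
  generalize pii_ListWt n t m (i + 1) = p' at *
  rw [div_lt_div_iff₀ (by linarith) (by linarith)]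
  have h1 : 0 < (a - a') * (1 - p * p') := mul_pos (by linarith) (by nlinarith)
  have h2 : 0 < (p - p') * (a * a' - 1) := mul_pos (by linarith) (by nlinarith)
  nlinarith

private theorem rho_mono_ListWt {n t m : ℕ} (ht : 2 ≤ t) (hn : t + 2 * m + 2 ≤ n) {i j : ℕ}
    (hij : i ≤ j) (hj : j ≤ m) : rho_ListWt n t m i ≤ rho_ListWt n t m j := by
  induction j, hij using Nat.le_induction with
  | base => exact le_rfl
  | succ j hij ih => exact (ih (by omega)).trans (rho_succ_ListWt ht hn hj).le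

private theorem rho_top_ListWt {n t m : ℕ} :
    rho_ListWt n t m m = 1 / kap_ListWt t m := by
  unfold rho_ListWt pii_ListWt
  rw [sub_self, zero_div, mul_zero, sub_zero, sub_zero]

private theorem rho_pos_ListWt {n t m r : ℕ} (ht : 2 ≤ t) (hn : t + 2 * m + 2 ≤ n)
    (h : InL n t m r) : 0 < rho_ListWt n t m r := by
  obtain ⟨h1, h2, h3 | h3⟩ := h
  · subst h3
    rw [rho_top_ListWt]
    exact one_div_pos.2 (lt_trans one_pos (kap_gt_ListWt ht))
  · unfold rho_ListWt
    have k1 := kap_gt_ListWt (i := r) ht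
    have p1 := pii_lt_one_ListWt (i := r) hn h1
    refine div_pos ?_ (by linarith)
    have hd := den_pos_ListWt (i := r) hn h1
    have h4 : ((m : ℝ) + 1) * (t + 2 * r + 1) < (r + 1) * n := by exact_mod_cast h3
    have h5 : kap_ListWt t r * pii_ListWt n t m r < 1 := by
      unfold kap_ListWt pii_ListWt
      rw [div_mul_div_comm, div_lt_one (by positivity)]
      unfold den_ListWt
      nlinarith
    linarith

private theorem step_ListWt {n t m i : ℕ} (ht : 2 ≤ t) (hn : t + 2 * m + 2 ≤ n) (hi : i < m) :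
    ∃ C : ℝ, 0 < C ∧
      (plev (Fr n t (i + 1)) (t + m) : ℝ) - plev (Fr n t i) (t + m) =
        C * (kap_ListWt t i * pii_ListWt n t m i - 1) ∧
      (plev (Fr n t (i + 1)) (n - m - 1) : ℝ) - plev (Fr n t i) (n - m - 1) =
        C * (kap_ListWt t i - pii_ListWt n t m i) := by
  obtain ⟨d, hd⟩ : ∃ d, m = i + (d + 1) := ⟨m - i - 1, by omega⟩
  obtain ⟨e, he⟩ : ∃ e, n = t + 2 * m + 2 + e := ⟨n - (t + 2 * m + 2), by omega⟩
  have s1 := fr_step (n := n) (t := t) (r := i) (by omega) (by omega) (d + 1)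
  have s2 := fr_step (n := n) (t := t) (r := i) (by omega) (by omega) (n - m - 1 - t - i)
  rw [if_neg (by omega), Nat.add_sub_cancel, show t + i + (d + 1) = t + m by omega] at s1
  rw [if_neg (by omega), show t + i + (n - m - 1 - t - i) = n - m - 1 by omega] at s2
  obtain ⟨v, hv⟩ : ∃ v, n - t - 2 * i - 2 = v := ⟨_, rfl⟩
  have hv2 : v = d + 1 + (d + 1) + e := by omega
  rw [hv] at s1 s2
  have c1 : v.choose (n - m - 1 - t - i) = v.choose d := Nat.choose_symm_of_eq_add (by omega)
  have c2 : v.choose (n - m - 1 - t - i - 1) = v.choose (d + 1) := Nat.choose_symm_of_eq_add (by omega)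
  rw [c1, c2] at s2
  have e1 := Nat.choose_succ_right_eq (t + 2 * i) i
  have e2 := Nat.choose_succ_right_eq v d
  rw [show t + 2 * i - i = t + i by omega] at e1
  rw [show v - d = d + 2 + e by omega] at e2
  have f1 : 0 < (t + 2 * i).choose i := Nat.choose_pos (by omega)
  have f2 : 0 < v.choose (d + 1) := Nat.choose_pos (by omega)
  have s1' : (plev (Fr n t (i + 1)) (t + m) : ℝ) + (t + 2 * i).choose i * v.choose (d + 1) =
      plev (Fr n t i) (t + m) + (t + 2 * i).choose (i + 1) * v.choose d := by exact_mod_cast s1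
  have s2' : (plev (Fr n t (i + 1)) (n - m - 1) : ℝ) + (t + 2 * i).choose i * v.choose d =
      plev (Fr n t i) (n - m - 1) + (t + 2 * i).choose (i + 1) * v.choose (d + 1) := by
    exact_mod_cast s2
  have e1' : ((t + 2 * i).choose (i + 1) : ℝ) * (i + 1) = (t + 2 * i).choose i * (t + i) := by
    exact_mod_cast e1
  have e2' : (v.choose (d + 1) : ℝ) * (d + 1) = v.choose d * (d + 2 + e) := by
    exact_mod_cast e2
  have f1' : (0 : ℝ) < (t + 2 * i).choose i := by exact_mod_cast f1
  have f2' : (0 : ℝ) < v.choose (d + 1) := by exact_mod_cast f2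
  have hden : den_ListWt n t m i = (d : ℝ) + 2 + e := by
    unfold den_ListWt
    rw [he, hd]
    push_cast
    ring
  have g1 : ((t + 2 * i).choose (i + 1) : ℝ) = (t + 2 * i).choose i * kap_ListWt t i := by
    unfold kap_ListWt
    rw [← mul_div_assoc, eq_div_iff (by positivity)]
    exact e1'
  have g2 : (v.choose d : ℝ) = v.choose (d + 1) * pii_ListWt n t m i := by
    unfold pii_ListWt
    rw [hden, ← mul_div_assoc, eq_div_iff (by positivity), ← e2', hd]
    push_cast
    ring
  refine ⟨(t + 2 * i).choose i * v.choose (d + 1), mul_pos f1' f2', ?_, ?_⟩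
  · rw [g1, g2] at s1'
    linarith
  · rw [g1, g2] at s2'
    linarith

theorem two_weights {n t m r : ℕ} (ht : 2 ≤ t) (hn : t + 2 * m + 2 ≤ n) (h : InL n t m r) :
    ∃ A B : ℝ, 0 < A ∧ 0 < B ∧
      (∀ i ≤ m, i ≠ r → A * plev (Fr n t i) (t + m) + B * plev (Fr n t i) (n - m - 1) <
        A * plev (Fr n t r) (t + m) + B * plev (Fr n t r) (n - m - 1)) ∧
      B * (n.choose (m + 1) : ℝ) < A * plev (Fr n t r) (t + m) + B * plev (Fr n t r) (n - m - 1) := by
  have hr := rho_pos_ListWt ht hn h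
  have hrm : r ≤ m := h.1
  obtain ⟨β, hβ0, hβ1, hβ2⟩ : ∃ β : ℝ, 0 < β ∧ β < rho_ListWt n t m r ∧
      ∀ i < r, rho_ListWt n t m i < β := by
    rcases Nat.eq_zero_or_pos r with h0 | h0
    · refine ⟨rho_ListWt n t m r / 2, by linarith, by linarith, ?_⟩
      intro i hi
      omega
    · obtain ⟨q, rfl⟩ : ∃ q, r = q + 1 := ⟨r - 1, by omega⟩
      have h1 := rho_succ_ListWt (i := q) ht hn hrm
      obtain ⟨β, hb1, hb2⟩ := exists_between (max_lt hr h1)
      refine ⟨β, lt_of_le_of_lt (le_max_left _ _) hb1, hb2, ?_⟩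
      intro i hi
      have h2 := rho_mono_ListWt (i := i) (j := q) ht hn (by omega) (by omega)
      exact lt_of_le_of_lt (h2.trans (le_max_right _ _)) hb1
  obtain ⟨z, hz⟩ : ∃ z : ℕ → ℝ, z = fun i => (plev (Fr n t i) (t + m) : ℝ) + β * plev (Fr n t i) (n - m - 1) :=
    ⟨_, rfl⟩
  have hstep : ∀ i < m, ∃ C : ℝ, 0 < C ∧ z (i + 1) - z i = C * (β - rho_ListWt n t m i) := by
    intro i hi
    obtain ⟨C, hC, e1, e2⟩ := step_ListWt ht hn hi
    have k1 := kap_gt_ListWt (i := i) ht
    have p1 := pii_lt_one_ListWt (i := i) hn hi.le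
    refine ⟨C * (kap_ListWt t i - pii_ListWt n t m i), mul_pos hC (by linarith), ?_⟩
    have hne : kap_ListWt t i - pii_ListWt n t m i ≠ 0 := by
      apply ne_of_gt
      linarith
    have e3 : (kap_ListWt t i - pii_ListWt n t m i) * rho_ListWt n t m i =
        1 - kap_ListWt t i * pii_ListWt n t m i := by
      unfold rho_ListWt
      rw [mul_div_cancel₀ _ hne]
    have e4 : z (i + 1) - z i = ((plev (Fr n t (i + 1)) (t + m) : ℝ) - plev (Fr n t i) (t + m)) +
        β * ((plev (Fr n t (i + 1)) (n - m - 1) : ℝ) - plev (Fr n t i) (n - m - 1)) := by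
      rw [hz]
      ring
    rw [e4, e1, e2, mul_assoc, mul_sub (kap_ListWt t i - pii_ListWt n t m i) β, e3]
    ring
  have hup : ∀ i, i < r → z i < z r := by
    have aux : ∀ k, ∀ i, i + k + 1 = r → z i < z r := by
      intro k
      induction k with
      | zero =>
        intro i hi
        obtain ⟨C, hC, e⟩ := hstep i (by omega)
        have h1 := hβ2 i (by omega)
        have h2 : 0 < C * (β - rho_ListWt n t m i) := mul_pos hC (by linarith)
        rw [← hi]
        simp only [add_zero]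
        linarith
      | succ k ih =>
        intro i hi
        obtain ⟨C, hC, e⟩ := hstep i (by omega)
        have h1 := hβ2 i (by omega)
        have h2 : 0 < C * (β - rho_ListWt n t m i) := mul_pos hC (by linarith)
        have h3 := ih (i + 1) (by omega)
        linarith
    intro i hi
    exact aux (r - i - 1) i (by omega)
  have hdown1 : ∀ i, r ≤ i → i < m → z (i + 1) < z i := by
    intro i hi him
    obtain ⟨C, hC, e⟩ := hstep i him
    have h1 := rho_mono_ListWt (i := r) (j := i) ht hn hi him.le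
    have h2 : 0 < C * (rho_ListWt n t m i - β) := mul_pos hC (by linarith)
    linarith
  have hdown : ∀ k, r + k + 1 ≤ m → z (r + k + 1) < z r := by
    intro k
    induction k with
    | zero =>
      intro hk
      exact hdown1 r le_rfl (by omega)
    | succ k ih =>
      intro hk
      have h1 := ih (by omega)
      have h2 := hdown1 (r + k + 1) (by omega) (by omega)
      exact lt_trans h2 h1
  refine ⟨1, β, one_pos, hβ0, ?_, ?_⟩
  · intro i him hir
    have key : z i < z r := by
      rcases lt_or_gt_of_ne hir with h1 | h1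
      · exact hup i h1
      · have h2 := hdown (i - r - 1) (by omega)
        rwa [show r + (i - r - 1) + 1 = i by omega] at h2
    rw [hz] at key
    simp only [one_mul]
    exact key
  · have h1 : z m ≤ z r := by
      rcases eq_or_lt_of_le hrm with h2 | h2
      · rw [h2]
      · have h3 := hdown (m - r - 1) (by omega)
        rw [show r + (m - r - 1) + 1 = m by omega] at h3
        exact h3.le
    have b1 := fr_bot (n := n) (t := t) (r := m) (by omega)
    have b2 := fr_top (n := n) (t := t) (r := m) (by omega) (by omega)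
    rw [show n - m - 1 = n - m - 1 from rfl] at b2
    have e1 := Nat.choose_succ_right_eq (t + 2 * m) m
    rw [show t + 2 * m - m = t + m by omega] at e1
    have e1' : ((t + 2 * m).choose (m + 1) : ℝ) * (m + 1) = (t + 2 * m).choose m * (t + m) := by
      exact_mod_cast e1
    have g1 : ((t + 2 * m).choose (m + 1) : ℝ) = (t + 2 * m).choose m * kap_ListWt t m := by
      unfold kap_ListWt
      rw [← mul_div_assoc, eq_div_iff (by positivity)]
      exact e1'
    have b2' : (plev (Fr n t m) (n - m - 1) : ℝ) + (t + 2 * m).choose (m + 1) = n.choose (m + 1) := by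
      exact_mod_cast b2
    have f1 : 0 < (t + 2 * m).choose m := Nat.choose_pos (by omega)
    have f1' : (0 : ℝ) < (t + 2 * m).choose m := by exact_mod_cast f1
    have hb : β < 1 / kap_ListWt t m := by
      rw [← rho_top_ListWt (n := n)]
      exact lt_of_lt_of_le hβ1 (rho_mono_ListWt ht hn hrm le_rfl)
    have hk := kap_gt_ListWt (i := m) ht
    have hb2 : β * kap_ListWt t m < 1 := by
      rwa [lt_div_iff₀ (by linarith)] at hb
    have hzm : z m = ((t + 2 * m).choose m : ℝ) + β * (n.choose (m + 1) - (t + 2 * m).choose m * kap_ListWt t m) := by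
      rw [hz]
      simp only
      rw [b1, ← b2', g1]
      ring
    have hzr : z r = (plev (Fr n t r) (t + m) : ℝ) + β * plev (Fr n t r) (n - m - 1) := by rw [hz]
    rw [one_mul, ← hzr]
    refine lt_of_lt_of_le ?_ h1
    rw [hzm]
    nlinarith [mul_pos f1' (show 0 < 1 - β * kap_ListWt t m by linarith)]

end Pool.Agent.ProfDK
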