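import Pool.Agent.Lib_MP_05ae4a_dk.ListSub
import Pool.Agent.Lib_MP_05ae4a_dk.ListWt

/-! # Piece L4: every point of the list is essential

`ess_of_best`: let `p ∈ PP n t` and `c ≥ 0` weights such that `val c q < val c p` for all points `q ≠ p` of the list.  By finiteness of the list choose `ε > 0` such that `α = c + ε` still has
`val α q < val α p` for all `q ≠ p` of the list; `α > 0`, so there is an essential maximizer (`exists_ess_max`), which is in the list (`sub`), so it is `p`.
`list_sup`: let `(m, r)` be in the list, `p = prof n (Gf n t r (t+m))` (in `PP n t` by `Gf_inter`).  Weights: `Γ` on the sizes `s ≥ n - m`; if `t + 2m + 2 ≤ n` also `A` at `t + m` and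
`B` at `n - m - 1` (`two_weights`; these are different and `< n - m`); `0` elsewhere; `Γ` larger than `A C(n,t+m) + B C(n,m+1)`.  Let `q = prof n (Gf n t r' (t+m'))`, `(m', r')` in the list (`gf_lev`).
 * `m' < m`: `q` is not full at the size `n - m` (it is `< n - m'`, and there `q` is `plev (Fr n t r')` with `r' ≤ m' < m`: not full, e.g. remove `r'+1` of the first `t+2r'` elements and `m - r' - 1` others; or count
   with `fr_step`/`fr_top`; a set of size `n - m` whose complement contains the first `r' + 1` elements is not in `Fr n t r'`), so it loses at least `Γ` there and gains at most `A C(n,t+m) + B C(n,m+1)`.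
 * `m' > m` (so `t + 2m + 2 ≤ n`): `q` is full for sizes `≥ n - m - 1`, `0` at size `t + m`: its value is `Γ(..) + B C(n,m+1)`, smaller by the second part of `two_weights`.
 * `m' = m`, `r' ≠ r`: if `t + 2m + 2 ≤ n`: first part of `two_weights`.  If `n ≤ t + 2m + 1` then `r = m = r'`: for `r < m` the condition `(m+1)(t+2r+1) < (r+1) n` fails (`n = t+2m`: it says
   `(m-r) t + 2r + 1 - m < 0`; `n = t+2m+1`: `(m-r)(t-1) < 0`).
 * `m' = m`, `r' = r`: `q = p`. -/

namespace Pool.Agent.ProfDK
open Finset Pool.Agent.ProfSR Pool.Agent.ProfOP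

theorem ess_of_best {n t : ℕ} (sub : ∀ p ∈ Ess (PP n t), ∃ m r, InL n t m r ∧ p = prof n (Gf n t r (t + m)))
    {p : Fin (n + 1) → ℝ} {c : Fin (n + 1) → ℝ} (hc : ∀ i, 0 ≤ c i) (hp : p ∈ PP n t)
    (h : ∀ m r, InL n t m r → prof n (Gf n t r (t + m)) ≠ p → val c (prof n (Gf n t r (t + m))) < val c p) :
    p ∈ Ess (PP n t) := by
  have hval : ∀ (ε : ℝ) (q : Fin (n + 1) → ℝ), val (fun i => c i + ε) q = val c q + ε * ∑ i, q i := by
    intro ε q
    unfold ProfOP.val
    rw [Finset.mul_sum, ← Finset.sum_add_distrib]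
    refine Finset.sum_congr rfl (fun i _ => ?_)
    ring
  have hev : ∀ᶠ ε in nhdsWithin (0 : ℝ) (Set.Ioi 0), ∀ x ∈ (range (n + 1) ×ˢ range (n + 1)), InL n t x.1 x.2 →
      prof n (Gf n t x.2 (t + x.1)) ≠ p →
      val (fun i => c i + ε) (prof n (Gf n t x.2 (t + x.1))) < val (fun i => c i + ε) p := by
    rw [Filter.eventually_all_finset]
    intro x _
    by_cases hx : InL n t x.1 x.2 ∧ prof n (Gf n t x.2 (t + x.1)) ≠ p
    · have h1 := h _ _ hx.1 hx.2
      have h2 : ∀ᶠ ε in nhds (0 : ℝ), val c (prof n (Gf n t x.2 (t + x.1))) + ε * ∑ i, prof n (Gf n t x.2 (t + x.1)) i <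
          val c p + ε * ∑ i, p i := by
        apply ContinuousAt.eventually_lt
        · fun_prop
        · fun_prop
        · simpa using h1
      refine Filter.Eventually.mono (nhdsWithin_le_nhds h2) (fun ε hε _ _ => ?_)
      rw [hval, hval]
      exact hε
    · refine Filter.Eventually.of_forall (fun ε h1 h2 => absurd ⟨h1, h2⟩ hx)
  obtain ⟨ε, hε, hpos⟩ := (hev.and self_mem_nhdsWithin).exists
  have hpos' : (0 : ℝ) < ε := hpos
  have hα : ∀ i, 0 < (fun i => c i + ε) i := fun i => add_pos_of_nonneg_of_pos (hc i) hpos'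
  obtain ⟨p', hp', hmax⟩ := exists_ess_max (PP_finite n t) (PP_nonempty n t) hα
  obtain ⟨m, r, hmr, he⟩ := sub p' hp'
  by_cases hpp : p' = p
  · rw [← hpp]; exact hp'
  · exfalso
    obtain ⟨g1, g2, g3⟩ := id hmr
    have h1 := hε (m, r) (by rw [mem_product, mem_range, mem_range]; constructor <;> omega) hmr
      (by rw [← he]; exact hpp)
    have h2 := hmax p hp
    rw [he] at h2
    exact absurd h1 (not_lt.2 h2)

private theorem plev_le_supL4 {n : ℕ} (F : Finset (Finset (Fin n))) (s : ℕ) : plev F s ≤ n.choose s := by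
  have h1 : F.filter (fun A => A.card = s) ⊆ powersetCard s univ := by
    intro A hA
    rw [mem_powersetCard]
    exact ⟨subset_univ _, (mem_filter.1 hA).2⟩
  have h2 := card_le_card h1
  rwa [card_powersetCard, card_univ, Fintype.card_fin] at h2

private theorem fr_lt_supL4 {n t r m : ℕ} (ht : 2 ≤ t) (_hm : t + 2 * m ≤ n) (hr : r < m) :
    plev (Fr n t r) (n - m) < n.choose (n - m) := by
  have h1 : (Fr n t r).filter (fun A => A.card = n - m) ⊂ powersetCard (n - m) univ := by
    refine (Finset.ssubset_iff_of_subset ?_).2 ⟨univ.filter (fun x : Fin n => m ≤ (x : ℕ)), ?_, ?_⟩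
    · intro A hA
      rw [mem_powersetCard]
      exact ⟨subset_univ _, (mem_filter.1 hA).2⟩
    · rw [mem_powersetCard]
      refine ⟨subset_univ _, ?_⟩
      have h2 : (univ.filter (fun x : Fin n => m ≤ (x : ℕ))).map Fin.valEmbedding = Ico m n := by
        ext x
        simp only [mem_map, mem_filter, mem_univ, true_and, Fin.valEmbedding_apply, mem_Ico]
        constructor
        · rintro ⟨y, hy, rfl⟩
          exact ⟨hy, y.2⟩
        · rintro ⟨h3, h4⟩
          exact ⟨⟨x, h4⟩, h3, rfl⟩
      have h3 := congrArg card h2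
      rwa [card_map, Nat.card_Ico] at h3
    · intro hA
      have hA1 := (mem_filter.1 hA).1
      unfold Fr at hA1
      have hA2 := (mem_filter.1 hA1).2
      rw [filter_filter] at hA2
      have h2 : ((univ.filter (fun x : Fin n => m ≤ (x : ℕ) ∧ (x : ℕ) < t + 2 * r)).map Fin.valEmbedding) ⊆
          Ico m (t + 2 * r) := by
        intro x hx
        rw [mem_map] at hx
        obtain ⟨y, hy, rfl⟩ := hx
        exact mem_Ico.2 (mem_filter.1 hy).2
      have h3 := card_le_card h2
      rw [card_map, Nat.card_Ico] at h3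
      omega
  have h2 := card_lt_card h1
  rwa [card_powersetCard, card_univ, Fintype.card_fin] at h2

/-- the weights on all sizes -/
private noncomputable def cw_supL4 (n t m : ℕ) (Γ A B : ℝ) (s : ℕ) : ℝ :=
  (if n ≤ s + m then Γ else 0) + ((if s = t + m then A else 0) + (if s = n - m - 1 then B else 0))

private theorem val_supL4 {n t m : ℕ} (hm : t + 2 * m ≤ n) (Γ A B : ℝ) (F : Finset (Finset (Fin n))) :
    val (fun i : Fin (n + 1) => cw_supL4 n t m Γ A B (i : ℕ)) (prof n F) =
      Γ * (∑ s ∈ range (n + 1), if n ≤ s + m then (plev F s : ℝ) else 0) +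
        (A * plev F (t + m) + B * plev F (n - m - 1)) := by
  unfold ProfOP.val prof
  rw [Fin.sum_univ_eq_sum_range (fun s => cw_supL4 n t m Γ A B s * (plev F s : ℝ)) (n + 1)]
  have h1 : ∀ s, cw_supL4 n t m Γ A B s * (plev F s : ℝ) =
      Γ * (if n ≤ s + m then (plev F s : ℝ) else 0) +
        ((if s = t + m then A * plev F s else 0) + (if s = n - m - 1 then B * plev F s else 0)) := by
    intro s
    unfold cw_supL4
    split_ifs <;> ring
  simp_rw [h1]
  rw [sum_add_distrib, sum_add_distrib, ← mul_sum, Finset.sum_ite_eq', Finset.sum_ite_eq',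
    if_pos (mem_range.2 (by omega)), if_pos (mem_range.2 (by omega))]

/-- the sum of the levels `s ≥ n - m` -/
private theorem full_supL4 {n m : ℕ} (F : Finset (Finset (Fin n))) :
    (∑ s ∈ range (n + 1), if n ≤ s + m then (plev F s : ℝ) else 0) ≤
      ∑ s ∈ range (n + 1), if n ≤ s + m then (n.choose s : ℝ) else 0 := by
  refine sum_le_sum (fun s _ => ?_)
  split_ifs
  · exact_mod_cast plev_le_supL4 F s
  · exact le_rfl

private theorem full_lt_supL4 {n m : ℕ} (hm : m ≤ n) (F : Finset (Finset (Fin n)))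
    (h : plev F (n - m) < n.choose (n - m)) :
    (∑ s ∈ range (n + 1), if n ≤ s + m then (plev F s : ℝ) else 0) + 1 ≤
      ∑ s ∈ range (n + 1), if n ≤ s + m then (n.choose s : ℝ) else 0 := by
  have hmem : n - m ∈ range (n + 1) := mem_range.2 (by omega)
  rw [← Finset.add_sum_erase _ _ hmem, ← Finset.add_sum_erase (range (n + 1)) (fun s => if n ≤ s + m then (n.choose s : ℝ) else 0) hmem]
  rw [if_pos (by omega), if_pos (by omega)]
  have h1 : (plev F (n - m) : ℝ) + 1 ≤ (n.choose (n - m) : ℝ) := by exact_mod_cast h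
  have h2 : (∑ s ∈ (range (n + 1)).erase (n - m), if n ≤ s + m then (plev F s : ℝ) else 0) ≤
      ∑ s ∈ (range (n + 1)).erase (n - m), if n ≤ s + m then (n.choose s : ℝ) else 0 := by
    refine sum_le_sum (fun s _ => ?_)
    split_ifs
    · exact_mod_cast plev_le_supL4 F s
    · exact le_rfl
  linarith

private theorem full_eq_supL4 {n m : ℕ} (F : Finset (Finset (Fin n)))
    (h : ∀ s, n ≤ s + m → plev F s = n.choose s) :
    (∑ s ∈ range (n + 1), if n ≤ s + m then (plev F s : ℝ) else 0) =
      ∑ s ∈ range (n + 1), if n ≤ s + m then (n.choose s : ℝ) else 0 := by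
  refine sum_congr rfl (fun s _ => ?_)
  split_ifs with h1
  · rw [h s h1]
  · rfl

theorem list_sup {n t : ℕ} (ht : 2 ≤ t) (sub : ∀ p ∈ Ess (PP n t), ∃ m r, InL n t m r ∧ p = prof n (Gf n t r (t + m)))
    {m r : ℕ} (h : InL n t m r) : prof n (Gf n t r (t + m)) ∈ Ess (PP n t) := by
  obtain ⟨hrm, hmn, hor⟩ := id h
  have hk : 2 * (t + m) ≤ n + t := by omega
  obtain ⟨A, B, hA, hB, hAB⟩ : ∃ A B : ℝ, 0 ≤ A ∧ 0 ≤ B ∧
      ((t + 2 * m + 2 ≤ n ∧ (∀ i ≤ m, i ≠ r → A * plev (Fr n t i) (t + m) + B * plev (Fr n t i) (n - m - 1) <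
        A * plev (Fr n t r) (t + m) + B * plev (Fr n t r) (n - m - 1)) ∧
      B * (n.choose (m + 1) : ℝ) < A * plev (Fr n t r) (t + m) + B * plev (Fr n t r) (n - m - 1)) ∨
      (n ≤ t + 2 * m + 1 ∧ r = m ∧ A = 0 ∧ B = 0)) := by
    by_cases hn : t + 2 * m + 2 ≤ n
    · obtain ⟨A, B, h1, h2, h3, h4⟩ := two_weights ht hn h
      exact ⟨A, B, h1.le, h2.le, Or.inl ⟨hn, h3, h4⟩⟩
    · refine ⟨0, 0, le_rfl, le_rfl, Or.inr ⟨by omega, ?_, rfl, rfl⟩⟩
      rcases hor with h1 | h1
      · exact h1
      · by_contra hne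
        obtain ⟨d, hd⟩ : ∃ d, m = r + (d + 1) := ⟨m - r - 1, by omega⟩
        have h2 : n ≤ t + 2 * m + 1 := by omega
        have h3 := Nat.mul_le_mul_left (r + 1) h2
        obtain ⟨e, he⟩ : ∃ e, t = e + 2 := ⟨t - 2, by omega⟩
        subst hd
        subst he
        nlinarith
  obtain ⟨Γ, hΓ⟩ : ∃ Γ : ℝ, Γ = A * (n.choose (t + m) : ℝ) + B * (n.choose (n - m - 1) : ℝ) + 1 := ⟨_, rfl⟩
  have hΓ0 : 0 < Γ := by rw [hΓ]; positivity
  have hpp : prof n (Gf n t r (t + m)) ∈ PP n t := ⟨_, Gf_inter hk, rfl⟩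
  refine ess_of_best sub (c := fun i : Fin (n + 1) => cw_supL4 n t m Γ A B (i : ℕ)) ?_ hpp ?_
  · intro i
    unfold cw_supL4
    have h1 : (0 : ℝ) ≤ if n ≤ (i : ℕ) + m then Γ else 0 := by split_ifs; exacts [hΓ0.le, le_rfl]
    have h2 : (0 : ℝ) ≤ if (i : ℕ) = t + m then A else 0 := by split_ifs; exacts [hA, le_rfl]
    have h3 : (0 : ℝ) ≤ if (i : ℕ) = n - m - 1 then B else 0 := by split_ifs; exacts [hB, le_rfl]
    linarith
  · intro m' r' hin hne
    obtain ⟨hrm', hmn', hor'⟩ := id hin
    have hk' : 2 * (t + m') ≤ n + t := by omega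
    rw [val_supL4 hmn, val_supL4 hmn]
    have hfull : (∑ s ∈ range (n + 1), if n ≤ s + m then (plev (Gf n t r (t + m)) s : ℝ) else 0) =
        ∑ s ∈ range (n + 1), if n ≤ s + m then (n.choose s : ℝ) else 0 := by
      refine full_eq_supL4 _ (fun s hs => ?_)
      rw [gf_lev hk, if_pos (by omega)]
    rw [hfull]
    rcases lt_trichotomy m' m with hlt | heq | hgt
    · have h1 : plev (Gf n t r' (t + m')) (n - m) < n.choose (n - m) := by
        rw [gf_lev hk', if_neg (by omega), if_neg (by omega)]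
        exact fr_lt_supL4 ht hmn (by omega)
      have h2 := full_lt_supL4 (by omega : m ≤ n) _ h1
      have h3 : (plev (Gf n t r' (t + m')) (t + m) : ℝ) ≤ (n.choose (t + m) : ℝ) := by
        exact_mod_cast plev_le_supL4 _ _
      have h4 : (plev (Gf n t r' (t + m')) (n - m - 1) : ℝ) ≤ (n.choose (n - m - 1) : ℝ) := by
        exact_mod_cast plev_le_supL4 _ _
      have h5 := mul_le_mul_of_nonneg_left h3 hA
      have h6 := mul_le_mul_of_nonneg_left h4 hB
      have h7 := mul_le_mul_of_nonneg_left h2 hΓ0.le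
      have h8 : 0 ≤ A * (plev (Gf n t r (t + m)) (t + m) : ℝ) := by positivity
      have h9 : 0 ≤ B * (plev (Gf n t r (t + m)) (n - m - 1) : ℝ) := by positivity
      linarith
    · subst heq
      have hfull' : (∑ s ∈ range (n + 1), if n ≤ s + m' then (plev (Gf n t r' (t + m')) s : ℝ) else 0) =
          ∑ s ∈ range (n + 1), if n ≤ s + m' then (n.choose s : ℝ) else 0 := by
        refine full_eq_supL4 _ (fun s hs => ?_)
        rw [gf_lev hk, if_pos (by omega)]
      rw [hfull']
      have hrr : r' ≠ r := by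
        rintro rfl
        exact hne rfl
      rcases hAB with ⟨h1, h2, h3⟩ | ⟨h1, h2, _, _⟩
      · have h4 := h2 r' hrm' hrr
        rw [gf_lev hk, gf_lev hk, gf_lev hk, gf_lev hk, if_neg (by omega), if_neg (by omega), if_neg (by omega),
          if_neg (by omega), if_neg (by omega), if_neg (by omega), if_neg (by omega), if_neg (by omega)]
        linarith
      · exfalso
        apply hrr
        rcases hor' with h5 | h5
        · omega
        · by_contra hne'
          have hlt' : r' < m' := by omega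
          obtain ⟨d, hd⟩ : ∃ d, m' = r' + (d + 1) := ⟨m' - r' - 1, by omega⟩
          have h3 := Nat.mul_le_mul_left (r' + 1) h1
          obtain ⟨e, he⟩ : ∃ e, t = e + 2 := ⟨t - 2, by omega⟩
          subst hd
          subst he
          nlinarith
    · rcases hAB with ⟨h1, h2, h3⟩ | ⟨h1, h2, _, _⟩
      · have hfull' : (∑ s ∈ range (n + 1), if n ≤ s + m then (plev (Gf n t r' (t + m')) s : ℝ) else 0) =
            ∑ s ∈ range (n + 1), if n ≤ s + m then (n.choose s : ℝ) else 0 := by
          refine full_eq_supL4 _ (fun s hs => ?_)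
          rw [gf_lev hk', if_pos (by omega)]
        rw [hfull']
        have e1 : plev (Gf n t r' (t + m')) (t + m) = 0 := by
          rw [gf_lev hk', if_neg (by omega), if_pos (by omega)]
        have e2 : plev (Gf n t r' (t + m')) (n - m - 1) = n.choose (m + 1) := by
          rw [gf_lev hk', if_pos (by omega), ← Nat.choose_symm (by omega : m + 1 ≤ n)]
          rfl
        have e3 : plev (Gf n t r (t + m)) (t + m) = plev (Fr n t r) (t + m) := by
          rw [gf_lev hk, if_neg (by omega), if_neg (by omega)]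
        have e4 : plev (Gf n t r (t + m)) (n - m - 1) = plev (Fr n t r) (n - m - 1) := by
          rw [gf_lev hk, if_neg (by omega), if_neg (by omega)]
        rw [e1, e2, e3, e4]
        simp only [Nat.cast_zero, mul_zero, zero_add]
        linarith
      · omega

end Pool.Agent.ProfDK
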