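import Pool.Agent.Lib_MP_05ae4a_dk.Defs

/-! # Piece D1: basic rules for `EE`

`EE x g Φ = Ed (g - x) x Φ` is the sum of `Φ (statuses in [x,g))` over all paths from the zero `x` to the zero `g`.
`EE_first` is the definition of `Ed` (reindex `y = x + l + 1`; for `x < g` write `g - x = d + 1`).  Everything else by strong
induction on `g - x` with `EE_first` (for `g ≤ x` the value is `Φ ∅`).
`EE_flip`: for `σ ⊆ Ico y g`, `x < y ≤ g`: `Ico x g \ σ = (Ico y g \ σ) ∪ Ico x y` and `Ico x g \ (σ ∪ Ico x y) = Ico y g \ σ`; so the two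
terms of `EE_first` are exchanged (use `EE_congr`).
`EE_last`: in `EE_first` for `EE x (m+1) Φ` the term `y = m+1` is `kap (m+1-x) * (Φ ∅ + Φ (Ico x (m+1)))`, which is the term `g = x` of the claim.
For `y ≤ m` use the induction hypothesis for `EE y (m+1)`, exchange the two sums, and use `EE_first` for `EE x g`, `x < g ≤ m`, backwards
(`(σ ∪ Ico g (m+1)) ∪ Ico x y = (σ ∪ Ico x y) ∪ Ico g (m+1)`). -/

namespace Pool.Agent.ProfDK
open Finset Pool.Agent.ProfSR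

private theorem kap_nonneg_Model (l : ℕ) : 0 ≤ kap l := by
  unfold kap; exact Nat.cast_nonneg _

private theorem EE_of_le_Model {x g : ℕ} (h : g ≤ x) (Φ : Finset ℕ → ℝ) : EE x g Φ = Φ ∅ := by
  unfold EE
  rw [Nat.sub_eq_zero_of_le h, Ed]

theorem EE_self (g : ℕ) (Φ : Finset ℕ → ℝ) : EE g g Φ = Φ ∅ := EE_of_le_Model le_rfl Φ

theorem EE_first {x g : ℕ} (h : x < g) (Φ : Finset ℕ → ℝ) :
    EE x g Φ = ∑ y ∈ Ioc x g, kap (y - x) * (EE y g Φ + EE y g (fun σ => Φ (σ ∪ Ico x y))) := by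
  obtain ⟨d, rfl⟩ : ∃ d, g = x + d + 1 := ⟨g - x - 1, by omega⟩
  have h1 : EE x (x + d + 1) Φ = Ed (d + 1) x Φ := by
    unfold EE
    congr 1
    omega
  rw [h1, Ed, Fin.sum_univ_eq_sum_range (fun l => kap (l + 1) *
    (Ed (d - l) (x + l + 1) Φ + Ed (d - l) (x + l + 1) (fun σ => Φ (σ ∪ Ico x (x + l + 1)))))
    (d + 1)]
  refine Finset.sum_nbij' (fun i => x + i + 1) (fun y => y - x - 1) ?_ ?_ ?_ ?_ ?_
  · intro i hi
    rw [mem_range] at hi
    rw [mem_Ioc]; omega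
  · intro y hy
    rw [mem_Ioc] at hy
    rw [mem_range]; omega
  · intro i hi
    omega
  · intro y hy
    rw [mem_Ioc] at hy
    omega
  · intro i hi
    rw [mem_range] at hi
    have h2 : x + i + 1 - x = i + 1 := by omega
    have h3 : x + d + 1 - (x + i + 1) = d - i := by omega
    unfold EE
    rw [h2, h3]

private theorem ind_Model (P : ℕ → ℕ → Prop) (h0 : ∀ x g, g ≤ x → P x g)
    (h1 : ∀ x g, x < g → (∀ y, x < y → y ≤ g → P y g) → P x g) : ∀ x g, P x g := by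
  intro x g
  induction hn : g - x using Nat.strong_induction_on generalizing x with
  | _ n ih =>
    rcases le_or_gt g x with h | h
    · exact h0 x g h
    · refine h1 x g h ?_
      intro y hy hyg
      exact ih (g - y) (by omega) y rfl

theorem EE_mono {x g : ℕ} {Φ Ψ : Finset ℕ → ℝ} (h : ∀ σ ⊆ Ico x g, Φ σ ≤ Ψ σ) : EE x g Φ ≤ EE x g Ψ := by
  revert Φ Ψ
  refine ind_Model (fun x g => ∀ {Φ Ψ : Finset ℕ → ℝ}, (∀ σ ⊆ Ico x g, Φ σ ≤ Ψ σ) →
    EE x g Φ ≤ EE x g Ψ) ?_ ?_ x g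
  · intro x g hx Φ Ψ h
    rw [EE_of_le_Model hx, EE_of_le_Model hx]
    exact h ∅ (empty_subset _)
  · intro x g hx ih Φ Ψ h
    rw [EE_first hx, EE_first hx]
    refine Finset.sum_le_sum ?_
    intro y hy
    rw [mem_Ioc] at hy
    refine mul_le_mul_of_nonneg_left (add_le_add ?_ ?_) (kap_nonneg_Model _)
    · refine ih y hy.1 hy.2 ?_
      intro σ hσ
      exact h σ (hσ.trans (Ico_subset_Ico_left hy.1.le))
    · refine ih y hy.1 hy.2 ?_
      intro σ hσ
      exact h _ (union_subset (hσ.trans (Ico_subset_Ico_left hy.1.le)) (Ico_subset_Ico_right hy.2))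

theorem EE_congr {x g : ℕ} {Φ Ψ : Finset ℕ → ℝ} (h : ∀ σ ⊆ Ico x g, Φ σ = Ψ σ) : EE x g Φ = EE x g Ψ :=
  le_antisymm (EE_mono fun σ hσ => (h σ hσ).le) (EE_mono fun σ hσ => (h σ hσ).ge)

private theorem EE_zero_Model (x g : ℕ) : EE x g (fun _ => 0) = 0 := by
  refine ind_Model (fun x g => EE x g (fun _ => 0) = 0) ?_ ?_ x g
  · intro x g hx
    exact EE_of_le_Model hx _
  · intro x g hx ih
    rw [EE_first hx]
    refine Finset.sum_eq_zero ?_
    intro y hy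
    rw [mem_Ioc] at hy
    rw [ih y hy.1 hy.2, add_zero, mul_zero]

theorem EE_nonneg {x g : ℕ} {Φ : Finset ℕ → ℝ} (h : ∀ σ ⊆ Ico x g, 0 ≤ Φ σ) : 0 ≤ EE x g Φ := by
  have h1 : EE x g (fun _ => 0) ≤ EE x g Φ := EE_mono h
  rwa [EE_zero_Model] at h1

theorem EE_add (x g : ℕ) (Φ Ψ : Finset ℕ → ℝ) : EE x g (fun σ => Φ σ + Ψ σ) = EE x g Φ + EE x g Ψ := by
  revert Φ Ψ
  refine ind_Model (fun x g => ∀ (Φ Ψ : Finset ℕ → ℝ),
    EE x g (fun σ => Φ σ + Ψ σ) = EE x g Φ + EE x g Ψ) ?_ ?_ x g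
  · intro x g hx Φ Ψ
    rw [EE_of_le_Model hx, EE_of_le_Model hx, EE_of_le_Model hx]
  · intro x g hx ih Φ Ψ
    rw [EE_first hx, EE_first hx, EE_first hx, ← Finset.sum_add_distrib]
    refine Finset.sum_congr rfl ?_
    intro y hy
    rw [mem_Ioc] at hy
    rw [ih y hy.1 hy.2, ih y hy.1 hy.2 (fun σ => Φ (σ ∪ Ico x y)) (fun σ => Ψ (σ ∪ Ico x y))]
    ring

theorem EE_mul (x g : ℕ) (c : ℝ) (Φ : Finset ℕ → ℝ) : EE x g (fun σ => c * Φ σ) = c * EE x g Φ := by
  revert Φ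
  refine ind_Model (fun x g => ∀ (Φ : Finset ℕ → ℝ),
    EE x g (fun σ => c * Φ σ) = c * EE x g Φ) ?_ ?_ x g
  · intro x g hx Φ
    rw [EE_of_le_Model hx, EE_of_le_Model hx]
  · intro x g hx ih Φ
    rw [EE_first hx, EE_first hx, Finset.mul_sum]
    refine Finset.sum_congr rfl ?_
    intro y hy
    rw [mem_Ioc] at hy
    rw [ih y hy.1 hy.2, ih y hy.1 hy.2 (fun σ => Φ (σ ∪ Ico x y))]
    ring

theorem EE_flip {x g : ℕ} (h : x ≤ g) (Φ : Finset ℕ → ℝ) : EE x g (fun σ => Φ (Ico x g \ σ)) = EE x g Φ := by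
  revert Φ h
  refine ind_Model (fun x g => x ≤ g → ∀ (Φ : Finset ℕ → ℝ),
    EE x g (fun σ => Φ (Ico x g \ σ)) = EE x g Φ) ?_ ?_ x g
  · intro x g hx hx2 Φ
    have hxg : x = g := le_antisymm hx2 hx
    subst hxg
    rw [EE_self, EE_self]
    simp
  · intro x g hx ih _ Φ
    rw [EE_first hx, EE_first hx]
    refine Finset.sum_congr rfl ?_
    intro y hy
    rw [mem_Ioc] at hy
    have h1 : EE y g (fun σ => Φ (Ico x g \ σ)) = EE y g (fun σ => Φ (σ ∪ Ico x y)) := by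
      rw [← ih y hy.1 hy.2 hy.2 (fun σ => Φ (σ ∪ Ico x y))]
      refine EE_congr ?_
      intro σ hσ
      show Φ (Ico x g \ σ) = Φ ((Ico y g \ σ) ∪ Ico x y)
      congr 1
      ext i
      have h3 : i ∈ σ → y ≤ i ∧ i < g := fun hi => mem_Ico.mp (hσ hi)
      simp only [mem_sdiff, mem_union, mem_Ico]
      constructor
      · rintro ⟨⟨h4, h5⟩, h6⟩
        rcases lt_or_ge i y with h7 | h7
        · exact Or.inr ⟨h4, h7⟩
        · exact Or.inl ⟨⟨h7, h5⟩, h6⟩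
      · rintro (⟨⟨h4, h5⟩, h6⟩ | ⟨h4, h5⟩)
        · exact ⟨⟨by omega, h5⟩, h6⟩
        · exact ⟨⟨h4, by omega⟩, fun h6 => by have := h3 h6; omega⟩
    have h2 : EE y g (fun σ => Φ (Ico x g \ (σ ∪ Ico x y))) = EE y g Φ := by
      rw [← ih y hy.1 hy.2 hy.2 Φ]
      refine EE_congr ?_
      intro σ hσ
      show Φ (Ico x g \ (σ ∪ Ico x y)) = Φ (Ico y g \ σ)
      congr 1
      ext i
      simp only [mem_sdiff, mem_union, mem_Ico]
      constructor
      · rintro ⟨⟨h4, h5⟩, h6⟩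
        refine ⟨⟨?_, h5⟩, fun h7 => h6 (Or.inl h7)⟩
        by_contra h7
        exact h6 (Or.inr ⟨h4, by omega⟩)
      · rintro ⟨⟨h4, h5⟩, h6⟩
        refine ⟨⟨by omega, h5⟩, ?_⟩
        rintro (h7 | ⟨h7, h8⟩)
        · exact h6 h7
        · omega
    rw [h1, h2, add_comm]

theorem EE_last {x m : ℕ} (h : x ≤ m) (Φ : Finset ℕ → ℝ) :
    EE x (m + 1) Φ = ∑ g ∈ Icc x m, kap (m + 1 - g) * (EE x g Φ + EE x g (fun σ => Φ (σ ∪ Ico g (m + 1)))) := by
  induction hn : m - x using Nat.strong_induction_on generalizing x Φ with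
  | _ n ih =>
    have hI : Icc x m = insert x (Ioc x m) := by
      ext i
      simp only [mem_Icc, mem_insert, mem_Ioc]
      omega
    rw [EE_first (by omega : x < m + 1), Finset.sum_Ioc_succ_top h, hI, Finset.sum_insert (by simp),
      EE_self, EE_self, EE_self, EE_self, empty_union, add_comm]
    congr 1
    have e1 : ∀ y ∈ Ioc x m, kap (y - x) *
        (EE y (m + 1) Φ + EE y (m + 1) (fun σ => Φ (σ ∪ Ico x y))) =
        ∑ g ∈ Icc y m, kap (y - x) * (kap (m + 1 - g) *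
          (EE y g Φ + EE y g (fun σ => Φ (σ ∪ Ico g (m + 1)))) + kap (m + 1 - g) *
          (EE y g (fun σ => Φ (σ ∪ Ico x y)) +
            EE y g (fun σ => Φ ((σ ∪ Ico g (m + 1)) ∪ Ico x y)))) := by
      intro y hy
      rw [mem_Ioc] at hy
      rw [ih (m - y) (by omega) hy.2 Φ rfl,
        ih (m - y) (by omega) hy.2 (fun σ => Φ (σ ∪ Ico x y)) rfl, ← Finset.sum_add_distrib,
        Finset.mul_sum]
    rw [Finset.sum_congr rfl e1, Finset.sum_comm' (s' := fun g => Ioc x g) (t' := Ioc x m)]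
    · refine Finset.sum_congr rfl ?_
      intro g hg
      rw [mem_Ioc] at hg
      rw [EE_first hg.1, EE_first hg.1, ← Finset.sum_add_distrib, Finset.mul_sum]
      refine Finset.sum_congr rfl ?_
      intro y hy
      have e2 : (fun σ : Finset ℕ => Φ ((σ ∪ Ico g (m + 1)) ∪ Ico x y)) =
          fun σ => Φ ((σ ∪ Ico x y) ∪ Ico g (m + 1)) := by
        funext σ
        rw [union_right_comm]
      rw [e2]
      ring
    · intro y g
      simp only [mem_Ioc, mem_Icc]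
      omega

end Pool.Agent.ProfDK
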