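import Pool.Agent.Lib_MP_05ae4a_dk.Model
import Pool.Agent.Lib_MP_05ae4a_dk.NumA

/-! # Piece D6: total mass, half, transfer

`EE_total`: induction with `EE_first`, `U_renewal`.
`EE_half`: `x ≤ w < g`: `EE_flip` (`w ∈ Ico x g \ σ ↔ w ∉ σ` as `w ∈ Ico x g`), and the two indicators add up to `1`.
`EE_zero_star`: if `w < x` (or `g ≤ w`) then `w ∉ σ` for `σ ⊆ Ico x g`.
`EE_transfer`: first the bound with `Z_d = ∑_{i ≤ d} 4^i U (d-i)`, `d = h - g`, and `Z_d ≤ 6^d` (`Z_0 = 1`, `Z_{d+1} = U (d+1) + 4 Z_d`; in fact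
`Z_d = (2d+1) U_d`, `Z_{d+1}/Z_d = 2(2d+3)/(d+1) ≤ 6`).  Induction on `g - x` for all `Φ ≥ 0`: in `EE_first` for `EE x h` the terms `y < g`:
`(σ ∪ Ico x y) ∩ range g = (σ ∩ range g) ∪ Ico x y`, induction hypothesis for `Φ` and for `fun σ => Φ (σ ∪ Ico x y)` (compare with `EE_first` for `EE x g`).
The terms `y ≥ g`: for `σ ⊆ Ico y h`: `σ ∩ range g = ∅` and `(σ ∪ Ico x y) ∩ range g = Ico x g`, so they are
`kap (y-x) * U (h-y) * (Φ ∅ + Φ (Ico x g))`, and `kap (y - x) ≤ 4^(y-g) * kap (g - x)` (`kap_succ_le`); their sum is at most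
`Z_d * kap (g-x) * (Φ ∅ + Φ (Ico x g))`, which is `Z_d` times the term `y = g` for `EE x g`. -/

namespace Pool.Agent.ProfDK
open Finset Pool.Agent.ProfSR

theorem EE_total {x g : ℕ} (h : x ≤ g) (c : ℝ) : EE x g (fun _ => c) = c * U (g - x) := by
  obtain ⟨d, rfl⟩ := Nat.exists_eq_add_of_le h
  clear h
  induction d using Nat.strong_induction_on generalizing x with
  | _ d ih =>
    rcases Nat.eq_zero_or_pos d with rfl | hd
    · rw [Nat.add_zero, EE_self, Nat.sub_self, U_zero, mul_one]
    · rw [EE_first (by omega), Nat.add_sub_cancel_left, U_renewal hd, Finset.mul_sum]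
      refine Finset.sum_bij' (fun y _ => y - x) (fun l _ => x + l) ?_ ?_ ?_ ?_ ?_
      · intro y hy
        rw [mem_Ioc] at hy
        rw [mem_Icc]
        omega
      · intro l hl
        rw [mem_Icc] at hl
        rw [mem_Ioc]
        omega
      · intro y hy
        rw [mem_Ioc] at hy
        show x + (y - x) = y
        omega
      · intro l hl
        show x + l - x = l
        omega
      · intro y hy
        rw [mem_Ioc] at hy
        have h1 := ih (x + d - y) (by omega) (x := y)
        have h2 : y + (x + d - y) = x + d := by omega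
        rw [h2] at h1
        rw [h1]
        show kap (y - x) * (c * U (x + d - y) + c * U (x + d - y)) = c * (2 * kap (y - x) * U (d - (y - x)))
        have h3 : d - (y - x) = x + d - y := by omega
        rw [h3]
        ring

theorem EE_half {x w g : ℕ} (hx : x ≤ w) (hw : w < g) : 2 * EE x g (ind (star w)) = U (g - x) := by
  have h1 : EE x g (fun σ => ind (star w) σ + ind (star w) (Ico x g \ σ)) = EE x g (fun _ => (1 : ℝ)) := by
    apply EE_congr
    intro σ _
    unfold ind ProfSR.star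
    have hm : w ∈ Ico x g := by
      rw [mem_Ico]
      exact ⟨hx, hw⟩
    by_cases hs : w ∈ σ
    · simp [hs]
    · simp [hs, hx, hw]
  rw [EE_add, EE_flip (by omega : x ≤ g) (ind (star w)), EE_total (by omega : x ≤ g), one_mul] at h1
  rw [← h1]
  ring

theorem EE_zero_star {x w g : ℕ} (hw : w < x ∨ g ≤ w) : EE x g (ind (star w)) = 0 := by
  have h1 : EE x g (ind (star w)) = EE x g (fun σ => 0 * ind (star w) σ) := by
    apply EE_congr
    intro σ hσ
    unfold ind ProfSR.star
    have hm : w ∉ σ := by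
      intro hs
      have := hσ hs
      rw [mem_Ico] at this
      omega
    simp [hm]
  rw [h1, EE_mul, zero_mul]

/-- the factor of `EE_transfer` -/
private noncomputable def ZTr (d : ℕ) : ℝ := ∑ i ∈ range (d + 1), (4 : ℝ) ^ i * U (d - i)

private theorem ZTr_succ (d : ℕ) : ZTr (d + 1) = U (d + 1) + 4 * ZTr d := by
  unfold ZTr
  rw [Finset.sum_range_succ' _ (d + 1), Finset.mul_sum, add_comm]
  congr 1
  · simp
  · apply Finset.sum_congr rfl
    intro i _
    have h : d + 1 - (i + 1) = d - i := by omega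
    rw [h, pow_succ]
    ring

private theorem U_stepTr (d : ℕ) : ((d : ℝ) + 1) * U (d + 1) = 2 * (2 * (d : ℝ) + 1) * U d := by
  unfold U
  have h := Nat.succ_mul_centralBinom_succ d
  have h2 : ((((d + 1) * Nat.centralBinom (d + 1) : ℕ)) : ℝ) = ((2 * (2 * d + 1) * Nat.centralBinom d : ℕ) : ℝ) := by
    exact_mod_cast h
  push_cast at h2
  exact h2

private theorem ZTr_eq (d : ℕ) : ZTr d = (2 * (d : ℝ) + 1) * U d := by
  induction d with
  | zero => simp [ZTr, U_zero]
  | succ d ih =>
    rw [ZTr_succ, ih]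
    have h := U_stepTr d
    push_cast
    linarith

private theorem ZTr_le (d : ℕ) : ZTr d ≤ 6 ^ d := by
  induction d with
  | zero => simp [ZTr, U_zero]
  | succ d ih =>
    have hU := U_pos d
    have h := U_stepTr d
    have hd : (0 : ℝ) ≤ (d : ℝ) := Nat.cast_nonneg d
    have key : ZTr (d + 1) ≤ 6 * ZTr d := by
      rw [ZTr_eq, ZTr_eq]
      push_cast
      have h1 : (0 : ℝ) < (d : ℝ) + 1 := by linarith
      have h2 : ((d : ℝ) + 1) * ((2 * ((d : ℝ) + 1) + 1) * U (d + 1)) ≤ ((d : ℝ) + 1) * (6 * ((2 * (d : ℝ) + 1) * U d)) := by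
        have e1 : ((d : ℝ) + 1) * ((2 * ((d : ℝ) + 1) + 1) * U (d + 1)) = (2 * ((d : ℝ) + 1) + 1) * (((d : ℝ) + 1) * U (d + 1)) := by
          ring
        rw [e1, h]
        have e2 : ((d : ℝ) + 1) * (6 * ((2 * (d : ℝ) + 1) * U d)) - (2 * ((d : ℝ) + 1) + 1) * (2 * (2 * (d : ℝ) + 1) * U d)
            = 2 * (d : ℝ) * ((2 * (d : ℝ) + 1) * U d) := by
          ring
        have e3 : 0 ≤ 2 * (d : ℝ) * ((2 * (d : ℝ) + 1) * U d) := by positivity
        linarith
      exact le_of_mul_le_mul_left h2 h1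
    calc ZTr (d + 1) ≤ 6 * ZTr d := key
      _ ≤ 6 * 6 ^ d := by linarith
      _ = 6 ^ (d + 1) := by
        rw [pow_succ]
        ring

private theorem ZTr_nonneg (d : ℕ) : 0 ≤ ZTr d := by
  unfold ZTr
  apply Finset.sum_nonneg
  intro i _
  have := U_pos (d - i)
  positivity

private theorem kap_addTr {l : ℕ} (hl : 1 ≤ l) (i : ℕ) : kap (l + i) ≤ 4 ^ i * kap l := by
  induction i with
  | zero => simp
  | succ i ih =>
    have h1 := kap_succ_le (l := l + i) (by omega)
    calc kap (l + (i + 1)) = kap (l + i + 1) := by rw [Nat.add_assoc]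
      _ ≤ 4 * kap (l + i) := h1
      _ ≤ 4 * (4 ^ i * kap l) := by linarith
      _ = 4 ^ (i + 1) * kap l := by
        rw [pow_succ]
        ring

private theorem transferTr (d : ℕ) : ∀ (e x : ℕ) (Φ : Finset ℕ → ℝ), (∀ σ, 0 ≤ Φ σ) →
    EE x (x + e + 1 + d) (fun σ => Φ (σ ∩ range (x + e + 1))) ≤ ZTr d * EE x (x + e + 1) Φ := by
  intro e
  induction e using Nat.strong_induction_on with
  | _ e ih =>
    intro x Φ hΦ
    have hlow : ∀ y ∈ Ioc x (x + e), kap (y - x) * (EE y (x + e + 1 + d) (fun σ => Φ (σ ∩ range (x + e + 1)))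
          + EE y (x + e + 1 + d) (fun σ => Φ ((σ ∪ Ico x y) ∩ range (x + e + 1))))
        ≤ ZTr d * (kap (y - x) * (EE y (x + e + 1) Φ + EE y (x + e + 1) (fun σ => Φ (σ ∪ Ico x y)))) := by
      intro y hy
      rw [mem_Ioc] at hy
      have hyy : y + (x + e - y) + 1 = x + e + 1 := by omega
      have h1 := ih (x + e - y) (by omega) y Φ hΦ
      have h2 := ih (x + e - y) (by omega) y (fun σ => Φ (σ ∪ Ico x y)) (fun σ => hΦ _)
      rw [hyy] at h1 h2
      have h3 : EE y (x + e + 1 + d) (fun σ => Φ ((σ ∪ Ico x y) ∩ range (x + e + 1)))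
          = EE y (x + e + 1 + d) (fun σ => (fun τ => Φ (τ ∪ Ico x y)) (σ ∩ range (x + e + 1))) := by
        apply EE_congr
        intro σ _
        show Φ ((σ ∪ Ico x y) ∩ range (x + e + 1)) = Φ (σ ∩ range (x + e + 1) ∪ Ico x y)
        congr 1
        ext z
        simp only [mem_inter, mem_union, mem_Ico, mem_range]
        constructor
        · rintro ⟨hz | hz, hr⟩
          · exact Or.inl ⟨hz, hr⟩
          · exact Or.inr hz
        · rintro (⟨hz, hr⟩ | hz)
          · exact ⟨Or.inl hz, hr⟩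
          · exact ⟨Or.inr hz, by omega⟩
      rw [h3]
      have hk := (kap_pos (y - x)).le
      calc kap (y - x) * (EE y (x + e + 1 + d) (fun σ => Φ (σ ∩ range (x + e + 1)))
          + EE y (x + e + 1 + d) (fun σ => (fun τ => Φ (τ ∪ Ico x y)) (σ ∩ range (x + e + 1))))
          ≤ kap (y - x) * (ZTr d * EE y (x + e + 1) Φ + ZTr d * EE y (x + e + 1) (fun σ => Φ (σ ∪ Ico x y))) := by
            apply mul_le_mul_of_nonneg_left _ hk
            exact add_le_add h1 h2
        _ = ZTr d * (kap (y - x) * (EE y (x + e + 1) Φ + EE y (x + e + 1) (fun σ => Φ (σ ∪ Ico x y)))) := by ring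
    have hC : 0 ≤ Φ ∅ + Φ (Ico x (x + e + 1)) := add_nonneg (hΦ _) (hΦ _)
    have hup : ∀ y ∈ Ioc (x + e) (x + e + 1 + d), kap (y - x) * (EE y (x + e + 1 + d) (fun σ => Φ (σ ∩ range (x + e + 1)))
          + EE y (x + e + 1 + d) (fun σ => Φ ((σ ∪ Ico x y) ∩ range (x + e + 1))))
        ≤ (4 : ℝ) ^ (y - (x + e + 1)) * U (d - (y - (x + e + 1))) * (kap (e + 1) * (Φ ∅ + Φ (Ico x (x + e + 1)))) := by
      intro y hy
      rw [mem_Ioc] at hy
      have h1 : EE y (x + e + 1 + d) (fun σ => Φ (σ ∩ range (x + e + 1))) = Φ ∅ * U (x + e + 1 + d - y) := by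
        rw [← EE_total (by omega : y ≤ x + e + 1 + d)]
        apply EE_congr
        intro σ hσ
        show Φ (σ ∩ range (x + e + 1)) = Φ ∅
        congr 1
        ext z
        simp only [mem_inter, mem_range, notMem_empty, iff_false, not_and]
        intro hz
        have := hσ hz
        rw [mem_Ico] at this
        omega
      have h2 : EE y (x + e + 1 + d) (fun σ => Φ ((σ ∪ Ico x y) ∩ range (x + e + 1)))
          = Φ (Ico x (x + e + 1)) * U (x + e + 1 + d - y) := by
        rw [← EE_total (by omega : y ≤ x + e + 1 + d)]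
        apply EE_congr
        intro σ hσ
        show Φ ((σ ∪ Ico x y) ∩ range (x + e + 1)) = Φ (Ico x (x + e + 1))
        congr 1
        ext z
        simp only [mem_inter, mem_union, mem_Ico, mem_range]
        constructor
        · rintro ⟨hz | hz, hr⟩
          · have := hσ hz
            rw [mem_Ico] at this
            omega
          · omega
        · rintro ⟨hz, hr⟩
          exact ⟨Or.inr (by omega), by omega⟩
      rw [h1, h2]
      obtain ⟨i, rfl⟩ : ∃ i, y = x + e + 1 + i := ⟨y - (x + e + 1), by omega⟩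
      have e1 : x + e + 1 + i - x = (e + 1) + i := by omega
      have e2 : x + e + 1 + d - (x + e + 1 + i) = d - i := by omega
      have e3 : x + e + 1 + i - (x + e + 1) = i := by omega
      rw [e1, e2, e3]
      have hk := kap_addTr (l := e + 1) (by omega) i
      have hU := (U_pos (d - i)).le
      calc kap (e + 1 + i) * (Φ ∅ * U (d - i) + Φ (Ico x (x + e + 1)) * U (d - i))
          = kap (e + 1 + i) * (U (d - i) * (Φ ∅ + Φ (Ico x (x + e + 1)))) := by ring
        _ ≤ (4 ^ i * kap (e + 1)) * (U (d - i) * (Φ ∅ + Φ (Ico x (x + e + 1)))) :=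
            mul_le_mul_of_nonneg_right hk (mul_nonneg hU hC)
        _ = (4 : ℝ) ^ i * U (d - i) * (kap (e + 1) * (Φ ∅ + Φ (Ico x (x + e + 1)))) := by ring
    have hsum : ∑ y ∈ Ioc (x + e) (x + e + 1 + d), (4 : ℝ) ^ (y - (x + e + 1)) * U (d - (y - (x + e + 1)))
          * (kap (e + 1) * (Φ ∅ + Φ (Ico x (x + e + 1))))
        = ZTr d * (kap (e + 1) * (Φ ∅ + Φ (Ico x (x + e + 1)))) := by
      rw [← Finset.sum_mul]
      congr 1
      unfold ZTr
      refine Finset.sum_bij' (fun y _ => y - (x + e + 1)) (fun i _ => x + e + 1 + i) ?_ ?_ ?_ ?_ ?_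
      · intro y hy
        rw [mem_Ioc] at hy
        rw [mem_range]
        omega
      · intro i hi
        rw [mem_range] at hi
        rw [mem_Ioc]
        omega
      · intro y hy
        rw [mem_Ioc] at hy
        show x + e + 1 + (y - (x + e + 1)) = y
        omega
      · intro i hi
        show x + e + 1 + i - (x + e + 1) = i
        omega
      · intro y hy
        rfl
    have hlast : ∑ y ∈ Ioc (x + e) (x + e + 1), kap (y - x) * (EE y (x + e + 1) Φ + EE y (x + e + 1) (fun σ => Φ (σ ∪ Ico x y)))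
        = kap (e + 1) * (Φ ∅ + Φ (Ico x (x + e + 1))) := by
      have hI : Ioc (x + e) (x + e + 1) = {x + e + 1} := by
        ext z
        rw [mem_Ioc, mem_singleton]
        omega
      rw [hI, Finset.sum_singleton, EE_self, EE_self, Finset.empty_union]
      have e1 : x + e + 1 - x = e + 1 := by omega
      rw [e1]
    rw [EE_first (by omega : x < x + e + 1 + d), EE_first (by omega : x < x + e + 1) Φ,
      ← Finset.sum_Ioc_consecutive _ (by omega : x ≤ x + e) (by omega : x + e ≤ x + e + 1 + d),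
      ← Finset.sum_Ioc_consecutive (fun y => kap (y - x) * (EE y (x + e + 1) Φ + EE y (x + e + 1) (fun σ => Φ (σ ∪ Ico x y))))
        (by omega : x ≤ x + e) (by omega : x + e ≤ x + e + 1), hlast, mul_add]
    apply add_le_add
    · rw [Finset.mul_sum]
      exact Finset.sum_le_sum hlow
    · rw [← hsum]
      exact Finset.sum_le_sum hup

theorem EE_transfer {x g h : ℕ} (hx : x < g) (hg : g ≤ h) {Φ : Finset ℕ → ℝ} (hΦ : ∀ σ, 0 ≤ Φ σ) :
    EE x h (fun σ => Φ (σ ∩ range g)) ≤ 6 ^ (h - g) * EE x g Φ := by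
  have h1 := transferTr (h - g) (g - x - 1) x Φ hΦ
  have e1 : x + (g - x - 1) + 1 = g := by omega
  have e2 : g + (h - g) = h := by omega
  rw [e1, e2] at h1
  have h2 : 0 ≤ EE x g Φ := EE_nonneg (fun σ _ => hΦ σ)
  exact le_trans h1 (mul_le_mul_of_nonneg_right (ZTr_le _) h2)

end Pool.Agent.ProfDK
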